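import Pool.Agent.MP_154433_an.t3a.Spec

set_option autoImplicit false

open MeasureTheory ProbabilityTheory Filter Topology Set
open scoped ENNReal

namespace Pool.Agent.MP_154433_an.T3A

noncomputable section

namespace IidAux

variable {Ω Z : Type} [MeasurableSpace Ω] [MeasurableSpace Z]

/-- the kernel of independent samples -/
lemma exists_ker [StandardBorelSpace Z] [Nonempty Z] (Ξ : Kernel Ω Z) [IsMarkovKernel Ξ] :
    ∃ K : Kernel Ω (ℕ → Z), IsMarkovKernel K ∧ ∀ y, K y = Measure.infinitePi fun _ : ℕ => Ξ y := by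
  obtain ⟨f, hf, hfe⟩ := Kernel.exists_measurable_map_eq_unitInterval Ξ
  let P : Measure (ℕ → unitInterval) := Measure.infinitePi fun _ : ℕ => volume
  have hF : Measurable fun p : Ω × (ℕ → unitInterval) => fun i : ℕ => f p.1 (p.2 i) :=
    measurable_pi_lambda _ fun i =>
      hf.comp (measurable_fst.prodMk ((measurable_pi_apply i).comp measurable_snd))
  refine ⟨(Kernel.id ×ₖ Kernel.const Ω P).map fun p => fun i : ℕ => f p.1 (p.2 i),
    Kernel.IsMarkovKernel.map _ hF, fun y => ?_⟩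
  have hy : Measurable (f y) := hf.comp measurable_prodMk_left
  rw [Kernel.map_apply _ hF, Kernel.prod_apply, Kernel.id_apply, Kernel.const_apply,
    Measure.dirac_prod, Measure.map_map hF measurable_prodMk_left]
  have h := Measure.infinitePi_map_pi (fun _ : ℕ => (volume : Measure unitInterval))
    (f := fun _ : ℕ => f y) (fun _ => hy)
  simp only [hfe] at h
  exact h

lemma miss (m : Measure Z) [IsProbabilityMeasure m] {E : Set Z} (hE : MeasurableSet E)
    (h : m E ≠ 0) : (Measure.infinitePi fun _ : ℕ => m) {x | ∀ i, x i ∉ E} = 0 := by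
  have hlt : m Eᶜ < 1 := by
    rw [prob_compl_eq_one_sub hE]
    exact ENNReal.sub_lt_self ENNReal.one_ne_top one_ne_zero h
  have ht := ENNReal.tendsto_pow_atTop_nhds_zero_of_lt_one hlt
  refine le_antisymm (ge_of_tendsto' ht fun n => ?_) zero_le
  have h1 := Measure.infinitePi_pi (fun _ : ℕ => m) (s := Finset.range n) (t := fun _ => Eᶜ)
    (fun _ _ => hE.compl)
  rw [Finset.prod_const, Finset.card_range] at h1
  rw [← h1]
  exact measure_mono fun x hx i _ => hx i

/-- the product of two measurable bijections, the second acting on all samples -/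
def TT (T : Ω ≃ᵐ Ω) (R : Z ≃ᵐ Z) : (Ω × (ℕ → Z)) ≃ᵐ (Ω × (ℕ → Z)) :=
  MeasurableEquiv.prodCongr T (MeasurableEquiv.piCongrRight fun _ : ℕ => R)

lemma TT_apply (T : Ω ≃ᵐ Ω) (R : Z ≃ᵐ Z) (x : Ω × (ℕ → Z)) :
    TT T R x = (T x.1, fun i => R (x.2 i)) := rfl

lemma mp_TT (μ : Measure Ω) [IsProbabilityMeasure μ] (T : Ω ≃ᵐ Ω) (R : Z ≃ᵐ Z) (Ξ : Kernel Ω Z)
    [IsMarkovKernel Ξ] (K : Kernel Ω (ℕ → Z)) [IsMarkovKernel K]
    (hK : ∀ y, K y = Measure.infinitePi fun _ : ℕ => Ξ y) (hT : MeasurePreserving T μ μ)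
    (hΞ : ∀ᵐ y ∂μ, Ξ (T y) = (Ξ y).map R) :
    MeasurePreserving (TT T R) (μ ⊗ₘ K) (μ ⊗ₘ K) := by
  refine ⟨(TT T R).measurable, ?_⟩
  ext s hs
  have hs' : MeasurableSet (TT T R ⁻¹' s) := (TT T R).measurable hs
  rw [Measure.map_apply (TT T R).measurable hs, Measure.compProd_apply hs',
    Measure.compProd_apply hs,
    ← hT.lintegral_comp (Kernel.measurable_kernel_prodMk_left hs)]
  refine lintegral_congr_ae ?_
  filter_upwards [hΞ] with y hy
  have hR : Measurable fun (x : ℕ → Z) (i : ℕ) => R (x i) :=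
    measurable_pi_lambda _ fun i => R.measurable.comp (measurable_pi_apply i)
  have h := Measure.infinitePi_map_pi (fun _ : ℕ => Ξ y) (f := fun _ : ℕ => (R : Z → Z))
    (fun _ => R.measurable)
  have h2 : K (T y) = (K y).map fun (x : ℕ → Z) (i : ℕ) => R (x i) := by
    rw [hK, hK, h]; simp only [hy]
  rw [h2, Measure.map_apply hR (measurable_prodMk_left hs)]
  rfl

lemma law (μ : Measure Ω) [IsProbabilityMeasure μ] (Ξ : Kernel Ω Z)
    [IsMarkovKernel Ξ] (K : Kernel Ω (ℕ → Z)) [IsMarkovKernel K]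
    (hK : ∀ y, K y = Measure.infinitePi fun _ : ℕ => Ξ y) (i : ℕ) :
    (μ ⊗ₘ K).map (fun x => (x.1, x.2 i)) = μ ⊗ₘ Ξ := by
  have hm : Measurable fun x : Ω × (ℕ → Z) => (x.1, x.2 i) :=
    measurable_fst.prodMk ((measurable_pi_apply i).comp measurable_snd)
  ext s hs
  rw [Measure.map_apply hm hs, Measure.compProd_apply (hm hs), Measure.compProd_apply hs]
  refine lintegral_congr fun y => ?_
  have h := Measure.infinitePi_map_eval (fun _ : ℕ => Ξ y) i
  rw [← h, Measure.map_apply (measurable_pi_apply i) (measurable_prodMk_left hs), hK]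
  rfl

lemma hit (μ : Measure Ω) [IsProbabilityMeasure μ] (Ξ : Kernel Ω Z)
    [IsMarkovKernel Ξ] (K : Kernel Ω (ℕ → Z)) [IsMarkovKernel K]
    (hK : ∀ y, K y = Measure.infinitePi fun _ : ℕ => Ξ y) {E : Set Z} (hE : MeasurableSet E) :
    ∀ᵐ x ∂(μ ⊗ₘ K), Ξ x.1 E ≠ 0 → ∃ i, x.2 i ∈ E := by
  have h1 : MeasurableSet {x : Ω × (ℕ → Z) | Ξ x.1 E = 0} :=
    ((Kernel.measurable_coe Ξ hE).comp measurable_fst) (measurableSet_singleton 0)
  have h2 : MeasurableSet (⋃ i : ℕ, {x : Ω × (ℕ → Z) | x.2 i ∈ E}) :=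
    MeasurableSet.iUnion fun i => ((measurable_pi_apply i).comp measurable_snd) hE
  have hm : MeasurableSet {x : Ω × (ℕ → Z) | Ξ x.1 E ≠ 0 → ∃ i, x.2 i ∈ E} := by
    convert h1.union h2 using 1
    ext x
    simp only [mem_ofPred_eq, mem_union, mem_iUnion]
    tauto
  refine Measure.ae_compProd_of_ae_ae hm (ae_of_all _ fun y => ?_)
  by_cases h : Ξ y E = 0
  · exact ae_of_all _ fun _ h' => absurd h h'
  · rw [hK, ae_iff]
    refine measure_mono_null (fun x hx => ?_) (miss (Ξ y) hE h)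
    intro i hi
    exact hx fun _ => ⟨i, hi⟩

end IidAux

theorem xIid : IidS := by
  intro Ω Z _ _ _ _ μ _ T R Ξ _ hT hΞ
  obtain ⟨K, hM, hK⟩ := IidAux.exists_ker Ξ
  exact ⟨μ ⊗ₘ K, IidAux.TT T R, inferInstance, fun _ => rfl, IidAux.mp_TT μ T R Ξ K hK hT hΞ,
    IidAux.law μ Ξ K hK, fun E hE => IidAux.hit μ Ξ K hK hE⟩

end

end Pool.Agent.MP_154433_an.T3A
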