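import Mathlib

set_option autoImplicit false

namespace Pool.Agent.MP_154433_an.T3A.FinAux

theorem vand {R M : Type*} [CommRing R] [AddCommGroup M] [Module R M] {n : ℕ}
    (u : Fin n → R) (a : Fin n → M) (h : ∀ i, ∑ j : Fin n, (u i) ^ (j : ℕ) • a j = 0) (j : Fin n) :
    (Matrix.vandermonde u).det • a j = 0 := by
  classical
  have h1 : ∑ i, (Matrix.vandermonde u).adjugate j i • ∑ l : Fin n, (u i) ^ (l : ℕ) • a l = 0 := by
    simp [h]
  have h2 : ∑ i, (Matrix.vandermonde u).adjugate j i • ∑ l : Fin n, (u i) ^ (l : ℕ) • a l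
      = ∑ l, ((Matrix.vandermonde u).adjugate * Matrix.vandermonde u) j l • a l := by
    simp only [Finset.smul_sum, Matrix.mul_apply, Finset.sum_smul, Matrix.vandermonde_apply,
      mul_smul]
    exact Finset.sum_comm
  rw [h2, Matrix.adjugate_mul] at h1
  have h3 : ∑ l, (((Matrix.vandermonde u).det • (1 : Matrix (Fin n) (Fin n) R)) j l) • a l
      = (Matrix.vandermonde u).det • a j := by
    rw [Finset.sum_eq_single j]
    · simp
    · intro l _ hl
      simp [Matrix.one_apply_ne (Ne.symm hl)]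
    · simp
  rw [← h3, h1]

theorem prim {R M : Type*} [CommRing R] [IsNoetherianRing R] [AddCommGroup M] [Module R M]
    (z : M) (hz : z ≠ 0) :
    ∃ b : R, b • z ≠ 0 ∧ ∀ {n : ℕ} (u : Fin n → R), (Matrix.vandermonde u).det • z = 0 →
      ∃ i j, i ≠ j ∧ u i • b • z = u j • b • z := by
  classical
  have hnt : Nontrivial (Submodule.span R {z}) := by
    refine ⟨⟨⟨z, Submodule.mem_span_singleton_self z⟩, 0, ?_⟩⟩
    intro h
    exact hz (congrArg Subtype.val h)
  obtain ⟨P, hP⟩ := associatedPrimes.nonempty R (Submodule.span R {z})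
  rw [AssociatedPrimes.mem_iff, isAssociatedPrime_iff] at hP
  obtain ⟨hpr, y, hy⟩ := hP
  obtain ⟨b, hb⟩ := Submodule.mem_span_singleton.mp y.2
  have hmem : ∀ c : R, c ∈ P ↔ c • b • z = 0 := by
    intro c
    rw [hy, Submodule.mem_colon_singleton, Submodule.mem_bot, hb]
    constructor
    · intro h
      exact congrArg Subtype.val h
    · intro h
      exact Subtype.ext h
  refine ⟨b, ?_, ?_⟩
  · intro h
    apply hpr.ne_top
    rw [Ideal.eq_top_iff_one, hmem, h, smul_zero]
  · intro n u hu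
    have hd : (Matrix.vandermonde u).det ∈ P := by
      rw [hmem, smul_comm, hu, smul_zero]
    rw [Matrix.det_vandermonde] at hd
    obtain ⟨i, _, hi⟩ := (Ideal.IsPrime.prod_mem_iff (hp := hpr)).mp hd
    obtain ⟨j, hj, hij⟩ := (Ideal.IsPrime.prod_mem_iff (hp := hpr)).mp hi
    refine ⟨j, i, (Finset.mem_Ioi.mp hj).ne', ?_⟩
    rw [hmem, sub_smul, sub_eq_zero] at hij
    exact hij

theorem alg {Ga G : Type*} [AddCommGroup Ga] [CommGroup G] [DistribMulAction G Ga]
    (S : Set G) (hS : S.Finite) (z1 : Ga) (hz : z1 ≠ 0) :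
    ∃ z' : Ga, z' ≠ 0 ∧ (∀ g : G, g • z1 = z1 → g • z' = z') ∧
      ∀ {J : Type*} [Fintype J] (r : J → ℤ) (k1 : J) (z : J → Ga) (w : ℕ),
        (∀ k, k ≠ k1 → r k ≠ r k1) → r k1 ≠ 0 → (∀ k, |r k| ≤ w) → z k1 = z1 →
        ∀ (eta : Ga) (c : Fin (2 * w + 1) → G), (∀ i, c i ∈ Subgroup.closure S) →
          (∀ i, ∑ k, (c i) ^ (r k) • z k = eta) → ∃ i j, i ≠ j ∧ c i • z' = c j • z' := by
  classical
  set H := Subgroup.closure S with hH
  have : Group.FG H := by
    rw [Group.fg_iff_subgroup_fg, Subgroup.fg_iff]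
    exact ⟨S, rfl, hS⟩
  have : Monoid.FG H := Group.fg_iff_monoid_fg.mp inferInstance
  have : IsNoetherianRing (MonoidAlgebra ℤ H) :=
    Algebra.FiniteType.isNoetherianRing ℤ (MonoidAlgebra ℤ H)
  let rho : H →* Module.End ℤ Ga := (DistribMulAction.toModuleEnd ℤ Ga).comp H.subtype
  let phi : MonoidAlgebra ℤ H →ₐ[ℤ] Module.End ℤ Ga := MonoidAlgebra.lift ℤ (Module.End ℤ Ga) H rho
  let : Module (MonoidAlgebra ℤ H) Ga := Module.compHom Ga phi.toRingHom
  have hsm : ∀ (b : MonoidAlgebra ℤ H) (a : Ga), b • a = phi b a := fun _ _ => rfl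
  have hof : ∀ (h : H) (a : Ga), (MonoidAlgebra.of ℤ H h) • a = (h : G) • a := by
    intro h a
    rw [hsm]
    simp [phi, rho]
  have hcomm : ∀ (g : G) (b : MonoidAlgebra ℤ H) (a : Ga), g • b • a = b • g • a := by
    intro g b a
    induction b using MonoidAlgebra.induction_on with
    | of h => rw [hof, hof, smul_smul, smul_smul, mul_comm]
    | add f f' hf hf' => rw [add_smul, add_smul, smul_add, hf, hf']
    | smul n f hf =>
      rw [hsm, hsm, map_smul, LinearMap.smul_apply, LinearMap.smul_apply, ← hsm, ← hsm, ← hf]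
      exact (DistribSMul.toAddMonoidHom Ga g).map_zsmul n _
  obtain ⟨b, hb, hv⟩ := prim (R := MonoidAlgebra ℤ H) z1 hz
  refine ⟨b • z1, hb, ?_, ?_⟩
  · intro g hg
    rw [hcomm, hg]
  · intro J _ r k1 z w hinj hr0 hw hz1 eta c hc hsum
    let u : Fin (2 * w + 1) → MonoidAlgebra ℤ H := fun i => MonoidAlgebra.of ℤ H ⟨c i, hc i⟩
    have hlt : ∀ k, (r k + w).toNat < 2 * w + 1 := by
      intro k
      have := abs_le.mp (hw k)
      omega
    let ix : J → Fin (2 * w + 1) := fun k => ⟨(r k + w).toNat, hlt k⟩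
    let i0 : Fin (2 * w + 1) := ⟨w, by omega⟩
    let a : Fin (2 * w + 1) → Ga := fun j =>
      (∑ k, if ix k = j then z k else 0) - (if i0 = j then eta else 0)
    have hpow : ∀ i (n : ℕ) (v : Ga), (u i) ^ n • v = (c i) ^ n • v := by
      intro i n v
      simp only [u]
      rw [← map_pow, hof]
      simp
    have ha : ∀ i, ∑ j : Fin (2 * w + 1), (u i) ^ (j : ℕ) • a j = 0 := by
      intro i
      simp only [hpow, a, smul_sub, Finset.sum_sub_distrib, Finset.smul_sum, smul_ite, smul_zero]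
      rw [Finset.sum_comm]
      simp only [Finset.sum_ite_eq, Finset.mem_univ, if_true]
      rw [← hsum i, Finset.smul_sum, sub_eq_zero]
      refine Finset.sum_congr rfl fun k _ => ?_
      rw [smul_smul]
      have h1 := abs_le.mp (hw k)
      have h2 : (c i) ^ ((ix k : Fin (2 * w + 1)) : ℕ) = (c i) ^ (w : ℕ) * (c i) ^ (r k) := by
        rw [← zpow_natCast, ← zpow_natCast, ← zpow_add]
        have : (((ix k : Fin (2 * w + 1)) : ℕ) : ℤ) = w + r k := by
          simp only [ix]
          omega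
        rw [this]
      rw [h2]
    have hak : a (ix k1) = z1 := by
      simp only [a]
      have h1 : i0 ≠ ix k1 := by
        intro h
        have := congrArg Fin.val h
        simp only [i0, ix] at this
        have h1 := abs_le.mp (hw k1)
        omega
      rw [if_neg h1, sub_zero, Finset.sum_eq_single k1]
      · simp [hz1]
      · intro k _ hk
        rw [if_neg]
        intro h
        have := congrArg Fin.val h
        simp only [ix] at this
        have h1 := abs_le.mp (hw k1)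
        have h2 := abs_le.mp (hw k)
        apply hinj k hk
        omega
      · simp
    have hdet := vand u a ha (ix k1)
    rw [hak] at hdet
    obtain ⟨i, j, hij, he⟩ := hv u hdet
    refine ⟨i, j, hij, ?_⟩
    simp only [u] at he
    rw [hof, hof] at he
    exact he

theorem quasi_mul {Q : Type*} [CommGroup Q] (c : ℤ → Q) (F : Set Q) (hF : F.Finite)
    (h : ∀ n m, c (n + m) * (c n)⁻¹ * (c m)⁻¹ ∈ F) (r : ℤ) :
    ∃ A : Set Q, A.Finite ∧ ∀ d, ∃ f ∈ A, c (r * d) = c d ^ r * f := by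
  open Pointwise in
  induction r using Int.induction_on with
  | zero => exact ⟨{c 0}, Set.finite_singleton _, fun d => ⟨c 0, rfl, by simp⟩⟩
  | succ n ih =>
    obtain ⟨A, hA, hd⟩ := ih
    refine ⟨A * F, hA.mul hF, fun d => ?_⟩
    obtain ⟨f, hf, he⟩ := hd d
    refine ⟨_, Set.mul_mem_mul hf (h (n * d) d), ?_⟩
    have : ((n : ℤ) + 1) * d = n * d + d := by ring
    rw [this, he, zpow_add_one]
    apply Additive.ofMul.injective
    simp only [ofMul_mul, ofMul_inv]
    abel
  | pred n ih =>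
    obtain ⟨A, hA, hd⟩ := ih
    refine ⟨A * F⁻¹, hA.mul hF.inv, fun d => ?_⟩
    obtain ⟨f, hf, he⟩ := hd d
    refine ⟨_, Set.mul_mem_mul hf (Set.inv_mem_inv.mpr (h ((-n - 1) * d) d)), ?_⟩
    have : (-(n : ℤ) - 1) * d + d = -n * d := by ring
    rw [this, he, zpow_sub_one]
    apply Additive.ofMul.injective
    simp only [ofMul_mul, ofMul_inv]
    abel

theorem quasi_gen {Q : Type*} [CommGroup Q] (c : ℤ → Q) (F : Set Q)
    (h : ∀ n m, c (n + m) * (c n)⁻¹ * (c m)⁻¹ ∈ F) (n : ℤ) :
    c n ∈ Subgroup.closure (F ∪ {c 0, c 1}) := by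
  set H := Subgroup.closure (F ∪ {c 0, c 1})
  have hF : ∀ f ∈ F, f ∈ H := fun f hf => Subgroup.subset_closure (Or.inl hf)
  have h0 : c 0 ∈ H := Subgroup.subset_closure (Or.inr (by simp))
  have h1 : c 1 ∈ H := Subgroup.subset_closure (Or.inr (by simp))
  induction n using Int.induction_on with
  | zero => exact h0
  | succ n ih =>
    have := H.mul_mem (H.mul_mem (hF _ (h n 1)) h1) ih
    simpa using this
  | pred n ih =>
    have h2 := hF _ (h (-n - 1) 1)
    have h3 : -(n : ℤ) - 1 + 1 = -n := by ring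
    rw [h3] at h2
    have h4 := H.mul_mem (H.inv_mem ih) (H.mul_mem h2 h1)
    have h5 : (c (-n))⁻¹ * (c (-n) * (c (-n - 1))⁻¹ * (c 1)⁻¹ * c 1) = (c (-n - 1))⁻¹ := by
      group
    rw [h5] at h4
    exact (H.inv_mem_iff).mp h4

end Pool.Agent.MP_154433_an.T3A.FinAux
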