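import Pool.Agent.MP_154433_an.t3a.Spec
import Pool.Agent.MP_154433_an.t3.Spec

set_option autoImplicit false

open MeasureTheory ProbabilityTheory Filter Topology Set
open scoped ENNReal

namespace Pool.Agent.MP_154433_an.T3A

noncomputable section

open T3x (Wt Lab Sys Nl)

/-- the weights as a measure -/
def wm (ν : Wt) (M : ℕ) : Measure ℤ :=
  ∑ d ∈ ν.sp M, ENNReal.ofReal (ν.w M d) • Measure.dirac d

lemma lint_wm (ν : Wt) (M : ℕ) (f : ℤ → ℝ≥0∞) :
    ∫⁻ d, f d ∂(wm ν M) = ∑ d ∈ ν.sp M, ENNReal.ofReal (ν.w M d) * f d := by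
  unfold wm
  rw [lintegral_finsetSum_measure]
  refine Finset.sum_congr rfl fun d _ => ?_
  rw [lintegral_smul_measure, lintegral_dirac, smul_eq_mul]

lemma lint_wm' (ν : Wt) (M : ℕ) {φ : ℤ → ℝ} (h : ∀ d, 0 ≤ φ d) :
    ∫⁻ d, ENNReal.ofReal (φ d) ∂(wm ν M) = ENNReal.ofReal (ν.av M φ) := by
  rw [lint_wm, Wt.av, ENNReal.ofReal_sum_of_nonneg
    (fun d _ => by rw [smul_eq_mul]; exact mul_nonneg (ν.nn M d) (h d))]
  refine Finset.sum_congr rfl fun d _ => ?_
  rw [smul_eq_mul, ENNReal.ofReal_mul (ν.nn M d)]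

lemma av_nonneg (ν : Wt) (M : ℕ) {φ : ℤ → ℝ} (h : ∀ d, 0 ≤ φ d) : 0 ≤ ν.av M φ :=
  Finset.sum_nonneg fun d _ => by rw [smul_eq_mul]; exact mul_nonneg (ν.nn M d) (h d)

lemma av2_nonneg (ν : Wt) (M : ℕ) {φ : Lab → ℝ} (h : ∀ l, 0 ≤ φ l) : 0 ≤ ν.av2 M φ :=
  av_nonneg ν M fun _ => av_nonneg ν M fun _ => h _

instance (ν : Wt) (M : ℕ) : IsProbabilityMeasure (wm ν M) := by
  constructor
  have := lint_wm' ν M (φ := fun _ => 1) fun _ => zero_le_one
  simp only [ENNReal.ofReal_one, lintegral_const, one_mul, Wt.av, smul_eq_mul, mul_one,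
    ν.one M] at this
  exact this

/-- the label whose main coordinate comes first -/
def lab (e : Bool) (M : ℕ) (d : ℤ × ℤ) : Lab := if e then (M, d.1, d.2) else (M, d.2, d.1)

lemma key0 (ν : Wt) (e : Bool) (M : ℕ) {φ : Lab → ℝ} (h : ∀ l, 0 ≤ φ l) :
    ∫⁻ d, ENNReal.ofReal (φ (lab e M d)) ∂((wm ν M).prod (wm ν M)) =
      ENNReal.ofReal (ν.av2 M φ) := by
  cases e with
  | true =>
    rw [lintegral_prod _ (measurable_of_countable _).aemeasurable]
    have : ∀ d, ∫⁻ d', ENNReal.ofReal (φ (lab true M (d, d'))) ∂(wm ν M) =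
        ENNReal.ofReal (ν.av M fun d' => φ (M, d, d')) := fun d => lint_wm' ν M fun _ => h _
    simp only [this]
    exact lint_wm' ν M fun _ => av_nonneg ν M fun _ => h _
  | false =>
    rw [lintegral_prod_symm _ (measurable_of_countable _).aemeasurable]
    have : ∀ d, ∫⁻ d', ENNReal.ofReal (φ (lab false M (d', d))) ∂(wm ν M) =
        ENNReal.ofReal (ν.av M fun d' => φ (M, d, d')) := fun d => lint_wm' ν M fun _ => h _
    simp only [this]
    exact lint_wm' ν M fun _ => av_nonneg ν M fun _ => h _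

lemma key (ν : Wt) (e : Bool) (M : ℕ) (X : Sys) {A : Lab → Set X.X}
    (hA : ∀ l, MeasurableSet (A l)) :
    PM (wm ν M) X.μ {z | z.2 ∈ A (lab e M z.1)} =
      ENNReal.ofReal (ν.av2 M fun l => X.μ.real (A l)) := by
  have hm : MeasurableSet {z : (ℤ × ℤ) × X.X | z.2 ∈ A (lab e M z.1)} :=
    measurableSet_lab fun d => hA (lab e M d)
  rw [PM_apply _ _ hm, ← key0 ν e M fun _ => measureReal_nonneg]
  refine lintegral_congr fun d => ?_
  rw [ofReal_measureReal]
  rfl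

lemma ae_lab {Ω : Type} [MeasurableSpace Ω] (ν : Measure ℤ) [IsProbabilityMeasure ν]
    (μ : Measure Ω) [IsProbabilityMeasure μ] {Q : ℤ × ℤ → Ω → Prop} (h : ∀ d, ∀ᵐ y ∂μ, Q d y) :
    ∀ᵐ z ∂(PM ν μ), Q z.1 z.2 := by
  have h1 : ∀ᵐ y ∂μ, ∀ d, Q d y := ae_all_iff.2 h
  have h2 : ∀ᵐ z ∂(PM ν μ), ∀ d, Q d z.2 :=
    (Measure.quasiMeasurePreserving_snd (μ := ν.prod ν) (ν := μ)).ae h1
  filter_upwards [h2] with z hz using hz z.1

lemma key_le (ν : Wt) (e : Bool) (M : ℕ) (X : Sys) {A : Lab → Set X.X}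
    (hA : ∀ l, MeasurableSet (A l)) {E : Set ((ℤ × ℤ) × X.X)}
    (h : ∀ d, ∀ᵐ y ∂X.μ, (d, y) ∈ E → y ∈ A (lab e M d)) :
    PM (wm ν M) X.μ E ≤ ENNReal.ofReal (ν.av2 M fun l => X.μ.real (A l)) := by
  rw [← key ν e M X hA]
  exact measure_mono_ae (ae_lab (wm ν M) X.μ (Q := fun d y => (d, y) ∈ E → y ∈ A (lab e M d)) h)

lemma key_ge (ν : Wt) (e : Bool) (M : ℕ) (X : Sys) {A : Lab → Set X.X}
    (hA : ∀ l, MeasurableSet (A l)) {E : Set ((ℤ × ℤ) × X.X)}
    (h : ∀ d, ∀ᵐ y ∂X.μ, y ∈ A (lab e M d) → (d, y) ∈ E) :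
    ENNReal.ofReal (ν.av2 M fun l => X.μ.real (A l)) ≤ PM (wm ν M) X.μ E := by
  rw [← key ν e M X hA]
  exact measure_mono_ae (ae_lab (wm ν M) X.μ (Q := fun d y => y ∈ A (lab e M d) → (d, y) ∈ E) h)

lemma nul_of (ν : Wt) (U : Ultrafilter ℕ) (e : Bool) (X : Sys) {A : Lab → Set X.X}
    (hA : ∀ l, MeasurableSet (A l)) (hN : Nl ν U X A) {E : ℕ → Set ((ℤ × ℤ) × X.X)}
    (h : ∀ M d, ∀ᵐ y ∂X.μ, (d, y) ∈ E M → y ∈ A (lab e M d)) :
    Tendsto (fun M => PM (wm ν M) X.μ (E M)) U (𝓝 0) := by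
  have h1 := ENNReal.tendsto_ofReal hN
  rw [ENNReal.ofReal_zero] at h1
  exact tendsto_of_tendsto_of_tendsto_of_le_of_le tendsto_const_nhds h1 (fun _ => zero_le)
    fun M => key_le ν e M X hA (h M)

lemma sz_eq {V : Type} [AddCommGroup V] (sg : AddAut V) (n : ℤ) (c : V) :
    sz (AddEquiv.toIntLinearEquiv sg) n c = (n • sg) c := by
  induction n using Int.induction_on generalizing c with
  | zero => simp
  | succ n ih => rw [sz_add, ih, sz_one, add_zsmul, one_zsmul, AddAut.add_apply]; rfl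
  | pred n ih =>
    have h1 : sz (AddEquiv.toIntLinearEquiv sg) (-1) c = (-sg) c := by
      apply sg.injective
      have := sz_sz_neg (AddEquiv.toIntLinearEquiv sg) 1 c
      rw [sz_one] at this
      rw [AddAut.apply_neg_self]
      exact this
    rw [sub_eq_add_neg, sz_add, ih, h1, add_zsmul, neg_one_zsmul, AddAut.add_apply]

theorem mix_of (ba : T3x.BasA) (ν : Wt) (U : Ultrafilter ℕ) (hU : (U : Filter ℕ) ≤ atTop)
    (hm : T3x.Mix ν) : Mix (wm ν) U := by
  intro Y _ μ _ T hT r hr A A' hA hA' g hg hgT hgi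
  let X : Sys := { X := Y, μ := μ, T := T, mp := hT }
  obtain ⟨a, ha, hb⟩ := hm.dom X r A A' hr hA hA'
  have hI : MeasurableSpace.invariants T ≤ ‹MeasurableSpace Y› := MeasurableSpace.invariants_le T
  have hle : T3x.Inv X ≤ ‹MeasurableSpace Y› := sup_le hI (ba.nul_le μ)
  have hg1 : ∫⁻ y, g y ∂μ ≠ ⊤ := by
    have := hgi univ MeasurableSet.univ rfl
    rw [Measure.restrict_univ] at this
    rw [this]
    exact measure_ne_top _ _
  have hint : Integrable (fun y => (g y).toReal) μ :=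
    integrable_toReal_of_lintegral_ne_top hg.aemeasurable hg1
  have hfin : ∀ᵐ y ∂μ, g y < ⊤ := ae_lt_top hg hg1
  have hset : ∀ B, ∫ y in B, (g y).toReal ∂μ = (∫⁻ y in B, g y ∂μ).toReal := fun B =>
    integral_toReal hg.aemeasurable (ae_restrict_of_ae hfin)
  have hi' : Integrable (A'.indicator fun _ => (1 : ℝ)) μ := (integrable_const 1).indicator hA'
  have hi : Integrable (A.indicator fun _ => (1 : ℝ)) μ := (integrable_const 1).indicator hA
  have hgm : StronglyMeasurable[T3x.Inv X] fun y => (g y).toReal := by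
    have h1 : Measurable[MeasurableSpace.invariants T] g :=
      MeasurableSpace.measurable_invariants_dom.2 ⟨hg, fun s _ => by
        ext y; simp only [mem_preimage, Function.comp_apply, hgT]⟩
    have h2 : MeasurableSpace.invariants T ≤ T3x.Inv X := le_sup_left
    exact (h1.ennreal_toReal.mono h2 le_rfl).stronglyMeasurable
  have hce : (fun y => (g y).toReal) =ᵐ[μ] μ[A'.indicator fun _ => (1 : ℝ) | T3x.Inv X] := by
    refine ae_eq_condExp_of_forall_setIntegral_eq hle hi' (fun s _ _ => hint.integrableOn)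
      (fun s hs _ => ?_) hgm.aestronglyMeasurable
    obtain ⟨-, t, ht, hst⟩ := (ba.mem (MeasurableSpace.invariants T) μ hI s).1 hs
    rw [setIntegral_congr_set hst, setIntegral_congr_set hst, hset, hgi t ht.1 ht.2,
      setIntegral_indicator hA', setIntegral_const, smul_eq_mul, mul_one, inter_comm]
    rfl
  have hval : ∫ x, (μ[A.indicator fun _ => (1 : ℝ) | T3x.Inv X]) x *
      (μ[A'.indicator fun _ => (1 : ℝ) | T3x.Inv X]) x ∂μ = (∫⁻ y in A, g y ∂μ).toReal := by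
    have e1 : (fun x => (μ[A.indicator fun _ => (1 : ℝ) | T3x.Inv X]) x *
        (μ[A'.indicator fun _ => (1 : ℝ) | T3x.Inv X]) x) =ᵐ[μ]
        (μ[A.indicator fun _ => (1 : ℝ) | T3x.Inv X]) * fun y => (g y).toReal := by
      filter_upwards [hce] with x hx
      rw [← hx]; rfl
    have e2 : (A.indicator fun _ => (1 : ℝ)) * (fun y => (g y).toReal) =
        A.indicator fun y => (g y).toReal := by
      funext y
      by_cases hy : y ∈ A <;> simp [hy]
    have e3 := condExp_mul_of_stronglyMeasurable_right (μ := μ) hgm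
      (f := A.indicator fun _ => (1 : ℝ)) (by rw [e2]; exact hint.indicator hA) hi
    rw [integral_congr_ae e1, ← integral_congr_ae e3, integral_condExp hle, e2,
      integral_indicator hA, hset]
  have hlim : Tendsto (fun M => ∫⁻ d, μ (A ∩ tz T (r * d) ⁻¹' A') ∂wm ν M) U
      (𝓝 (ENNReal.ofReal a)) := by
    refine (ENNReal.tendsto_ofReal (ha.mono_left hU)).congr fun M => ?_
    rw [← lint_wm' ν M fun _ => measureReal_nonneg]
    refine lintegral_congr fun d => ?_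
    rw [ofReal_measureReal]
    rfl
  rw [hlim.limsup_eq]
  refine (ENNReal.ofReal_le_ofReal hb).trans ?_
  change ENNReal.ofReal (|(r : ℝ)| * ∫ x, (μ[A.indicator fun _ => (1 : ℝ) | T3x.Inv X]) x *
      (μ[A'.indicator fun _ => (1 : ℝ) | T3x.Inv X]) x ∂μ) ≤ _
  rw [hval, ENNReal.ofReal_mul (abs_nonneg _)]
  gcongr
  · rw [← Int.cast_abs, ← Int.natCast_natAbs, Int.cast_natCast, ENNReal.ofReal_natCast]
  · exact ENNReal.ofReal_toReal_le

end

end Pool.Agent.MP_154433_an.T3A
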