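import Mathlib

set_option autoImplicit false

open MeasureTheory Filter Topology
open scoped ENNReal

namespace Pool.Agent.MP_154433_an.T3A.FinAux

variable {Om : Type*} [MeasurableSpace Om]

theorem nm_pre {Ga : Type*} [Countable Ga] {ka : Measure Om} {f : Om → Ga}
    (hf : ∀ a, NullMeasurableSet {y | f y = a} ka) (s : Set Ga) :
    NullMeasurableSet (f ⁻¹' s) ka := by
  have : f ⁻¹' s = ⋃ a ∈ s, {y | f y = a} := by
    ext y
    simp
  rw [this]
  exact NullMeasurableSet.biUnion (Set.to_countable s) fun a _ => hf a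

theorem nm_tight {Ga : Type*} [Countable Ga] {ka : Measure Om} [IsFiniteMeasure ka]
    {f : Om → Ga} (hf : ∀ a, NullMeasurableSet {y | f y = a} ka) {eps : ℝ≥0∞} (he : 0 < eps) :
    ∃ E : Set Ga, E.Finite ∧ ka {y | f y ∉ E} ≤ eps := by
  obtain ⟨j, hj⟩ := exists_injective_nat Ga
  let A : ℕ → Set Om := fun n => f ⁻¹' {a | n ≤ j a}
  have hA : Antitone A := fun n m h y hy => le_trans h hy
  have h0 : ⋂ n, A n = ∅ := by
    ext y
    simp only [Set.mem_iInter, Set.mem_empty_iff_false, iff_false, not_forall]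
    exact ⟨j (f y) + 1, by simp [A]⟩
  have ht := tendsto_measure_iInter_atTop (μ := ka) (fun n => nm_pre hf {a | n ≤ j a}) hA
    ⟨0, measure_ne_top _ _⟩
  rw [h0, measure_empty] at ht
  obtain ⟨n, hn⟩ := (ht.eventually (gt_mem_nhds he)).exists
  refine ⟨{a | j a < n}, (Set.finite_lt_nat n).preimage hj.injOn, ?_⟩
  have : {y | f y ∉ {a | j a < n}} = A n := by
    ext y
    simp [A]
  rw [this]
  exact le_of_lt hn

theorem sect {ka : Measure Om} [IsProbabilityMeasure ka] (B : Set (Om × Om)) :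
    ∃ y', ka {y | (y, y') ∈ B} ≤ (ka.prod ka) B := by
  have hm := measurableSet_toMeasurable (ka.prod ka) B
  obtain ⟨y, hy⟩ := exists_le_lintegral (μ := ka)
    (measurable_measure_prodMk_right (μ := ka) hm).aemeasurable
  rw [← Measure.prod_apply_symm hm, measure_toMeasurable] at hy
  refine ⟨y, le_trans (measure_mono ?_) hy⟩
  intro y' h
  exact subset_toMeasurable _ _ h

theorem drift {ka : Measure Om} [IsProbabilityMeasure ka] {Q : Type*} [CommGroup Q]
    (T : ℤ → Om → Om) (hT : ∀ n, MeasurePreserving (T n) ka ka) (q : ℤ → Om → Q)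
    (hco : ∀ n m, ∀ᵐ y ∂ka, q (n + m) y = q n y * q m (T n y)) (F : Set Q) (hF : F.Finite)
    {eps : ℝ≥0∞} (he : eps + eps + eps < 1)
    (ht : ∀ n, (ka.prod ka) {p | (q n p.2)⁻¹ * q n p.1 ∉ F} ≤ eps) :
    ∃ (c : ℤ → Q) (F' : Set Q), F'.Finite ∧ (∀ n, ka {y | (c n)⁻¹ * q n y ∉ F} ≤ eps) ∧
      ∀ n m, c (n + m) * (c n)⁻¹ * (c m)⁻¹ ∈ F' := by
  have h1 : ∀ n, ∃ c : Q, ka {y | c⁻¹ * q n y ∉ F} ≤ eps := by
    intro n
    obtain ⟨y, hy⟩ := sect (ka := ka) {p | (q n p.2)⁻¹ * q n p.1 ∉ F}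
    exact ⟨q n y, le_trans hy (ht n)⟩
  choose c hc using h1
  open Pointwise in
  refine ⟨c, F * F * F⁻¹, (hF.mul hF).mul hF.inv, hc, ?_⟩
  intro n m
  by_contra hcon
  let B : ℤ → Set Om := fun n => {y | (c n)⁻¹ * q n y ∉ F}
  let Z : Set Om := {y | ¬ q (n + m) y = q n y * q m (T n y)}
  have hZ : ka Z = 0 := ae_iff.mp (hco n m)
  have hcov : (Set.univ : Set Om) ⊆ B (n + m) ∪ B n ∪ T n ⁻¹' B m ∪ Z := by
    intro y _
    by_contra hy
    simp only [Set.mem_union, not_or, B, Z, Set.mem_ofPred_eq, not_not, Set.mem_preimage] at hy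
    obtain ⟨⟨⟨a1, a2⟩, a3⟩, a4⟩ := hy
    apply hcon
    have := Set.mul_mem_mul (Set.mul_mem_mul a2 a3) (Set.inv_mem_inv.mpr a1)
    have he : c (n + m) * (c n)⁻¹ * (c m)⁻¹
        = (c n)⁻¹ * q n y * ((c m)⁻¹ * q m (T n y)) * ((c (n + m))⁻¹ * q (n + m) y)⁻¹ := by
      rw [a4]
      apply Additive.ofMul.injective
      simp only [ofMul_mul, ofMul_inv]
      abel
    rw [he]
    exact this
  have h2 : (1 : ℝ≥0∞) ≤ eps + eps + eps + 0 := by
    calc (1 : ℝ≥0∞) = ka Set.univ := measure_univ.symm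
      _ ≤ ka (B (n + m) ∪ B n ∪ T n ⁻¹' B m ∪ Z) := measure_mono hcov
      _ ≤ ka (B (n + m) ∪ B n ∪ T n ⁻¹' B m) + ka Z := measure_union_le _ _
      _ ≤ (ka (B (n + m) ∪ B n) + ka (T n ⁻¹' B m)) + ka Z := by
          gcongr
          exact measure_union_le _ _
      _ ≤ (ka (B (n + m)) + ka (B n) + ka (B m)) + ka Z :=
          add_le_add (add_le_add (measure_union_le _ _) ((hT n).measure_preimage_le _)) le_rfl
      _ ≤ _ := add_le_add (add_le_add (add_le_add (hc _) (hc _)) (hc _)) hZ.le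
  rw [add_zero] at h2
  exact absurd he (not_lt.mpr h2)

theorem pm_le {L : Type*} [MeasurableSpace L] [Countable L] [MeasurableSingletonClass L]
    (rho : Measure L) [IsProbabilityMeasure rho] (ka : Measure Om) [SFinite ka]
    (S : Set (L × Om)) (t : ℝ≥0∞) (h : ∀ l, ka {y | (l, y) ∈ S} ≤ t) : (rho.prod ka) S ≤ t := by
  have h1 : S ⊆ ⋃ l, {l} ×ˢ {y | (l, y) ∈ S} := by
    rintro ⟨l, y⟩ hz
    exact Set.mem_iUnion.mpr ⟨l, rfl, hz⟩
  calc _ ≤ ∑' l, (rho.prod ka) ({l} ×ˢ {y | (l, y) ∈ S}) :=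
        (measure_mono h1).trans (measure_iUnion_le _)
    _ ≤ ∑' l, t * rho {l} := by
        refine ENNReal.tsum_le_tsum fun l => ?_
        rw [Measure.prod_prod, mul_comm]
        exact mul_le_mul_left (h l) _
    _ = t := by
        rw [← lintegral_countable' (fun _ => t)]
        simp

theorem le_pm {L : Type*} [MeasurableSpace L] [Countable L] [MeasurableSingletonClass L]
    (rho : Measure L) (ka : Measure Om) [SFinite ka]
    (S : Set (L × Om)) (A : Set L) (t : ℝ≥0∞) (h : ∀ l ∈ A, t ≤ ka {y | (l, y) ∈ S}) :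
    t * rho A ≤ (rho.prod ka) S := by
  have hm := measurableSet_toMeasurable (rho.prod ka) S
  rw [← measure_toMeasurable S, Measure.prod_apply hm,
    ← lintegral_indicator_const (Set.to_countable A).measurableSet]
  refine lintegral_mono fun l => ?_
  by_cases hl : l ∈ A
  · rw [Set.indicator_of_mem hl]
    exact (h l hl).trans (measure_mono fun y hy => subset_toMeasurable _ _ hy)
  · rw [Set.indicator_of_notMem hl]
    exact zero_le

theorem pm_swap {Ga : Type*} [Countable Ga] (nu : Measure ℤ) [IsProbabilityMeasure nu]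
    (ka : Measure Om) [IsProbabilityMeasure ka] (eta : ℤ → Om → Ga)
    (heta : ∀ d a, NullMeasurableSet {y | eta d y = a} ka) (A : Ga → Set ℤ) (t : ℝ≥0∞)
    (h : ∀ b, nu (A b) ≤ t) :
    ((nu.prod nu).prod ka) {z | z.1.1 ∈ A (eta z.1.2 z.2)} ≤ t := by
  have h1 : {z : (ℤ × ℤ) × Om | z.1.1 ∈ A (eta z.1.2 z.2)}
      ⊆ ⋃ d, ⋃ b, (A b ×ˢ {d}) ×ˢ {y | eta d y = b} := by
    rintro ⟨⟨d1, d2⟩, y⟩ hz
    exact Set.mem_iUnion₂.mpr ⟨d2, eta d2 y, ⟨hz, rfl⟩, rfl⟩
  have h2 : ∀ d, ∑' b, ka {y | eta d y = b} = 1 := by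
    intro d
    rw [← measure_iUnion₀ _ (heta d)]
    · have : ⋃ b, {y | eta d y = b} = Set.univ := by
        ext y
        simp
      rw [this, measure_univ]
    · intro a b hab
      refine Disjoint.aedisjoint (Set.disjoint_left.mpr fun y h1 h2 => hab ?_)
      exact h1.symm.trans h2
  calc _ ≤ ∑' d, ∑' b, ((nu.prod nu).prod ka) ((A b ×ˢ {d}) ×ˢ {y | eta d y = b}) :=
        (measure_mono h1).trans ((measure_iUnion_le _).trans
          (ENNReal.tsum_le_tsum fun d => measure_iUnion_le _))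
    _ ≤ ∑' d, ∑' b, t * nu {d} * ka {y | eta d y = b} := by
        refine ENNReal.tsum_le_tsum fun d => ENNReal.tsum_le_tsum fun b => ?_
        rw [Measure.prod_prod, Measure.prod_prod]
        gcongr
        exact h b
    _ = ∑' d, t * nu {d} := by
        refine tsum_congr fun d => ?_
        rw [ENNReal.tsum_mul_left, h2, mul_one]
    _ = t := by
        rw [← lintegral_countable' (fun _ => t)]
        simp

theorem few {I V : Type*} [MeasurableSpace I] (nu : Measure I) [SFinite nu] (v : I → V)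
    (P : Set I) (N : ℕ) (s : ℝ≥0∞)
    (hN : ∀ c : Fin (N + 1) → I, (∀ i, c i ∈ P) → ∃ i j, i ≠ j ∧ v (c i) = v (c j))
    (hp : (nu.prod nu) {l | v l.1 = v l.2} < s * s) : nu P ≤ N * s := by
  classical
  have hcard : (v '' P).encard ≤ N := by
    by_contra hc
    have h1 : ((N + 1 : ℕ) : ℕ∞) ≤ (v '' P).encard := by
      push_cast
      exact Order.add_one_le_of_lt (not_le.mp hc)
    obtain ⟨t, ht, htc⟩ := Set.exists_subset_encard_eq h1
    have hfin : t.Finite := Set.finite_of_encard_eq_coe htc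
    have hc2 : hfin.toFinset.card = N + 1 := by
      have := hfin.encard_eq_coe_toFinset_card
      rw [htc] at this
      exact_mod_cast this.symm
    have hex : ∀ i : Fin (N + 1), ∃ d, d ∈ P ∧
        v d = (hfin.toFinset.equivFinOfCardEq hc2).symm i := fun i =>
      ht (hfin.mem_toFinset.mp ((hfin.toFinset.equivFinOfCardEq hc2).symm i).2)
    choose c hc1 hc3 using hex
    obtain ⟨i, j, hij, he⟩ := hN c hc1
    rw [hc3, hc3] at he
    exact hij ((hfin.toFinset.equivFinOfCardEq hc2).symm.injective (Subtype.ext he))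
  have hfin : (v '' P).Finite := Set.finite_of_encard_le_coe hcard
  have hc2 : hfin.toFinset.card ≤ N := by
    rw [hfin.encard_eq_coe_toFinset_card] at hcard
    exact_mod_cast hcard
  have h2 : ∀ a, nu {d | v d = a} ≤ s := by
    intro a
    by_contra hlt
    have h3 := (not_le.mp hlt).le
    refine absurd hp (not_lt.mpr ((mul_le_mul' h3 h3).trans ?_))
    rw [← Measure.prod_prod]
    exact measure_mono fun l hl => hl.1.trans hl.2.symm
  have h3 : P ⊆ ⋃ a ∈ hfin.toFinset, {d | v d = a} := fun d hd =>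
    Set.mem_biUnion (hfin.mem_toFinset.mpr ⟨d, hd, rfl⟩) rfl
  calc nu P ≤ ∑ a ∈ hfin.toFinset, nu {d | v d = a} :=
        (measure_mono h3).trans (measure_biUnion_finset_le _ _)
    _ ≤ ∑ _a ∈ hfin.toFinset, s := Finset.sum_le_sum fun a _ => h2 a
    _ = hfin.toFinset.card * s := by simp
    _ ≤ N * s := by gcongr

theorem tight_set {Ga G : Type*} {ka : Measure Om} (act : G → Ga → Ga) (g : ℤ → Om → G)
    (h : ∀ (a : Ga) (eps : ℝ≥0∞), 0 < eps → ∃ F : Finset Ga, ∀ n, ka {p | act (g n p) a ∉ F} ≤ eps)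
    (E : Set Ga) (hE : E.Finite) : ∀ eps : ℝ≥0∞, 0 < eps →
      ∃ A : Set Ga, A.Finite ∧ ∀ n, ka {p | ¬ ∀ a ∈ E, act (g n p) a ∈ A} ≤ eps := by
  induction E, hE using Set.Finite.induction_on with
  | empty => exact fun eps _ => ⟨∅, Set.finite_empty, fun n => by simp⟩
  | @insert a s _ _ ih =>
    intro eps he
    obtain ⟨A, hA, h1⟩ := ih (eps / 2) (ENNReal.half_pos he.ne')
    obtain ⟨F, h2⟩ := h a (eps / 2) (ENNReal.half_pos he.ne')
    refine ⟨A ∪ F, hA.union F.finite_toSet, fun n => ?_⟩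
    rw [← ENNReal.add_halves eps]
    refine le_trans (measure_mono ?_) ((measure_union_le _ _).trans (add_le_add (h1 n) (h2 n)))
    intro p hp
    by_contra hc
    simp only [Set.mem_union, Set.mem_ofPred_eq, not_or, not_not] at hc
    apply hp
    intro b hb
    rcases hb with rfl | hb
    · exact Or.inr hc.2
    · exact Or.inl (hc.1 b hb)

end Pool.Agent.MP_154433_an.T3A.FinAux
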