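import Pool.Agent.MP_154433_an.t3a.Spec

set_option autoImplicit false

open MeasureTheory ProbabilityTheory Filter Topology Set
open scoped ENNReal

namespace Pool.Agent.MP_154433_an.T3A

namespace LimAux

section

variable {K : Type} [TopologicalSpace K] [MeasurableSpace K]

/-- sets squeezed between a closed and an open set, uniformly along the sequence -/
def Good (n : ℕ → Measure K) (S : Set K) : Prop :=
  ∀ ε : ℝ≥0∞, ε ≠ 0 → ∃ F G : Set K, IsClosed F ∧ IsOpen G ∧ F ⊆ S ∧ S ⊆ G ∧
    ∀ M, n M (G \ F) ≤ ε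

variable {n : ℕ → Measure K} {S S' : Set K}

lemma Good.compl (h : Good n S) : Good n Sᶜ := by
  intro ε hε
  obtain ⟨F, G, hF, hG, h1, h2, h3⟩ := h ε hε
  refine ⟨Gᶜ, Fᶜ, hG.isClosed_compl, hF.isOpen_compl, compl_subset_compl.2 h2,
    compl_subset_compl.2 h1, fun M => (measure_mono ?_).trans (h3 M)⟩
  intro x hx
  exact ⟨not_not.1 hx.2, hx.1⟩

lemma Good.inter (h : Good n S) (h' : Good n S') : Good n (S ∩ S') := by
  intro ε hε
  have h2 : ε / 2 ≠ 0 := (ENNReal.half_pos hε).ne'
  obtain ⟨F, G, hF, hG, a1, a2, a3⟩ := h _ h2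
  obtain ⟨F', G', hF', hG', b1, b2, b3⟩ := h' _ h2
  refine ⟨F ∩ F', G ∩ G', hF.inter hF', hG.inter hG', inter_subset_inter a1 b1,
    inter_subset_inter a2 b2, fun M => ?_⟩
  calc n M ((G ∩ G') \ (F ∩ F')) ≤ n M ((G \ F) ∪ (G' \ F')) := by
        refine measure_mono fun x hx => ?_
        by_cases h1 : x ∈ F
        · exact Or.inr ⟨hx.1.2, fun h3 => hx.2 ⟨h1, h3⟩⟩
        · exact Or.inl ⟨hx.1.1, h1⟩
    _ ≤ n M (G \ F) + n M (G' \ F') := measure_union_le _ _
    _ ≤ ε / 2 + ε / 2 := add_le_add (a3 M) (b3 M)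
    _ = ε := ENNReal.add_halves ε

lemma good_clopen (h : IsClopen S) : Good n S := fun ε _ =>
  ⟨S, S, h.1, h.2, subset_rfl, subset_rfl, fun M => by simp⟩

lemma good_marg {I : Type} [TopologicalSpace I] [MeasurableSpace I] [OpensMeasurableSpace I]
    (ν : Measure I) [IsFiniteMeasure ν] [ν.WeaklyRegular] {π : K → I} (hc : Continuous π)
    (hm : Measurable π) (hn : ∀ M, (n M).map π = ν) {A : Set I} (hA : MeasurableSet A) :
    Good n (π ⁻¹' A) := by
  intro ε hε
  have h2 : ε / 2 ≠ 0 := (ENNReal.half_pos hε).ne'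
  obtain ⟨G, a1, a2, -, a3⟩ := hA.exists_isOpen_sdiff_lt (measure_ne_top ν A) h2
  obtain ⟨F, b1, b2, b3⟩ := hA.exists_isClosed_sdiff_lt (measure_ne_top ν A) h2
  refine ⟨π ⁻¹' F, π ⁻¹' G, b2.preimage hc, a2.preimage hc, preimage_mono b1, preimage_mono a1,
    fun M => ?_⟩
  calc n M (π ⁻¹' G \ π ⁻¹' F) = ν (G \ F) := by
        rw [← hn M, Measure.map_apply hm (a2.measurableSet.diff b2.measurableSet)]
        rfl
    _ ≤ ν ((G \ A) ∪ (A \ F)) := by
        refine measure_mono fun x hx => ?_
        by_cases h1 : x ∈ A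
        · exact Or.inr ⟨h1, hx.2⟩
        · exact Or.inl ⟨hx.1, h1⟩
    _ ≤ ν (G \ A) + ν (A \ F) := measure_union_le _ _
    _ ≤ ε / 2 + ε / 2 := add_le_add a3.le b3.le
    _ = ε := ENNReal.add_halves ε

lemma Good.tendsto [OpensMeasurableSpace K] [HasOuterApproxClosed K]
    {p : ℕ → ProbabilityMeasure K} {w : ProbabilityMeasure K} {L : Filter ℕ}
    (hw : Tendsto p L (𝓝 w)) (h : Good (fun M => (p M : Measure K)) S) :
    Tendsto (fun M => (p M : Measure K) S) L (𝓝 ((w : Measure K) S)) := by
  have key : ∀ (M : ℕ) (F G : Set K), (p M : Measure K) G ≤ (p M : Measure K) F +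
      (p M : Measure K) (G \ F) := fun M F G =>
    (measure_mono fun x hx => by
      by_cases h1 : x ∈ F
      · exact Or.inl h1
      · exact Or.inr ⟨hx, h1⟩).trans (measure_union_le _ _)
  refine tendsto_order.2 ⟨fun a ha => ?_, fun a ha => ?_⟩
  · obtain ⟨r, hr, h1⟩ := ENNReal.lt_iff_exists_add_pos_lt.1 ha
    obtain ⟨F, G, -, hG, a1, a2, a3⟩ := h r (by exact_mod_cast hr.ne')
    have h2 := (h1.trans_le (measure_mono a2)).trans_le
      (ProbabilityMeasure.le_liminf_measure_open_of_tendsto hw hG)
    filter_upwards [eventually_lt_of_lt_liminf h2] with M hM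
    exact lt_of_add_lt_add_right
      (hM.trans_le ((key M F G).trans (add_le_add (measure_mono a1) (a3 M))))
  · obtain ⟨r, hr, h1⟩ := ENNReal.lt_iff_exists_add_pos_lt.1 ha
    obtain ⟨F, G, hF, -, a1, a2, a3⟩ := h r (by exact_mod_cast hr.ne')
    have h2 := ((ProbabilityMeasure.limsup_measure_closed_le_of_tendsto hw hF).trans
      (measure_mono a1)).trans_lt (lt_tsub_iff_right.2 h1)
    filter_upwards [eventually_lt_of_limsup_lt h2] with M hM
    exact (((measure_mono a2).trans (key M F G)).trans
      (add_le_add le_rfl (a3 M))).trans_lt (lt_tsub_iff_right.1 hM)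

end

end LimAux

open LimAux in
theorem xLim : LimS := by
  classical
  intro Ω ι _ _ _ μ m U hm h1 h2
  have hne : Nonempty Ω := by
    have := hm 0
    obtain ⟨z⟩ := (m 0).nonempty_of_neZero
    exact ⟨z.1.1⟩
  have hμ : IsProbabilityMeasure μ := by
    have := hm 0
    rw [← h1 0]
    exact Measure.isProbabilityMeasure_map measurable_fst.fst.aemeasurable
  have he := measurableEmbedding_embeddingReal Ω
  let e1 : Ω → EReal := fun x => (embeddingReal Ω x : EReal)
  let r1 : EReal → Ω := fun t => he.invFun t.toReal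
  have me1 : Measurable e1 := measurable_coe_real_ereal.comp he.measurable
  have mr1 : Measurable r1 := he.measurable_invFun.comp measurable_ereal_toReal
  have hre1 : ∀ x, r1 (e1 x) = x := fun x => by
    simp only [r1, e1, EReal.toReal_coe]
    exact he.leftInverse_invFun x
  let e : (Ω × Ω) × Set ι → (EReal × EReal) × (ι → Bool) :=
    fun z => ((e1 z.1.1, e1 z.1.2), fun p => decide (p ∈ z.2))
  let r : (EReal × EReal) × (ι → Bool) → (Ω × Ω) × Set ι :=
    fun k => ((r1 k.1.1, r1 k.1.2), {p | k.2 p = true})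
  have me : Measurable e := by
    refine ((me1.comp measurable_fst.fst).prodMk (me1.comp measurable_fst.snd)).prodMk ?_
    refine measurable_pi_lambda _ fun p => ?_
    exact (measurable_of_countable (fun b : Prop => decide b)).comp
      ((measurable_set_mem p).comp measurable_snd)
  have mr : Measurable r := by
    refine ((mr1.comp measurable_fst.fst).prodMk (mr1.comp measurable_fst.snd)).prodMk ?_
    refine measurable_set_iff.2 fun p => ?_
    exact (measurable_of_countable (fun b : Bool => b = true)).comp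
      ((measurable_pi_apply p).comp measurable_snd)
  have hre : ∀ z, r (e z) = z := fun z => by
    simp only [r, e, hre1, decide_eq_true_eq]
    rfl
  let p : ℕ → ProbabilityMeasure ((EReal × EReal) × (ι → Bool)) := fun M =>
    ⟨(m M).map e, Measure.isProbabilityMeasure_map me.aemeasurable⟩
  obtain ⟨w0, -, hw⟩ := isCompact_univ.ultrafilter_le_nhds (U.map p) (by simp)
  have hw' : Tendsto p U (𝓝 w0) := hw
  have : IsProbabilityMeasure (μ.map e1) := Measure.isProbabilityMeasure_map me1.aemeasurable
  have hg : ∀ E, Cyl E → Good (fun M => (p M : Measure _)) (r ⁻¹' E) := by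
    intro E hE
    induction hE with
    | fst A hA =>
      refine good_marg (μ.map e1) (π := fun k : (EReal × EReal) × (ι → Bool) => k.1.1)
        (by fun_prop) (by fun_prop) (fun M => ?_) (mr1 hA)
      change ((m M).map e).map _ = _
      rw [← h1 M, Measure.map_map (by fun_prop) me, Measure.map_map me1 (by fun_prop)]
      rfl
    | snd A hA =>
      refine good_marg (μ.map e1) (π := fun k : (EReal × EReal) × (ι → Bool) => k.1.2)
        (by fun_prop) (by fun_prop) (fun M => ?_) (mr1 hA)
      change ((m M).map e).map _ = _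
      rw [← h2 M, Measure.map_map (by fun_prop) me, Measure.map_map me1 (by fun_prop)]
      rfl
    | mem q =>
      exact good_clopen ((isClopen_discrete {true}).preimage
        ((continuous_apply q).comp continuous_snd))
    | compl E _ ih => exact ih.compl
    | inter E E' _ _ ih ih' => exact ih.inter ih'
  refine ⟨(w0 : Measure _).map r, Measure.isProbabilityMeasure_map mr.aemeasurable,
    fun E hE => ?_⟩
  rw [Measure.map_apply mr hE.meas]
  refine ((hg E hE).tendsto hw').congr fun M => ?_
  change (m M).map e _ = _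
  rw [Measure.map_apply me (mr hE.meas)]
  congr 1
  ext z
  simp only [mem_preimage, hre]

end Pool.Agent.MP_154433_an.T3A
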