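import Pool.Agent.MP_154433_an.t3a.Spec

set_option autoImplicit false

open MeasureTheory ProbabilityTheory Filter Topology Set
open scoped ENNReal

namespace Pool.Agent.MP_154433_an.T3A

namespace MkAux

variable {Γ : Type} [AddCommGroup Γ]

lemma ex_aut {S : Arr Γ} (h : Iso ⊥ ⊥ S) : ∃ φ : Au Γ, ∀ ξ ξ', φ ξ = ξ' ↔ (ξ, ξ') ∈ S := by
  choose f hf using h.totL
  have key : ∀ a a' b b', (a, a') ∈ S → (b, b') ∈ S → (a = b ↔ a' = b') := fun a a' b b' h1 h2 => by
    have := h.iff _ _ (h.sub _ _ _ _ h1 h2)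
    rwa [AddSubgroup.mem_bot, AddSubgroup.mem_bot, sub_eq_zero, sub_eq_zero] at this
  have hs : ∀ a b, f (a - b) = f a - f b := fun a b =>
    (key _ _ _ _ (hf (a - b)) (h.sub _ _ _ _ (hf a) (hf b))).1 rfl
  have hb : Function.Bijective (AddMonoidHom.ofMapSub f hs).toIntLinearMap := by
    refine ⟨fun a b e => (key _ _ _ _ (hf a) (hf b)).2 e, fun c => ?_⟩
    obtain ⟨a, ha⟩ := h.totR c
    exact ⟨a, (key _ _ _ _ (hf a) ha).1 rfl⟩
  refine ⟨LinearEquiv.ofBijective _ hb, fun ξ ξ' => ⟨?_, fun e => (key _ _ _ _ (hf ξ) e).1 rfl⟩⟩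
  rintro rfl
  exact hf ξ

lemma iso_iff (S : Arr Γ) : Iso ⊥ ⊥ S ↔ ((0 : Γ), (0 : Γ)) ∈ S ∧
    (∀ a a' b b', (a, a') ∈ S → (b, b') ∈ S → (a - b, a' - b') ∈ S) ∧ (∀ c, ∃ c', (c, c') ∈ S) ∧
    (∀ c', ∃ c, (c, c') ∈ S) ∧ ∀ c c', (c, c') ∈ S → (c = 0 ↔ c' = 0) := by
  refine ⟨fun h => ⟨h.zero 0 (zero_mem _) 0 (zero_mem _), h.sub, h.totL, h.totR, fun c c' e => ?_⟩,
    fun ⟨h1, h2, h3, h4, h5⟩ => ⟨fun c hc c' hc' => ?_, h2, h3, h4, fun c c' e => ?_⟩⟩
  · simpa only [AddSubgroup.mem_bot] using h.iff c c' e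
  · rw [AddSubgroup.mem_bot.1 hc, AddSubgroup.mem_bot.1 hc']
    exact h1
  · simpa only [AddSubgroup.mem_bot] using h5 c c' e

lemma meas_iso [Countable Γ] : Measurable fun S : Arr Γ => Iso ⊥ ⊥ S := by
  simp only [iso_iff]
  refine (measurable_set_mem _).and (Measurable.and ?_ (Measurable.and ?_ (Measurable.and ?_ ?_)))
  · exact Measurable.forall fun a => Measurable.forall fun a' => Measurable.forall fun b =>
      Measurable.forall fun b' => (measurable_set_mem _).imp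
        ((measurable_set_mem _).imp (measurable_set_mem _))
  · exact Measurable.forall fun c => Measurable.exists fun c' => measurable_set_mem _
  · exact Measurable.forall fun c => Measurable.exists fun c' => measurable_set_mem _
  · exact Measurable.forall fun c => Measurable.forall fun c' =>
      (measurable_set_mem _).imp measurable_const

end MkAux

open MkAux in
theorem xMk : MkS := by
  classical
  intro Z Γ _ _ _ R hR
  refine ⟨fun z => if h : Iso ⊥ ⊥ (R z) then (ex_aut h).choose else 1, fun ξ ξ' => ?_,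
    fun z h ξ ξ' => ?_⟩
  · have e : {z | (if h : Iso ⊥ ⊥ (R z) then (ex_aut h).choose else 1 : Au Γ) ξ = ξ'} =
        {z | (Iso ⊥ ⊥ (R z) ∧ (ξ, ξ') ∈ R z) ∨ (¬ Iso ⊥ ⊥ (R z) ∧ ξ = ξ')} := by
      ext z
      by_cases h : Iso ⊥ ⊥ (R z)
      · simp only [mem_ofPred_eq, dif_pos h, (ex_aut h).choose_spec]
        exact ⟨fun e => Or.inl ⟨h, e⟩, fun e => e.elim (fun e => e.2) fun e => absurd h e.1⟩
      · simp only [mem_ofPred_eq, dif_neg h]
        exact ⟨fun e => Or.inr ⟨h, e⟩, fun e => e.elim (fun e => absurd e.1 h) fun e => e.2⟩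
    rw [e]
    exact measurableSet_setOfPred.2 (((meas_iso.comp hR).and ((measurable_set_mem _).comp hR)).or
      ((meas_iso.comp hR).not.and measurable_const))
  · simp only [dif_pos h, (ex_aut h).choose_spec]

end Pool.Agent.MP_154433_an.T3A
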