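import Pool.Agent.MP_154433_an.t3a.ConvA

set_option autoImplicit false

open MeasureTheory ProbabilityTheory Filter Topology Set
open scoped ENNReal

namespace Pool.Agent.MP_154433_an.T3A

noncomputable section

open T3x (Wt Lab Sys Nl rho)

lemma rho_lab_same (s : T3x.Slot) (e : Bool) (h : s.2 = e) (M : ℕ) (d : ℤ × ℤ) :
    rho s (lab e M d) = s.1 * d.1 := by
  subst h
  unfold rho lab
  cases s.2 <;> simp

lemma rho_lab_ne (s : T3x.Slot) (e : Bool) (h : ¬ s.2 = e) (M : ℕ) (d : ℤ × ℤ) :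
    rho s (lab e M d) = s.1 * d.2 := by
  unfold rho lab
  revert h
  cases s.2 <;> cases e <;> simp

theorem bridge (hA : AlgS) (hE : ExaS) (ba : T3x.BasA) (hm : T3x.MixS) : T3x.AlgS := by
  classical
  intro ν U X V _ _ sg N Sg ι _ sl i1 i2 n v0 h
  obtain ⟨N', mN, eN, aN⟩ := hE X.X V X.μ X.T (AddEquiv.toIntLinearEquiv sg) N X.mp h.mN h.n0
    h.nsub h.nsh
  set e := (sl i1).2 with he
  have hr : (sl i2).1 - (sl i1).1 ≠ 0 := by
    intro h0
    apply h.ne12
    apply h.inj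
    exact Prod.ext (by linarith) h.same
  have hn : ∀ M d, n (lab e M d) = ((sl i2).1 - (sl i1).1) * d.1 := by
    intro M d
    rw [h.hn, rho_lab_same _ e h.same.symm, rho_lab_same _ e rfl]; ring
  let B : Bun X.X V :=
    { μ := X.μ, prob := X.pr, T := X.T, mp := X.mp, σ := AddEquiv.toIntLinearEquiv sg, N := N'
      mN := mN, eqv := eN, ν := wm ν, pν := fun _ => inferInstance, U := U
      r := (sl i2).1 - (sl i1).1, ne := hr
      Sg := fun M d y => {p | y ∈ Sg (lab e M d) p.1 p.2}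
      mS := fun M d => measurable_set_iff.2 fun p =>
        measurableSet_setOfPred.1 (h.mS (lab e M d) p.1 p.2) }
  have aZ : ∀ k : ℤ, ∀ᵐ y ∂X.μ, ∀ c, c ∈ N' (tz X.T k y) ↔ X.Tz k y ∈ N c := fun k =>
    (mp_tz X.mp k).quasiMeasurePreserving.ae aN
  have mT : ∀ k : ℤ, Measurable (X.Tz k) := fun k => measurable_tz X.T k
  have mi : ∀ {A A' : Set X.X}, MeasurableSet A → MeasurableSet A' →
      MeasurableSet {y | ¬ (y ∈ A ↔ y ∈ A')} := fun hA hA' =>
    measurableSet_setOfPred.2 ((measurableSet_setOfPred.1 hA).iff (measurableSet_setOfPred.1 hA')).not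
  have tot : ∀ (c : V) (ε : ℝ≥0∞), 0 < ε → ∃ F : Finset V, ∀ᶠ M in (U : Filter ℕ),
      B.P M (B.pt M ⁻¹' {a | ((0 : V), (0 : V)) ∈ a.2 ∧ ∀ c' ∈ F, (c, c') ∉ a.2}) ≤ ε ∧
      B.P M (B.pt M ⁻¹' {a | ((0 : V), (0 : V)) ∈ a.2 ∧ ∀ c' ∈ F, (c', c) ∉ a.2}) ≤ ε := by
    intro c ε hε
    obtain ⟨ε', h1, h2⟩ : ∃ ε' : ℝ, 0 < ε' ∧ ENNReal.ofReal ε' ≤ ε := by
      obtain ⟨x, -, hx1, hx2⟩ := ENNReal.lt_iff_exists_real_btwn.1 hε
      exact ⟨x, ENNReal.ofReal_pos.1 hx1, hx2.le⟩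
    obtain ⟨F, hF⟩ := h.tot c ε' h1
    refine ⟨F, hF.mono fun M hM => ⟨?_, ?_⟩⟩
    · refine (key_le ν e M X (A := fun l => Sg l 0 0 \ ⋃ a' ∈ F, Sg l c a')
        (fun l => (h.mS l 0 0).diff (F.measurableSet_biUnion fun a' _ => h.mS l c a'))
        (fun d => Eventually.of_forall fun y hy => ⟨hy.1, ?_⟩)).trans
        ((ENNReal.ofReal_le_ofReal hM.1).trans h2)
      intro hu
      obtain ⟨a', ha', hu⟩ := mem_iUnion₂.1 hu
      exact hy.2 a' ha' hu
    · refine (key_le ν e M X (A := fun l => Sg l 0 0 \ ⋃ a' ∈ F, Sg l a' c)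
        (fun l => (h.mS l 0 0).diff (F.measurableSet_biUnion fun a' _ => h.mS l a' c))
        (fun d => Eventually.of_forall fun y hy => ⟨hy.1, ?_⟩)).trans
        ((ENNReal.ofReal_le_ofReal hM.2).trans h2)
      intro hu
      obtain ⟨a', ha', hu⟩ := mem_iUnion₂.1 hu
      exact hy.2 a' ha' hu
  have h0 : H0 B := by
    refine ⟨mix_of ba ν U h.hU (hm ν h.erg), fun c c' => ?_, fun c c' a a' => ?_,
      fun c c' => ?_, fun c ε hε => ?_, fun c ε hε => ?_, fun c c' => ?_⟩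
    · refine nul_of ν U e X (fun l => (((h.mS l 0 0).inter (h.mN c)).inter
        (mT _ (h.mN c'))).diff (h.mS l c c')) (h.triv c c') fun M d => ?_
      filter_upwards [aN, aZ (((sl i2).1 - (sl i1).1) * d.1)] with y h1 h2 hy
      refine ⟨⟨⟨hy.2.2.1, (h1 c).1 hy.1⟩, ?_⟩, hy.2.2.2⟩
      rw [hn]
      exact (h2 c').1 hy.2.1
    · exact nul_of ν U e X (fun l => ((h.mS l _ _).inter (h.mS l _ _)).diff (h.mS l _ _))
        (h.sub c c' a a') fun M d => Eventually.of_forall fun y hy => ⟨⟨hy.1, hy.2.1⟩, hy.2.2⟩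
    · refine nul_of ν U e X (fun l => (h.mS l c c').inter (mi (h.mN c) (mT _ (h.mN c'))))
        (h.ker c c') fun M d => ?_
      filter_upwards [aN, aZ (((sl i2).1 - (sl i1).1) * d.1)] with y h1 h2 hy
      refine ⟨hy.1, fun hc => hy.2 ?_⟩
      rw [hn] at hc
      exact (h1 c).trans (hc.trans (h2 c').symm)
    · obtain ⟨F, hF⟩ := tot c ε hε
      exact ⟨F, hF.mono fun M hM => hM.1⟩
    · obtain ⟨F, hF⟩ := tot c ε hε
      exact ⟨F, hF.mono fun M hM => hM.2⟩
    · exact nul_of ν U e X (fun l => mi (h.mS l _ _) (X.T.measurable (h.mS l c c')))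
        (h.sh c c') fun M d => Eventually.of_forall fun y hy => hy
  have hF : Flat B := by
    intro a b a' b'
    obtain ⟨φ, h1, h2⟩ := h.flat a b a' b'
    have hφ : ∀ l, 0 ≤ φ l := fun l => ge_of_tendsto' (h2 l) fun M =>
      av2_nonneg ν M fun _ => measureReal_nonneg
    have h3 : ∀ M' d', limsup (fun M => B.P M (B.pt M ⁻¹' B.flatS M' d' a b a' b')) U =
        ENNReal.ofReal (φ (lab e M' d')) := by
      intro M' d'
      refine ((ENNReal.tendsto_ofReal (h2 (lab e M' d'))).congr fun M => ?_).limsup_eq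
      rw [← key ν e M X (A := fun l' => {y | y ∈ Sg l' a b ∧
          y ∈ Sg l' ((n (lab e M' d') • sg) a') ((n (lab e M' d') • sg) b') ∧
          ¬ (y ∈ Sg (lab e M' d') a a' ↔ X.Tz (n l') y ∈ Sg (lab e M' d') b b')})
        fun l' => (h.mS l' a b).inter ((h.mS l' _ _).inter
        (mi (h.mS _ a a') (mT _ (h.mS _ b b'))))]
      change PM (wm ν M) X.μ _ = PM (wm ν M) X.μ _
      congr 1
      ext z
      simp only [mem_ofPred_eq, hn, ← sz_eq]
      rfl
    have h4 := ENNReal.tendsto_ofReal h1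
    rw [ENNReal.ofReal_zero] at h4
    refine h4.congr fun M' => ?_
    rw [← key0 ν e M' hφ]
    exact lintegral_congr fun d' => (h3 M' d').symm
  have hD : Dec B := by
    intro c c'
    refine nul_of ν U true X (fun l => (h.mN _).diff (h.mN c')) (h.dec c c') fun M d => ?_
    filter_upwards [aN] with y h1 hy
    refine ⟨(h1 _).1 ?_, fun hc => hy.2 ((h1 _).2 hc)⟩
    rw [← sz_eq]
    exact hy.1
  let D : RD V :=
    { J := {k // (sl k).2 = e}, fin := inferInstance, r := fun k => (sl k.1).1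
      inj := fun k k' hk => Subtype.ext (h.inj (Prod.ext hk (k.2.trans k'.2.symm)))
      ne := fun k => h.ne k.1, k0 := ⟨i1, rfl⟩, c := fun k => v0 k.1
      b := fun d => -∑ k : {k // ¬ (sl k).2 = e},
        sz (AddEquiv.toIntLinearEquiv sg) ((sl k.1).1 * d) (v0 k.1) }
  obtain ⟨ε, hε, hev⟩ : ∃ ε : ℝ, 0 < ε ∧ ∀ᶠ M in (U : Filter ℕ), ε ≤ ν.av2 M fun l => X.μ.real
      {x | X.Tz (rho (sl i1) l) x ∈ Sg l 0 0 ∧ x ∈ N (∑ k, (rho (sl k) l • sg) (v0 k)) ∧
        x ∉ N ((rho (sl i1) l • sg) (v0 i1))} := by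
    by_contra hc
    push Not at hc
    apply h.rel
    refine tendsto_order.2 ⟨fun a ha => Eventually.of_forall fun M =>
      ha.trans_le (av2_nonneg ν M fun _ => measureReal_nonneg), fun a ha => ?_⟩
    exact hc a ha
  refine hA X.X V B D (ENNReal.ofReal ε) (ENNReal.ofReal_pos.2 hε) h0 hF ?_ hD
  refine hev.mono fun M hM => (ENNReal.ofReal_le_ofReal hM).trans ?_
  refine key_ge ν e M X (fun l => (mT _ (h.mS l 0 0)).inter ((h.mN _).inter (h.mN _).compl))
    fun d => ?_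
  filter_upwards [aN] with y h1 hy
  obtain ⟨y1, y2, y3⟩ := hy
  rw [rho_lab_same _ e rfl] at y1 y3
  refine ⟨⟨(h1 _).2 ?_, fun hc => y3 ?_⟩, y1⟩
  · have : (∑ k : D.J, sz B.σ (D.r k * d.1) (D.c k)) - D.b d.2 =
        ∑ k, (rho (sl k) (lab e M d) • sg) (v0 k) := by
      rw [← Fintype.sum_subtype_add_sum_subtype (fun k => (sl k).2 = e), sub_eq_add_neg]
      congr 1
      · exact Finset.sum_congr rfl fun k _ => by rw [rho_lab_same _ e k.2, ← sz_eq]
      · rw [neg_neg]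
        exact Finset.sum_congr rfl fun k _ => by rw [rho_lab_ne _ e k.2, ← sz_eq]
    change y ∈ N ((∑ k : D.J, sz B.σ (D.r k * d.1) (D.c k)) - D.b d.2)
    rw [this]
    exact y2
  · rw [← sz_eq]
    exact (h1 _).1 hc

end

end Pool.Agent.MP_154433_an.T3A
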