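import Pool.Agent.MP_154433_an.t3a.Spec

/-! The cocycle takes values in a commutative set of automorphisms and is tight. -/

set_option autoImplicit false

open MeasureTheory ProbabilityTheory Filter Topology Set
open scoped ENNReal

namespace Pool.Agent.MP_154433_an.T3A

namespace CtAux

theorem comm {Γ : Type} [AddCommGroup Γ] {γ : ℕ → Au Γ} {f h : Au Γ}
    (hf : ∀ i, f * γ i = γ i * f) (hh : ∀ x x', ∃ i, γ i x = h x ∧ γ i x' = h x') :
    f * h = h * f := LinearEquiv.ext fun x => by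
  obtain ⟨i, h1, h2⟩ := hh x (f x)
  change f (h x) = h (f x)
  rw [← h1, ← h2]
  exact LinearEquiv.congr_fun (hf i) x

theorem meas {Z Γ : Type} [MeasurableSpace Z] [Countable Γ] {f : Z → Γ}
    (hf : ∀ k, MeasurableSet {z | f z = k}) (F : Finset Γ) : MeasurableSet {z | f z ∉ F} := by
  have e : {z | f z ∉ F} = ⋂ k ∈ F, {z | f z = k}ᶜ := by
    ext z
    simp only [mem_iInter, mem_compl_iff, mem_ofPred_eq]
    exact ⟨fun h k hk e => h (e ▸ hk), fun h hk => h _ hk rfl⟩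
  rw [e]
  exact F.measurableSet_biInter fun k _ => (hf k).compl

theorem tight {Z Γ : Type} [MeasurableSpace Z] [Countable Γ] (m : Measure Z) [IsFiniteMeasure m]
    (E : Finset Γ → Set Z) (h1 : ∀ F, MeasurableSet (E F)) (h2 : Antitone E)
    (h3 : ∀ z, ∃ F, z ∉ E F) {ε : ℝ≥0∞} (hε : 0 < ε) : ∃ F, m (E F) ≤ ε := by
  classical
  have h := tendsto_measure_iInter_atTop (μ := m) (fun F => (h1 F).nullMeasurableSet) h2
    ⟨∅, measure_ne_top _ _⟩
  rw [show ⋂ F, E F = ∅ from eq_empty_of_forall_notMem fun z hz =>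
    (h3 z).elim fun F hF => hF (mem_iInter.1 hz F), measure_empty] at h
  exact ((h.eventually (gt_mem_nhds hε)).exists).imp fun F hF => le_of_lt hF

end CtAux

open CtAux in
theorem xCt : CtS := by
  classical
  intro Ω V Γ _ _ _ _ _ A θ γ g Ψ m2 s ht hc hm hi hs ha
  have hC : ∀ n, ∀ᵐ y ∂A.μ, (∀ i, Ψ n y * γ i = γ i * Ψ n y) ∧
      ∀ x x', ∃ i, γ i x = Ψ n y x ∧ γ i x' = Ψ n y x' := fun n => by
    have q := (mp_tz A.mp n).quasiMeasurePreserving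
    filter_upwards [q.ae ht.sur, q.ae ht.tot, q.ae ht.resp, ht.resp, ht.dense, hc.def'] with
      y h1 h2 h3 h4 h5 h6
    refine ⟨fun i => LinearEquiv.ext fun x => ?_, fun x x' => ?_⟩
    · obtain ⟨c, rfl⟩ := h1.1 x
      obtain ⟨b, hb⟩ := h2 i c
      change Ψ n y (γ i _) = γ i (Ψ n y _)
      rw [← h3 i c b hb, h6, h6]
      rw [A.geqz (ht.geq i)] at hb
      exact h4 i _ _ hb
    · obtain ⟨c, rfl⟩ := h1.1 x
      obtain ⟨c', rfl⟩ := h1.1 x'
      rw [h6, h6]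
      exact h5 n c c'
  refine ⟨{f | (∀ i, f * γ i = γ i * f) ∧ ∀ x x', ∃ i, γ i x = f x ∧ γ i x' = f x'},
    fun a h b h' => comm h.1 h'.2, hC, fun ξ ε hε => ?_⟩
  have p0 : MeasurePreserving Prod.fst m2 (A.μ.prod A.μ) := ⟨measurable_fst, hm⟩
  have q1 := (measurePreserving_fst.comp p0).quasiMeasurePreserving
  have q2 := (measurePreserving_snd.comp p0).quasiMeasurePreserving
  have : IsFiniteMeasure m2 := ⟨by
    rw [← preimage_univ, p0.measure_preimage MeasurableSet.univ.nullMeasurableSet]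
    exact measure_lt_top _ _⟩
  have e2 : 0 < ε / 2 := ENNReal.half_pos hε.ne'
  obtain ⟨F1, hF1⟩ := tight m2 (fun F => {z | (s z)⁻¹ ξ ∉ F}) (meas fun k => by
    simpa only [eq_comm (a := ξ)] using
      (Set.ext fun z => (s z).symm_apply_eq (x := ξ) (y := k) :
        {z | (s z)⁻¹ ξ = k} = {z | ξ = s z k}) ▸ (by simpa only [eq_comm (a := ξ)] using hs k ξ))
    (fun F F' h z hz hz' => hz (h hz')) (fun z => ⟨{(s z)⁻¹ ξ}, by simp⟩) e2
  have m3 : ∀ F : Finset Γ, MeasurableSet (⋃ η ∈ F1, {z | s z η ∉ F}) := fun F =>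
    F1.measurableSet_biUnion fun η _ => meas (hs η) F
  obtain ⟨F2, hF2⟩ := tight m2 (fun F => ⋃ η ∈ F1, {z | s z η ∉ F}) m3
    (fun F F' h => iUnion₂_mono fun η _ z hz hz' => hz (h hz'))
    (fun z => ⟨F1.image (s z), fun h => by
      obtain ⟨η, h1, h2⟩ := mem_iUnion₂.1 h
      exact h2 (Finset.mem_image_of_mem _ h1)⟩) e2
  refine ⟨F2, fun n => ?_⟩
  have pn := A.mp_sA hi n
  have m4 : MeasurableSet {p : Ω × Ω | (Ψ n p.2)⁻¹ (Ψ n p.1 ξ) ∉ F2} := meas (fun k => by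
    have e : {p : Ω × Ω | (Ψ n p.2)⁻¹ (Ψ n p.1 ξ) = k} = ⋃ ζ,
        Prod.fst ⁻¹' {y | Ψ n y ξ = ζ} ∩ Prod.snd ⁻¹' {y | Ψ n y k = ζ} := Set.ext fun p =>
      (Ψ n p.2).symm_apply_eq.trans ⟨fun h => mem_iUnion.2 ⟨_, h, rfl⟩, fun h => by
        obtain ⟨ζ, h1, h2⟩ := mem_iUnion.1 h
        exact Eq.trans h1 (Eq.symm h2)⟩
    rw [e]
    exact MeasurableSet.iUnion fun ζ =>
      (measurable_fst (hc.mΨ n ξ ζ)).inter (measurable_snd (hc.mΨ n k ζ))) F2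
  rw [← p0.measure_preimage m4.nullMeasurableSet, ← ENNReal.add_halves ε]
  refine le_trans (measure_mono_ae (t := {z | (s z)⁻¹ ξ ∉ F1} ∪
    A.sA n n ⁻¹' ⋃ η ∈ F1, {z | s z η ∉ F2}) ?_) ((measure_union_le _ _).trans
      (add_le_add hF1 ((pn.measure_preimage (m3 F2).nullMeasurableSet).trans_le hF2)))
  filter_upwards [ha, pn.quasiMeasurePreserving.ae ha, q1.ae (hC n), q1.ae hc.def', q2.ae hc.def',
    q1.ae ((mp_tz A.mp n).quasiMeasurePreserving.ae ht.sur)] with z h1 h2 h3 h4 h5 h6 hz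
  have key : ∀ x, Ψ n z.1.2 (s (A.sA n n z) x) = s z (Ψ n z.1.1 x) := fun x => by
    obtain ⟨c, rfl⟩ := h6.1 x
    obtain ⟨c', hc'⟩ := h2.1 c
    exact ((congrArg _ (h2.2.1 c c' hc')).trans (h5 n c')).trans
      ((h1.2.1 _ _ hc').symm.trans (congrArg _ (h4 n c).symm))
  have k2 : (Ψ n z.1.2)⁻¹ (Ψ n z.1.1 ξ) = s (A.sA n n z) ((s z)⁻¹ ξ) :=
    (Ψ n z.1.2).symm_apply_eq.2 (by
      rw [key]
      exact (congrArg _ ((s z).apply_symm_apply ξ).symm).trans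
        (LinearEquiv.congr_fun (comm h1.2.2 h3.2) _).symm)
  by_cases h7 : (s z)⁻¹ ξ ∈ F1
  · exact Or.inr (mem_iUnion₂.2 ⟨_, h7, fun h8 => hz (k2 ▸ h8)⟩)
  · exact Or.inl h7

end Pool.Agent.MP_154433_an.T3A
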