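import Pool.Agent.MP_154433_an.t3a.Spec

set_option autoImplicit false

open MeasureTheory ProbabilityTheory Filter Topology Set
open scoped ENNReal

namespace Pool.Agent.MP_154433_an.T3A

namespace EqzAux

variable {Ω V : Type} [MeasurableSpace Ω] [AddCommGroup V] {B : Bun Ω V}

lemma nul_step {E E₁ E₂ : ℕ → Set ((ℤ × ℤ) × Ω)} (k : ℤ) (h₁ : B.Nul E₁) (h₂ : B.Nul E₂)
    (h : ∀ M z, z ∈ E M → z ∈ E₁ M ∨ (z.1, tz B.T k z.2) ∈ E₂ M) : B.Nul E := by
  have hs := h₁.add h₂
  rw [add_zero] at hs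
  refine tendsto_of_tendsto_of_tendsto_of_le_of_le tendsto_const_nhds hs (fun _ => zero_le)
    fun M => ?_
  have mp : MeasurePreserving (Prod.map id (tz B.T k)) (B.P M) (B.P M) :=
    (MeasurePreserving.id _).prod (mp_tz B.mp k)
  refine (measure_mono (t := E₁ M ∪ Prod.map id (tz B.T k) ⁻¹' E₂ M) (h M)).trans
    ((measure_union_le _ _).trans (add_le_add le_rfl ?_))
  exact (Measure.le_map_apply mp.measurable.aemeasurable _).trans_eq (by rw [mp.map_eq])

end EqzAux

open EqzAux in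
theorem xEqz : EqzS := by
  intro Ω V _ _ _ B H n
  induction n using Int.induction_on with
  | zero =>
    intro c c'
    simp [Bun.Nul]
  | succ n ih =>
    intro c c'
    refine nul_step n (ih (B.σ c) (B.σ c')) (H.eqv c c') fun M z hz => ?_
    simp only [mem_ofPred_eq, sz_add, sz_one, ← T_tz] at hz ⊢
    tauto
  | pred n ih =>
    intro c c'
    refine nul_step (-n - 1) (ih (sz B.σ (-1) c) (sz B.σ (-1) c'))
      (H.eqv (sz B.σ (-1) c) (sz B.σ (-1) c')) fun M z hz => ?_
    have e1 : ∀ x, sz B.σ (-(n : ℤ)) (sz B.σ (-1) x) = sz B.σ (-n - 1) x := fun x => by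
      rw [← sz_add]; rfl
    have e2 : ∀ x, B.σ (sz B.σ (-1) x) = x := fun x => by rw [← sz_one, sz_sz_neg]
    simp only [mem_ofPred_eq, e1, e2, T_tz, sub_add_cancel] at hz ⊢
    tauto

end Pool.Agent.MP_154433_an.T3A
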