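import Pool.Agent.MP_154433_an.t3a.Spec

set_option autoImplicit false

open MeasureTheory ProbabilityTheory Filter Topology Set
open scoped ENNReal

namespace Pool.Agent.MP_154433_an.T3A

noncomputable section

theorem xExa : ExaS := by
  intro X V _ _ _ μ T σ N hT hN h0 h1 h2
  let G0 : X → Prop := fun x => x ∈ N 0 ∧ (∀ v v', x ∈ N v → x ∈ N v' → x ∈ N (v - v')) ∧
    ∀ v, x ∈ N (σ v) ↔ T x ∈ N v
  let G : X → Prop := fun x => ∀ n : ℤ, G0 (tz T n x)
  have m : ∀ v, Measurable fun x => x ∈ N v := fun v => measurableSet_setOfPred.1 (hN v)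
  have m0 : Measurable G0 := (m 0).and ((Measurable.forall fun v => Measurable.forall fun v' =>
    (m v).imp ((m v').imp (m _))).and (Measurable.forall fun v =>
      (m _).iff ((m v).comp T.measurable)))
  have m1 : Measurable G := Measurable.forall fun n => m0.comp (measurable_tz T n)
  have a0 : ∀ᵐ x ∂μ, G0 x :=
    h0.and ((ae_all_iff.2 fun v => ae_all_iff.2 fun v' => h1 v v').and (ae_all_iff.2 h2))
  have a1 : ∀ᵐ x ∂μ, G x :=
    ae_all_iff.2 fun n => (mp_tz hT n).quasiMeasurePreserving.ae a0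
  have gT : ∀ x, G (T x) ↔ G x := fun x =>
    ⟨fun h n => by simpa only [tz_T, sub_add_cancel] using h (n - 1),
      fun h n => by rw [tz_T]; exact h _⟩
  have g0 : ∀ x, G x → G0 x := fun x h => by simpa only [tz_zero] using h 0
  refine ⟨fun x => AddSubgroup.ofSub {c | G x → x ∈ N c} ⟨0, fun h => (g0 x h).1⟩
    fun a ha b hb h => ?_, fun c => measurableSet_setOfPred.2 (m1.imp (m c)), fun c y => ?_,
    a1.mono fun x h c => ⟨fun e => e h, fun e _ => e⟩⟩
  · rw [← sub_eq_add_neg]
    exact (g0 x h).2.1 a b (ha h) (hb h)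
  · exact ⟨fun e h => ((g0 y ((gT y).1 h)).2.2 c).1 (e ((gT y).1 h)),
      fun e h => ((g0 y h).2.2 c).2 (e ((gT y).2 h))⟩

end

end Pool.Agent.MP_154433_an.T3A
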