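import Pool.Agent.MP_154433_an.t3a.Spec

set_option autoImplicit false

open MeasureTheory ProbabilityTheory Filter Topology Set
open scoped ENNReal

namespace Pool.Agent.MP_154433_an.T3A

theorem xF2 : F2S := by
  intro Ω V _ _ _ B w hF hE hw i c11 c12 c21 c22
  let A : ℕ → Set ((ℤ × ℤ) × Ω) := fun M =>
    {z | ¬ ((sz B.σ i c11, sz B.σ i c21) ∈ B.Sg M z.1 z.2 ↔
      (c11, c21) ∈ B.Sg M z.1 (tz B.T i z.2))}
  have hAd : ∀ M d, MeasurableSet (Prod.mk d ⁻¹' A M) := fun M d =>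
    measurableSet_setOfPred.2 (((measurable_set_mem _).comp (B.mS M d)).iff
      ((measurable_set_mem _).comp ((B.mS M d).comp (measurable_tz B.T i)))).not
  have h1 := hF (sz B.σ i c11) c12 (sz B.σ i c21) c22
  have h2 : Tendsto (fun M => B.P M (A M)) B.U (𝓝 0) := hE i c11 c21
  have h3 := h1.add h2
  rw [add_zero] at h3
  refine tendsto_of_tendsto_of_tendsto_of_le_of_le tendsto_const_nhds h3 (fun _ => zero_le)
    fun M => ?_
  show _ ≤ _ + PM (B.ν M) B.μ (A M)
  rw [PM_apply _ _ (measurableSet_lab (hAd M)), ← lintegral_add_left (measurable_of_countable _)]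
  refine lintegral_mono fun d => ?_
  rw [Measure.map_apply (B.measurable_sA i 0) (B.cyl_flatS M d c11 c12 c21 c22).meas, ← hw,
    Measure.map_apply measurable_fst.fst (hAd M d)]
  refine le_trans (measure_mono ?_) (measure_union_le _ _)
  rintro a ⟨a1, a2, a3⟩
  simp only [Base.sA_apply, mem_sh, sz_zero, tz_zero] at a1 a2 a3
  by_cases h : a ∈ (fun z : (Ω × Ω) × Arr V => z.1.1) ⁻¹' (Prod.mk d ⁻¹' A M)
  · exact Or.inr h
  · refine Or.inl ⟨a1, ?_, ?_⟩
    · rw [sz_comm]
      exact a2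
    · have h4 : (sz B.σ i c11, sz B.σ i c21) ∈ B.Sg M d a.1.1 ↔
          (c11, c21) ∈ B.Sg M d (tz B.T i a.1.1) := not_not.mp h
      rw [h4]
      exact a3

end Pool.Agent.MP_154433_an.T3A
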