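import Pool.Agent.MP_154433_an.t3a.Defs
import Pool.Agent.MP_154433_an.t3a.FinA
import Pool.Agent.MP_154433_an.t3a.FinB

set_option autoImplicit false

open MeasureTheory Filter Topology
open scoped ENNReal Pointwise

namespace Pool.Agent.MP_154433_an.T3A

namespace FinAux

/-- the elements that fix `E` -/
def stab (G : Type*) {Ga : Type*} [Group G] [MulAction G Ga] (E : Set Ga) : Subgroup G where
  carrier := {g | ∀ a ∈ E, g • a = a}
  one_mem' := fun a _ => one_smul G a
  mul_mem' := fun {g h} hg hh a ha => by rw [mul_smul, hh a ha, hg a ha]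
  inv_mem' := fun {g} hg a ha => by rw [inv_smul_eq_iff, hg a ha]

theorem core {Om Ga G J : Type*} [MeasurableSpace Om] (ka : Measure Om) [IsProbabilityMeasure ka]
    [AddCommGroup Ga] [Countable Ga] [CommGroup G] [DistribMulAction G Ga] [Fintype J]
    (T : ℤ → Om → Om) (hT : ∀ n, MeasurePreserving (T n) ka ka) (P : ℤ → Om → G)
    (hco : ∀ n k, ∀ᵐ y ∂ka, P (n + k) y = P n y * P k (T n y))
    (ht : ∀ (a : Ga) (eps : ℝ≥0∞), 0 < eps → ∃ F : Finset Ga, ∀ n,
      (ka.prod ka) {p | ((P n p.2)⁻¹ * P n p.1) • a ∉ F} ≤ eps)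
    (nu : ℕ → Measure ℤ) [∀ i, IsProbabilityMeasure (nu i)] (r : J → ℤ)
    (hr : Function.Injective r) (hr0 : ∀ k, r k ≠ 0) (k0 : J) (x : J → Om → Ga)
    (eta : ℤ → Om → Ga) (hx : ∀ k a, NullMeasurableSet {y | x k y = a} ka)
    (heta : ∀ d a, NullMeasurableSet {y | eta d y = a} ka) (de : ℝ≥0∞) (hde : 0 < de)
    (hrel : ∀ i, de ≤ ((nu i).prod (nu i)).prod ka
      {z | ∑ k, P (r k * z.1.1) z.2 • x k (T (r k * z.1.1) z.2) = eta z.1.2 z.2 ∧
        x k0 (T (r k0 * z.1.1) z.2) ≠ 0})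
    (hdec : ∀ a b : Ga, b ≠ 0 → Tendsto (fun i => ((nu i).prod (nu i)).prod ka
      {z | P (z.1.1 - z.1.2) z.2 • a = b}) atTop (𝓝 0)) : False := by
  classical
  have hde1 : de ≤ 1 := (hrel 0).trans prob_le_one
  obtain ⟨e0, he0, hK⟩ := ENNReal.exists_nnreal_pos_mul_lt
    (a := ((2 * Fintype.card J + 4 : ℕ) : ℝ≥0∞)) (ENNReal.natCast_ne_top _) hde.ne'
  set eps : ℝ≥0∞ := (e0 : ℝ≥0∞) with heps
  have hepos : 0 < eps := by rw [heps]; exact_mod_cast he0
  have hetop : eps ≠ ⊤ := ENNReal.coe_ne_top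
  have h3 : eps + eps + eps < 1 := by
    refine lt_of_le_of_lt ?_ (hK.trans_le hde1)
    have : eps + eps + eps = eps * ((3 : ℕ) : ℝ≥0∞) := by
      push_cast
      ring
    rw [this]
    gcongr
    omega
  choose E0 hE0 hE1 using fun k => nm_tight (hx k) hepos
  set E : Set Ga := ⋃ k, E0 k with hE
  have hEf : E.Finite := Set.finite_iUnion hE0
  have hxE : ∀ k, ka {y | x k y ∉ E} ≤ eps := fun k =>
    le_trans (measure_mono fun y hy h => hy (Set.mem_iUnion.mpr ⟨k, h⟩)) (hE1 k)
  obtain ⟨A, hA, hA1⟩ := tight_set (ka := ka.prod ka) (fun (g : G) (a : Ga) => g • a)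
    (fun n p => (P n p.2)⁻¹ * P n p.1) ht E hEf eps hepos
  set K := stab G E with hKd
  let pi : G →* G ⧸ K := QuotientGroup.mk' K
  have hout : ∀ q : G ⧸ K, pi q.out = q := fun q => QuotientGroup.out_eq' q
  let Fx : Ga → Prop := fun a => ∀ g ∈ K, g • a = a
  have hFE : ∀ a ∈ E, Fx a := fun a ha g hg => hg a ha
  have hFs : ∀ (g : G) a, Fx a → Fx (g • a) := fun g a ha k hk => by
    rw [smul_smul, mul_comm, mul_smul, ha k hk]
  have hpi : ∀ (g g' : G) a, Fx a → pi g = pi g' → g • a = g' • a := by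
    intro g g' a ha h
    have h1 : g⁻¹ * g' ∈ K := QuotientGroup.eq.mp h
    have h2 := ha _ h1
    rw [mul_smul, inv_smul_eq_iff] at h2
    exact h2.symm
  let F : Set (G ⧸ K) := {q | ∀ a ∈ E, q.out • a ∈ A}
  have hF : F.Finite := by
    have := hEf.to_subtype
    refine Set.Finite.of_finite_image (f := fun (q : G ⧸ K) (a : E) => q.out • (a : Ga)) ?_ ?_
    · refine (Set.Finite.pi' (fun _ : E => hA)).subset ?_
      rintro _ ⟨q, hq, rfl⟩ a
      exact hq a a.2
    · intro q _ q' _ h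
      rw [← hout q, ← hout q']
      refine QuotientGroup.eq.mpr fun a ha => ?_
      have h1 : q.out • a = q'.out • a := congrFun h ⟨a, ha⟩
      rw [mul_smul, inv_smul_eq_iff, h1]
  obtain ⟨c, F', hF', hc, hq⟩ := drift (ka := ka) T hT (fun n y => pi (P n y))
    (fun n m => (hco n m).mono fun y hy => by rw [hy, map_mul]) F hF h3 (fun n => by
      refine le_trans (measure_mono ?_) (hA1 n)
      intro p hp hp'
      refine hp fun a ha => ?_
      rw [hpi _ ((P n p.2)⁻¹ * P n p.1) a (hFE a ha) (by rw [hout, map_mul, map_inv])]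
      exact hp' a ha)
  let S : Set G := Quotient.out '' (F' ∪ {c 0, c 1})
  have hS : S.Finite := (hF'.union (Set.toFinite _)).image _
  have hlift : ∀ n, ∃ g ∈ Subgroup.closure S, pi g = c n := by
    intro n
    have h1 := quasi_gen c F' hq n
    have h2 : pi '' S = F' ∪ {c 0, c 1} := by
      simp only [S, Set.image_image, hout, Set.image_id']
    rw [← h2, ← MonoidHom.map_closure] at h1
    exact Subgroup.mem_map.mp h1
  choose ct hct hpc using hlift
  choose B hB hB1 using fun k => quasi_mul c F' hF' hq (r k)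
  let Z : J → Set Ga := fun k => Set.image2 (fun (q : G ⧸ K) a => q.out • a) (B k * F) E
  have hZ : ∀ k, (Z k).Finite := fun k => Set.Finite.image2 _ ((hB k).mul hF) hEf
  let ZZ : Set (J → Ga) := {z | (∀ k, z k ∈ Z k) ∧ z k0 ≠ 0}
  have hZZ : ZZ.Finite := (Set.Finite.pi' hZ).subset fun z hz => hz.1
  let Sol : (J → Ga) → Ga → Set ℤ := fun z b => {d | ∑ k, ct d ^ r k • z k = b}
  obtain ⟨w, hw⟩ : ∃ w : ℕ, ∀ k, |r k| ≤ w := by
    refine ⟨Finset.univ.sup fun k => (r k).natAbs, fun k => ?_⟩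
    rw [← Int.natCast_natAbs]
    exact_mod_cast Finset.le_sup (f := fun k => (r k).natAbs) (Finset.mem_univ k)
  have hA : ∀ z ∈ ZZ, ∀ t : ℝ≥0∞, 0 < t → ∀ᶠ i in atTop, ∀ b, nu i (Sol z b) ≤ t := by
    intro z hz t htp
    obtain ⟨z', hz0, hz1, hz2⟩ := alg S hS (z k0) hz.2
    have hfz : Fx (z k0) := by
      obtain ⟨q, _, a, ha, he⟩ := hz.1 k0
      rw [← he]
      exact hFs _ _ (hFE a ha)
    have hfz' : Fx z' := fun g hg => hz1 g (hfz g hg)
    obtain ⟨s0, hs0, hs1⟩ := ENNReal.exists_nnreal_pos_mul_lt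
      (a := ((2 * w : ℕ) : ℝ≥0∞)) (ENNReal.natCast_ne_top _) htp.ne'
    set s : ℝ≥0∞ := (s0 : ℝ≥0∞) with hs
    have hsp : s ≠ 0 := by rw [hs]; exact_mod_cast hs0.ne'
    let Y : Set Ga := (fun q : G ⧸ K => q.out • z') '' (F'⁻¹ * F)
    have hY : Y.Finite := (hF'.inv.mul hF).image _
    have hY0 : ∀ b ∈ hY.toFinset, b ≠ 0 := by
      intro b hb
      obtain ⟨q, _, rfl⟩ := hY.mem_toFinset.mp hb
      exact (smul_ne_zero_iff_ne _).mpr hz0
    have hsum := tendsto_finsetSum hY.toFinset fun b hb => hdec z' b (hY0 b hb)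
    rw [Finset.sum_const_zero] at hsum
    have hpos : 0 < eps * (s * s) := ENNReal.mul_pos hepos.ne' (mul_ne_zero hsp hsp)
    filter_upwards [hsum.eventually (gt_mem_nhds hpos)] with i hi b
    refine le_trans (few (nu i) (fun d => ct d • z') (Sol z b) (2 * w) s ?_ ?_) ?_
    · intro cc hcc
      exact hz2 r k0 z w (fun k hk h => hk (hr h)) (hr0 k0) hw rfl b (fun i => ct (cc i))
        (fun i => hct _) hcc
    · have h1 := le_pm ((nu i).prod (nu i)) ka {z | P (z.1.1 - z.1.2) z.2 • z' ∈ Y}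
        {l | ct l.1 • z' = ct l.2 • z'} eps ?_
      · have h2 : {z : (ℤ × ℤ) × Om | P (z.1.1 - z.1.2) z.2 • z' ∈ Y}
            ⊆ ⋃ b ∈ hY.toFinset, {z | P (z.1.1 - z.1.2) z.2 • z' = b} := fun z hz =>
          Set.mem_biUnion (hY.mem_toFinset.mpr hz) rfl
        have h4 := lt_of_le_of_lt (h1.trans ((measure_mono h2).trans
          (measure_biUnion_finset_le _ _))) hi
        exact (ENNReal.mul_lt_mul_iff_right hepos.ne' hetop).mp h4
      · rintro ⟨d, d'⟩ hl
        have hl' : ct d • z' = ct d' • z' := hl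
        have hcov : (Set.univ : Set Om) ⊆ {y | (c (d - d'))⁻¹ * pi (P (d - d') y) ∉ F}
            ∪ {y | P (d - d') y • z' ∈ Y} := by
          intro y _
          by_cases hy : (c (d - d'))⁻¹ * pi (P (d - d') y) ∈ F
          · right
            have h5 := hq (d - d') d'
            rw [sub_add_cancel] at h5
            refine ⟨_, Set.mul_mem_mul (Set.inv_mem_inv.mpr h5) hy, ?_⟩
            set q := (c d * (c (d - d'))⁻¹ * (c d')⁻¹)⁻¹ * ((c (d - d'))⁻¹ * pi (P (d - d') y))
              with hqd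
            have h6 : pi (P (d - d') y) = pi (q.out * (ct d')⁻¹ * ct d) := by
              rw [map_mul, map_mul, map_inv, hout, hpc, hpc, hqd]
              apply Additive.ofMul.injective
              simp only [ofMul_mul, ofMul_inv]
              abel
            show q.out • z' = P (d - d') y • z'
            rw [hpi _ _ z' hfz' h6, mul_smul, mul_smul, hl', inv_smul_smul]
          · exact Or.inl hy
        by_contra hlt
        have h7 : (1 : ℝ≥0∞) ≤ eps + eps := by
          calc (1 : ℝ≥0∞) = ka Set.univ := measure_univ.symm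
            _ ≤ _ := (measure_mono hcov).trans (measure_union_le _ _)
            _ ≤ eps + eps := add_le_add (hc _) (not_le.mp hlt).le
        exact absurd h3 (not_lt.mpr (h7.trans le_self_add))
    · rw [mul_comm]
      exact hs1.le
  obtain ⟨t0, ht0, ht1⟩ := ENNReal.exists_nnreal_pos_mul_lt
    (a := (hZZ.toFinset.card : ℝ≥0∞)) (ENNReal.natCast_ne_top _) hepos.ne'
  have hev : ∀ᶠ i in atTop, ∀ z ∈ hZZ.toFinset, ∀ b, nu i (Sol z b) ≤ t0 :=
    (eventually_all_finset _).mpr fun z hz =>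
      hA z (hZZ.mem_toFinset.mp hz) t0 (by exact_mod_cast ht0)
  obtain ⟨i, hi⟩ := hev.exists
  have hG := pm_swap (nu i) ka eta heta (fun b => ⋃ z ∈ hZZ.toFinset, Sol z b) eps (fun b => by
    refine (measure_biUnion_finset_le _ _).trans ?_
    refine (Finset.sum_le_sum fun z hz => hi z hz b).trans ?_
    rw [Finset.sum_const, nsmul_eq_mul, mul_comm]
    exact ht1.le)
  let BX : J → Set ((ℤ × ℤ) × Om) := fun k => {z | x k (T (r k * z.1.1) z.2) ∉ E}
  let BP : J → Set ((ℤ × ℤ) × Om) := fun k =>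
    {z | (c (r k * z.1.1))⁻¹ * pi (P (r k * z.1.1) z.2) ∉ F}
  have hBX : ∀ k, (((nu i).prod (nu i)).prod ka) (BX k) ≤ eps := fun k =>
    pm_le _ _ _ _ fun l => le_trans ((hT (r k * l.1)).measure_preimage_le {y | x k y ∉ E}) (hxE k)
  have hBP : ∀ k, (((nu i).prod (nu i)).prod ka) (BP k) ≤ eps := fun k =>
    pm_le _ _ _ _ fun l => hc (r k * l.1)
  have hcov : {z : (ℤ × ℤ) × Om |
      ∑ k, P (r k * z.1.1) z.2 • x k (T (r k * z.1.1) z.2) = eta z.1.2 z.2 ∧
        x k0 (T (r k0 * z.1.1) z.2) ≠ 0}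
      ⊆ {z | z.1.1 ∈ ⋃ zz ∈ hZZ.toFinset, Sol zz (eta z.1.2 z.2)} ∪
        ⋃ k ∈ (Finset.univ : Finset J), (BX k ∪ BP k) := by
    rintro ⟨⟨d, d'⟩, y⟩ ⟨h1, h2⟩
    by_cases hb : ((d, d'), y) ∈ ⋃ k ∈ (Finset.univ : Finset J), (BX k ∪ BP k)
    · exact Or.inr hb
    left
    simp only [Set.mem_iUnion, Set.mem_union, not_exists, not_or, BX, BP, Set.mem_ofPred_eq,
      not_not, Finset.mem_univ, forall_const] at hb
    choose f hf hf1 using fun k => hB1 k d
    let q : J → G ⧸ K := fun k => f k * ((c (r k * d))⁻¹ * pi (P (r k * d) y))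
    let zz : J → Ga := fun k => (q k).out • x k (T (r k * d) y)
    have hzz : zz ∈ ZZ := ⟨fun k => Set.mem_image2_of_mem (Set.mul_mem_mul (hf k) (hb k).2) (hb k).1,
      (smul_ne_zero_iff_ne _).mpr h2⟩
    refine Set.mem_biUnion (hZZ.mem_toFinset.mpr hzz) ?_
    show ∑ k, ct d ^ r k • zz k = eta d' y
    refine Eq.trans (Finset.sum_congr rfl fun k _ => ?_) h1
    simp only [zz]
    rw [smul_smul]
    refine hpi _ _ _ (hFE _ (hb k).1) ?_
    rw [map_mul, map_zpow, hout, hpc]
    simp only [q]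
    rw [hf1 k]
    apply Additive.ofMul.injective
    simp only [ofMul_mul, ofMul_inv]
    abel
  have hfin : de ≤ eps + ∑ _k : J, (eps + eps) := by
    refine (hrel i).trans ((measure_mono hcov).trans ((measure_union_le _ _).trans
      (add_le_add hG ((measure_biUnion_finset_le _ _).trans (Finset.sum_le_sum fun k _ => ?_)))))
    exact (measure_union_le _ _).trans (add_le_add (hBX k) (hBP k))
  refine absurd hK (not_lt.mpr (hfin.trans ?_))
  have : eps + ∑ _k : J, (eps + eps) = eps * ((2 * Fintype.card J + 1 : ℕ) : ℝ≥0∞) := by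
    rw [Finset.sum_const, Finset.card_univ, nsmul_eq_mul]
    push_cast
    ring
  rw [this]
  gcongr
  omega

end FinAux

theorem xFin : FinS := by
  classical
  intro Ga _ _ Y _ m _ T hT P hPm C hC hPC hco ht nu _ J _ r hr hr0 k0 x eta hx heta de hde hrel hdec
  have hTz : ∀ n, MeasurePreserving (tz T n) m m := by
    intro n
    induction n using Int.induction_on with
    | zero => exact MeasurePreserving.id m
    | succ n ih =>
      have : tz T (n + 1) = tz T n ∘ T := by
        funext y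
        simp [tz, zpow_add_one]
      rw [this]
      exact ih.comp hT
    | pred n ih =>
      have : tz T (-n - 1) = tz T (-n) ∘ T.symm := by
        funext y
        simp only [tz, zpow_sub_one, Equiv.Perm.mul_apply, Function.comp_apply]
        rfl
      rw [this]
      exact ih.comp (hT.symm T)
  have hcm : IsMulCommutative (Subgroup.closure C) := Subgroup.isMulCommutative_closure hC
  let : CommGroup (Subgroup.closure C) :=
    { (inferInstance : Group (Subgroup.closure C)) with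
      mul_comm := fun a b => hcm.is_comm.comm a b }
  let P' : ℤ → Y → Subgroup.closure C := fun n y =>
    if h : P n y ∈ C then ⟨P n y, Subgroup.subset_closure h⟩ else 1
  have hall : ∀ᵐ y ∂m, ∀ n, (P' n y : Au Ga) = P n y := by
    filter_upwards [ae_all_iff.mpr hPC] with y hy n
    simp [P', hy n]
  have hsm : ∀ (g : Subgroup.closure C) (a : Ga), g • a = (g : Au Ga) a := fun _ _ => rfl
  have hsnd : ∀ i, ∀ᵐ z ∂((nu i).prod (nu i)).prod m, ∀ n, (P' n z.2 : Au Ga) = P n z.2 :=
    fun i => Measure.quasiMeasurePreserving_snd.ae hall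
  refine FinAux.core m (tz T) hTz P' ?_ ?_ nu r hr hr0 k0 x eta
    (fun k a => (hx k a).nullMeasurableSet) (fun d a => (heta d a).nullMeasurableSet) de hde ?_ ?_
  · intro n k
    filter_upwards [hco n k, hall, (hTz n).quasiMeasurePreserving.ae hall] with y h1 h2 h3
    apply Subtype.ext
    rw [Subgroup.coe_mul, h2, h2, h3, h1]
  · intro a eps he
    obtain ⟨F, hF⟩ := ht a eps he
    refine ⟨F, fun n => le_trans (le_of_eq (measure_congr ?_)) (hF n)⟩
    filter_upwards [Measure.quasiMeasurePreserving_fst.ae hall,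
      Measure.quasiMeasurePreserving_snd.ae hall] with p h1 h2
    show (((P' n p.2)⁻¹ * P' n p.1) • a ∉ F) = ((P n p.2)⁻¹ (P n p.1 a) ∉ F)
    rw [hsm, Subgroup.coe_mul, Subgroup.coe_inv, h1, h2]
    rfl
  · intro i
    refine le_trans (hrel i) (le_of_eq (measure_congr ?_))
    filter_upwards [hsnd i] with z hz
    show (_ ∧ _) = (_ ∧ _)
    simp only [hsm, hz]
  · intro a b hb
    refine (hdec a b hb).congr fun i => measure_congr ?_
    filter_upwards [hsnd i] with z hz
    show (_ = _) = (_ = _)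
    simp only [hsm, hz]

end Pool.Agent.MP_154433_an.T3A
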