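import Pool.Agent.MP_154433_an.t3a.Spec

set_option autoImplicit false

open MeasureTheory ProbabilityTheory Filter Topology Set
open scoped ENNReal

namespace Pool.Agent.MP_154433_an.T3A

namespace G3Aux

lemma cp_restrict {X Z : Type} [MeasurableSpace X] [MeasurableSpace Z] (ν : Measure X)
    [SFinite ν] (Φ : Kernel X Z) [IsMarkovKernel Φ] {s : Set X} (hs : MeasurableSet s) :
    (ν.restrict s) ⊗ₘ Φ = (ν ⊗ₘ Φ).restrict (s ×ˢ univ) := by
  ext t ht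
  rw [Measure.restrict_apply ht, Measure.compProd_apply ht,
    Measure.compProd_apply (ht.inter (hs.prod MeasurableSet.univ)), ← lintegral_indicator hs]
  refine lintegral_congr fun a => ?_
  by_cases ha : a ∈ s
  · rw [indicator_of_mem ha]
    congr 1
    ext b
    simp [ha]
  · rw [indicator_of_notMem ha]
    have : Prod.mk a ⁻¹' (t ∩ s ×ˢ (univ : Set Z)) = ∅ := by
      ext b
      simp [ha]
    rw [this, measure_empty]

variable {Ω V : Type} [MeasurableSpace Ω] [AddCommGroup V]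

lemma mass (A : Base Ω V) (κ : Kernel Ω Ω) [IsMarkovKernel κ] (Ip : Set Ω)
    (hI : MeasurableSet Ip) (Φ : Kernel (Ω × Ω) (Arr V)) [IsMarkovKernel Φ] {D : Set Ω}
    (hD : MeasurableSet D) : Lp A κ Ip Φ {z | z.1.1 ∈ D} = A.μ (D ∩ Ip) := by
  have h1 : ({z | z.1.1 ∈ D} : Set ((Ω × Ω) × Arr V)) = (D ×ˢ univ) ×ˢ univ := by
    ext z
    simp
  rw [Lp, h1, Measure.compProd_apply_prod (hD.prod MeasurableSet.univ) MeasurableSet.univ]
  simp only [measure_univ, lintegral_const, one_mul]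
  rw [Measure.restrict_apply MeasurableSet.univ, univ_inter,
    Measure.restrict_apply (hD.prod MeasurableSet.univ), prod_inter_prod, univ_inter,
    Measure.compProd_apply_prod (hD.inter hI) MeasurableSet.univ]
  simp

lemma iso_loop {N N' : AddSubgroup V} {S S' : Arr V} (h : Iso N N' S) (h' : Iso N N' S') :
    Iso N N (loop S S') where
  zero c hc c' hc' := ⟨0, h.zero c hc 0 N'.zero_mem, h'.zero c' hc' 0 N'.zero_mem⟩
  sub a a' b b' := fun ⟨e, h1, h2⟩ ⟨f, h3, h4⟩ =>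
    ⟨e - f, h.sub _ _ _ _ h1 h3, h'.sub _ _ _ _ h2 h4⟩
  totL c := by
    obtain ⟨e, h1⟩ := h.totL c
    obtain ⟨c', h2⟩ := h'.totR e
    exact ⟨c', e, h1, h2⟩
  totR c' := by
    obtain ⟨e, h2⟩ := h'.totL c'
    obtain ⟨c, h1⟩ := h.totR e
    exact ⟨c, e, h1, h2⟩
  iff c c' := fun ⟨e, h1, h2⟩ => (h.iff _ _ h1).trans (h'.iff _ _ h2).symm

end G3Aux

open G3Aux in
theorem xG3 : G3S := by
  intro Y Ω V _ _ _ _ B' B p κ' _ κ _ L' L Ip' Ip Φ' Φ e S S' hS hP' hP hpr hiso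
  have := hP.markov
  have := hP'.markov
  have hp := hS.ext.mp.measurable
  have h1 : B'.μ (p ⁻¹' Ipᶜ ∩ Ip') = 0 := by
    rw [← mass B'.toBase κ' Ip' hP'.mI Φ' (hp hP.mI.compl)]
    refine hP'.ac1 (hpr {z | z.1.1 ∈ Ipᶜ} (measurable_fst.fst hP.mI.compl) (hP.ac2 ?_))
    rw [mass B.toBase κ Ip hP.mI Φ hP.mI.compl]
    simp
  have h2 : ∀ᵐ z ∂(Lf B.toBase κ Φ), z.1.1 ∈ Ip → Iso (B.N z.1.1) (B.N z.1.2) z.2 := by
    have h3 := hP.ac1.ae_le hiso
    rw [Lp, cp_restrict _ _ (hP.mI.prod MeasurableSet.univ)] at h3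
    have h4 := (ae_restrict_iff' ((hP.mI.prod MeasurableSet.univ).prod MeasurableSet.univ)).1 h3
    filter_upwards [h4] with z hz hI
    exact hz ⟨⟨hI, trivial⟩, trivial⟩
  have h5 : ∀ i, ∀ᵐ y ∂B'.μ, p y ∈ Ip → Iso (B.N (p y)) (B.N (e i y)) (S i y) := fun i =>
    ae_of_ae_map ((hp.prodMk (hS.me i)).prodMk (hS.mS i)).aemeasurable (by rwa [hS.law i])
  have h6 : ∀ i, ∀ᵐ y ∂B'.μ, p y ∈ Ip → Iso (B.N (p y)) (B.N (e i y)) (S' i y) := fun i =>
    ae_of_ae_map ((hp.prodMk (hS.me i)).prodMk (hS.mS' i)).aemeasurable (by rwa [hS.law' i])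
  filter_upwards [measure_eq_zero_iff_ae_notMem.1 h1, ae_all_iff.2 h5, ae_all_iff.2 h6]
    with y a1 a2 a3 hy i
  have hI : p y ∈ Ip := by
    by_contra h
    exact a1 ⟨h, hy⟩
  rw [hS.ext.hN]
  exact iso_loop (a2 i hI) (a3 i hI)

end Pool.Agent.MP_154433_an.T3A
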