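import Pool.Agent.MP_154433_an.t3a.Spec

set_option autoImplicit false

open MeasureTheory ProbabilityTheory Filter Topology Set
open scoped ENNReal

namespace Pool.Agent.MP_154433_an.T3A

namespace G4Aux

lemma meas2 {V : Type} (a b : V × V) : MeasurableSet {R : Arr V | a ∈ R ∧ b ∈ R} :=
  (measurableSet_memA measurable_id a).inter (measurableSet_memA measurable_id b)

lemma measE {X V : Type} [MeasurableSpace X] (Φ : Kernel X (Arr V)) (a b : V × V) :
    MeasurableSet {z : X × Arr V | (a ∈ z.2 ∧ b ∈ z.2) ∧ Φ z.1 {R | a ∈ R ∧ b ∈ R} = 0} :=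
  (measurable_snd (meas2 a b)).inter
    (((Φ.measurable_coe (meas2 a b)).comp measurable_fst) (measurableSet_singleton 0))

lemma nullE {X V : Type} [MeasurableSpace X] (m : Measure X) [SFinite m] (Φ : Kernel X (Arr V))
    [IsMarkovKernel Φ] (a b : V × V) :
    (m ⊗ₘ Φ) {z : X × Arr V | (a ∈ z.2 ∧ b ∈ z.2) ∧ Φ z.1 {R | a ∈ R ∧ b ∈ R} = 0} = 0 := by
  rw [Measure.compProd_apply (measE Φ a b)]
  refine (lintegral_congr fun x => ?_).trans lintegral_zero
  by_cases h : Φ x {R | a ∈ R ∧ b ∈ R} = 0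
  · exact measure_mono_null (fun R hR => hR.1) h
  · exact measure_mono_null (fun R hR => (h hR.2).elim) measure_empty

end G4Aux

theorem xG4 : G4S := by
  intro Y Ω V _ _ _ _ B' B p κ' _ κ _ L' L Ip' Ip Φ' Φ e S S' hS h' h hL hm
  have hp : Measurable p := hS.ext.mp.measurable
  have := h.markov
  refine ⟨?_, ?_⟩
  · have key : ∀ a b : V × V, ∀ᵐ z ∂(Lp B'.toBase κ' Ip' Φ'), a ∈ z.2 → b ∈ z.2 →
        Φ (p z.1.1, p z.1.2) {R | a ∈ R ∧ b ∈ R} ≠ 0 := fun a b => by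
      have h0 := h'.ac1 (hL _ (G4Aux.measE Φ a b) (h.ac2 (G4Aux.nullE _ Φ a b)))
      filter_upwards [measure_eq_zero_iff_ae_notMem.1 h0] with z hz ha hb h1
      exact hz ⟨⟨ha, hb⟩, h1⟩
    filter_upwards [ae_all_iff.2 fun a => ae_all_iff.2 fun b => key a b] with z hz a ha b hb
    exact hz a b ha hb
  · refine ae_all_iff.2 fun a => ae_all_iff.2 fun b => ae_all_iff.2 fun a' =>
      ae_all_iff.2 fun b' => ?_
    obtain ⟨D, h1, h2⟩ := hS.hit _ _ (G4Aux.meas2 a b) (G4Aux.meas2 a' b')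
    rw [← hm] at h1
    have h3 := ae_of_ae_map (hp.prodMap hp).aemeasurable h1
    rw [← Measure.fst_compProd B'.μ κ'] at h2
    have h4 := ae_of_ae_map measurable_fst.aemeasurable h2
    filter_upwards [h3, h4] with z h5 h6 u v ea eb
    obtain ⟨i, w1, w2⟩ := h6 (h5 u v)
    exact ⟨i, ⟨a.2, w1.1, ea ▸ w2.1⟩, ⟨b.2, w1.2, eb ▸ w2.2⟩⟩

end Pool.Agent.MP_154433_an.T3A
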