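import Pool.Agent.MP_154433_an.t3a.Spec

/-! Row Ka: first properties of the kernel of invariant components. -/

set_option autoImplicit false

open MeasureTheory ProbabilityTheory Filter Topology Set
open scoped ENNReal

namespace Pool.Agent.MP_154433_an.T3A

namespace KaAux

variable {Ω : Type} [MeasurableSpace Ω] {μ : Measure Ω} {T : Ω ≃ᵐ Ω} {κ : Kernel Ω Ω}

theorem not_lt {f g : Ω → ℝ≥0∞} (hf : Measurable f)
    (hg : Measurable g) (h0 : ∫⁻ y in {y | f y < g y}, f y ∂μ ≠ ∞)
    (h : ∫⁻ y in {y | f y < g y}, f y ∂μ = ∫⁻ y in {y | f y < g y}, g y ∂μ) :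
    ∀ᵐ y ∂μ, ¬f y < g y := by
  have hm : MeasurableSet {y | f y < g y} := measurableSet_lt hf hg
  have := ae_eq_of_ae_le_of_lintegral_le (μ := μ.restrict {y | f y < g y})
    ((ae_restrict_mem hm).mono fun y hy => le_of_lt hy) h0 hg.aemeasurable h.ge
  filter_upwards [(ae_restrict_iff' hm).1 this] with y hy c
  exact c.ne (hy c)

/-- the defining identity on an invariant set -/
theorem onInv (h : ErgK μ T κ) {C A : Set Ω} (hC : MeasurableSet C) (hi : T ⁻¹' C = C)
    (hA : MeasurableSet A) : ∫⁻ y in C, κ y A ∂μ = μ (A ∩ C) := by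
  have := h.int (C.indicator 1) (measurable_one.indicator hC) (fun y => by
    conv_rhs => rw [← hi]
    rfl) _ hA
  rw [lintegral_indicator_one hC, Measure.restrict_apply hC, inter_comm] at this
  rw [← this, ← lintegral_indicator hC]
  refine lintegral_congr fun y => ?_
  by_cases hy : y ∈ C <;> simp [hy]

theorem pre [IsProbabilityMeasure μ] (hT : MeasurePreserving T μ μ) (h : ErgK μ T κ) {A : Set Ω}
    (hA : MeasurableSet A) : ∀ᵐ y ∂μ, κ y (T ⁻¹' A) = κ y A := by
  have hA' := T.measurable hA
  have mf : Measurable fun y => κ y (T ⁻¹' A) := κ.measurable_coe hA'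
  have mg : Measurable fun y => κ y A := κ.measurable_coe hA
  have e : ∀ C, MeasurableSet C → T ⁻¹' C = C →
      ∫⁻ y in C, κ y (T ⁻¹' A) ∂μ = μ (A ∩ C) ∧ ∫⁻ y in C, κ y A ∂μ = μ (A ∩ C) :=
    fun C hC hi => by
      refine ⟨?_, onInv h hC hi hA⟩
      rw [onInv h hC hi hA', ← hT.measure_preimage (hA.inter hC).nullMeasurableSet,
        preimage_inter, hi]
  have e1 := e _ (measurableSet_lt mf mg) (by ext y; simp [h.inv])
  have e2 := e _ (measurableSet_lt mg mf) (by ext y; simp [h.inv])
  filter_upwards [not_lt mf mg (e1.1 ▸ measure_ne_top _ _) (e1.1.trans e1.2.symm),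
    not_lt mg mf (e2.2 ▸ measure_ne_top _ _) (e2.2.trans e2.1.symm)] with y a b
  exact le_antisymm (le_of_not_gt b) (le_of_not_gt a)

end KaAux

theorem xKa : KaS := by
  intro Ω _ _ μ _ T κ hT h
  have := h.markov
  refine ⟨?_, ?_, fun B hB hi => ?_⟩
  · ext A hA
    rw [Measure.bind_apply hA κ.aemeasurable]
    have := KaAux.onInv h MeasurableSet.univ preimage_univ hA
    simpa using this
  · have : IsMarkovKernel (κ.map T) := Kernel.IsMarkovKernel.map κ T.measurable
    have e : μ ⊗ₘ (κ.map T) = μ ⊗ₘ κ := by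
      refine Measure.ext_prod fun {s t} hs ht => ?_
      rw [Measure.compProd_apply_prod hs ht, Measure.compProd_apply_prod hs ht]
      refine lintegral_congr_ae (ae_restrict_of_ae ?_)
      filter_upwards [KaAux.pre hT h ht] with y hy
      rw [Kernel.map_apply' κ T.measurable y ht, hy]
    filter_upwards [Kernel.ae_eq_of_compProd_eq e] with a ha
    exact ⟨T.measurable, by rw [← Kernel.map_apply κ T.measurable, ha]⟩
  · have e := KaAux.onInv h hB hi hB.compl
    rw [compl_inter_self, measure_empty,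
      lintegral_eq_zero_iff (κ.measurable_coe hB.compl)] at e
    exact (ae_restrict_iff' hB).1 e

end Pool.Agent.MP_154433_an.T3A
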