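import Pool.Agent.MP_154433_an.t3a.Spec

set_option autoImplicit false

open MeasureTheory ProbabilityTheory Filter Topology Set
open scoped ENNReal

namespace Pool.Agent.MP_154433_an.T3A

theorem xKb : KbS := by
  intro Ω _ μ _ T κ hT K hm
  have := K.markov
  refine ⟨Measure.ext_prod fun {A B} hA hB => ?_, fun i j => ?_⟩
  · rw [Measure.bind_apply (hA.prod hB) (Kernel.aemeasurable _), Measure.compProd_apply_prod hA hB,
      ← K.int (fun y => κ y B) (κ.measurable_coe hB) (fun y => by simp only [K.inv]) A hA]
    refine lintegral_congr fun y => ?_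
    rw [Kernel.prod_apply, Measure.prod_prod, mul_comm]
  · have hme : Measurable (Prod.map (tz T i) (tz T j)) :=
      (measurable_tz T i).prodMap (measurable_tz T j)
    refine ⟨hme, Measure.ext_prod fun {A B} hA hB => ?_⟩
    rw [Measure.map_apply hme (hA.prod hB), Set.preimage_prod_map_prod,
      Measure.compProd_apply_prod (measurable_tz T i hA) (measurable_tz T j hB),
      Measure.compProd_apply_prod hA hB,
      ← (mp_tz hT i).setLIntegral_comp_preimage hA (κ.measurable_coe hB)]
    refine lintegral_congr_ae (ae_restrict_of_ae (hm.mono fun y hy => ?_))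
    simp only
    rw [inv_tz (f := fun y => κ y) K.inv i y, (mp_tz hy j).measure_preimage hB.nullMeasurableSet]

end Pool.Agent.MP_154433_an.T3A
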