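import Pool.Agent.MP_154433_an.t3a.Spec

/-! Row Kd: the kernels of invariant components are compatible with factor maps. -/

set_option autoImplicit false

open MeasureTheory ProbabilityTheory Filter Topology Set
open scoped ENNReal

namespace Pool.Agent.MP_154433_an.T3A

namespace KdAux

/-- a strictly invariant version of an almost invariant function -/
theorem strict {Ω : Type} [MeasurableSpace Ω] {μ : Measure Ω} {T : Ω → Ω}
    (hT : MeasurePreserving T μ μ) {g : Ω → ℝ≥0∞} (hg : Measurable g)
    (h : (fun x => g (T x)) =ᵐ[μ] g) :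
    ∃ g' : Ω → ℝ≥0∞, Measurable g' ∧ (∀ x, g' (T x) = g' x) ∧ g' =ᵐ[μ] g := by
  refine ⟨fun x => limsup (fun n => g (T^[n] x)) atTop,
    Measurable.limsup fun n => hg.comp (hT.measurable.iterate n), fun x => ?_, ?_⟩
  · exact limsup_nat_add (fun n => g (T^[n] x)) 1
  · have : ∀ n, ∀ᵐ x ∂μ, g (T^[n] x) = g x := fun n => by
      induction n with
      | zero => exact .of_forall fun _ => rfl
      | succ n ih =>
        filter_upwards [ih, (hT.iterate n).quasiMeasurePreserving.ae h] with x a b
        rw [Function.iterate_succ_apply', b, a]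
    filter_upwards [ae_all_iff.2 this] with x hx
    simp only [hx, limsup_const]

theorem not_lt {Y : Type} [MeasurableSpace Y] {μ : Measure Y} {f g : Y → ℝ≥0∞} (hf : Measurable f)
    (hg : Measurable g) (h0 : ∫⁻ y in {y | f y < g y}, f y ∂μ ≠ ∞)
    (h : ∫⁻ y in {y | f y < g y}, f y ∂μ = ∫⁻ y in {y | f y < g y}, g y ∂μ) :
    ∀ᵐ y ∂μ, ¬f y < g y := by
  have hm : MeasurableSet {y | f y < g y} := measurableSet_lt hf hg
  have := ae_eq_of_ae_le_of_lintegral_le (μ := μ.restrict {y | f y < g y})
    ((ae_restrict_mem hm).mono fun y hy => le_of_lt hy) h0 hg.aemeasurable h.ge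
  filter_upwards [(ae_restrict_iff' hm).1 this] with y hy c
  exact c.ne (hy c)

end KdAux

theorem xKd : KdS := by
  intro Y Ω _ _ μ' _ μ _ T' T κ' κ p hT' hT h' h hp hc
  have := h'.markov
  have := h.markov
  have key : ∀ B, MeasurableSet B → ∀ᵐ y ∂μ', κ' y (p ⁻¹' B) = κ (p y) B := fun B hB => by
    have hB' := hp.measurable hB
    have mf : Measurable fun y => κ' y (p ⁻¹' B) := κ'.measurable_coe hB'
    have mk : Measurable fun x => κ x B := κ.measurable_coe hB
    have mg : Measurable fun y => κ (p y) B := mk.comp hp.measurable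
    have e : ∀ C, MeasurableSet C → T' ⁻¹' C = C →
        ∫⁻ y in C, κ' y (p ⁻¹' B) ∂μ' = μ' (p ⁻¹' B ∩ C) ∧
        ∫⁻ y in C, κ (p y) B ∂μ' = μ' (p ⁻¹' B ∩ C) := fun C hC hi => by
      constructor
      · have := h'.int (C.indicator 1) (measurable_one.indicator hC) (fun y => by
          conv_rhs => rw [← hi]
          rfl) _ hB'
        rw [lintegral_indicator_one hC, Measure.restrict_apply hC, inter_comm] at this
        rw [← this, ← lintegral_indicator hC]
        refine lintegral_congr fun y => ?_
        by_cases c : y ∈ C <;> simp [c]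
      · let m := (μ'.restrict C).map p
        have ac : m ≪ μ := by
          rw [← hp.map_eq]
          exact Measure.absolutelyContinuous_of_le
            (Measure.map_mono Measure.restrict_le_self hp.measurable)
        have mi : m.map T = m := by
          have e1 : (μ'.restrict C).map T' = μ'.restrict C := by
            have := (hT'.restrict_preimage hC).map_eq
            rwa [hi] at this
          rw [Measure.map_map T.measurable hp.measurable,
            show T ∘ p = p ∘ T' from funext fun y => (hc y).symm,
            ← Measure.map_map hp.measurable T'.measurable, e1]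
        have r := T.measurableEmbedding.rnDeriv_map m μ
        rw [mi, hT.map_eq] at r
        obtain ⟨g, g1, g2, g3⟩ := KdAux.strict hT (Measure.measurable_rnDeriv m μ) r
        have wd : μ.withDensity g = m := by
          rw [withDensity_congr_ae g3, Measure.withDensity_rnDeriv_eq _ _ ac]
        rw [← lintegral_map mk hp.measurable, ← Measure.restrict_apply hB',
          ← Measure.map_apply hp.measurable hB]
        change ∫⁻ x, κ x B ∂m = m B
        rw [← wd, lintegral_withDensity_eq_lintegral_mul _ g1 mk, withDensity_apply _ hB]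
        exact h.int g g1 g2 B hB
    have e1 := e _ (measurableSet_lt mf mg) (by ext y; simp [h'.inv, hc, h.inv])
    have e2 := e _ (measurableSet_lt mg mf) (by ext y; simp [h'.inv, hc, h.inv])
    filter_upwards [KdAux.not_lt mf mg (e1.1 ▸ measure_ne_top _ _) (e1.1.trans e1.2.symm),
      KdAux.not_lt mg mf (e2.2 ▸ measure_ne_top _ _) (e2.2.trans e2.1.symm)] with y a b
    exact le_antisymm (not_lt.1 b) (not_lt.1 a)
  have := Measure.isProbabilityMeasure_map (μ := μ' ⊗ₘ κ')
    (hp.measurable.prodMap hp.measurable).aemeasurable
  refine Measure.ext_prod fun {A B} hA hB => ?_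
  rw [Measure.map_apply (hp.measurable.prodMap hp.measurable) (hA.prod hB), preimage_prod_map_prod,
    Measure.compProd_apply_prod (hp.measurable hA) (hp.measurable hB),
    Measure.compProd_apply_prod hA hB, lintegral_congr_ae (ae_restrict_of_ae (key B hB))]
  exact hp.setLIntegral_comp_preimage hA (κ.measurable_coe hB)

end Pool.Agent.MP_154433_an.T3A
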