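import Pool.Agent.MP_154433_an.t3a.Spec

/-! The mixture of the source shifts of the limit law. -/

set_option autoImplicit false

open MeasureTheory ProbabilityTheory Filter Topology Set
open scoped ENNReal

namespace Pool.Agent.MP_154433_an.T3A

namespace LamAux

variable {Ω V : Type} [MeasurableSpace Ω] [AddCommGroup V] (A : Base Ω V)
  (w : Measure ((Ω × Ω) × Arr V)) {E : Set ((Ω × Ω) × Arr V)}

theorem apply (hE : MeasurableSet E) : Lam A w E = ∑' i : ℤ, (2 : ℝ≥0∞)⁻¹ ^ i.natAbs *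
    w ({z | ((0 : V), (0 : V)) ∈ z.2} ∩ A.sA i 0 ⁻¹' E) := by
  rw [Lam, Measure.sum_apply _ hE]
  refine tsum_congr fun i => ?_
  rw [Measure.smul_apply, smul_eq_mul, Measure.map_apply (A.measurable_sA i 0) hE,
    Measure.restrict_apply (A.measurable_sA i 0 hE), inter_comm]

theorem nul (hE : MeasurableSet E) : Lam A w E = 0 ↔
    ∀ i, w ({z | ((0 : V), (0 : V)) ∈ z.2} ∩ A.sA i 0 ⁻¹' E) = 0 := by
  rw [apply A w hE, ENNReal.tsum_eq_zero]
  exact forall_congr' fun i => mul_eq_zero.trans (or_iff_right (by simp))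

theorem pre (i j k l : ℤ) : A.sA k l ⁻¹' (A.sA i j ⁻¹' E) = A.sA (i + k) (j + l) ⁻¹' E :=
  Set.ext fun z => by rw [mem_preimage, mem_preimage, A.sA_sA, mem_preimage]

theorem diag (h : w.map (A.sA 1 1) = w) (hE : MeasurableSet E) {i j i' j' : ℤ} (n : ℤ)
    (hi : i' = i + n) (hj : j' = j + n) :
    w ({z | ((0 : V), (0 : V)) ∈ z.2} ∩ A.sA i' j' ⁻¹' E) =
      w ({z | ((0 : V), (0 : V)) ∈ z.2} ∩ A.sA i j ⁻¹' E) := by
  rw [← (A.mp_sA ⟨A.measurable_sA 1 1, h⟩ n).measure_preimage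
    ((measurableSet_memA measurable_snd _).inter (A.measurable_sA i j hE)).nullMeasurableSet,
    preimage_inter, pre, hi, hj]
  congr 2
  ext z
  simp

theorem geo : ∑' i : ℤ, (2 : ℝ≥0∞)⁻¹ ^ i.natAbs < ∞ := by
  rw [tsum_of_nat_of_neg_add_one ENNReal.summable ENNReal.summable]
  have h : ∑' n : ℕ, (2 : ℝ≥0∞)⁻¹ ^ n < ∞ := by rw [ENNReal.tsum_geometric_two]; simp
  refine ENNReal.add_lt_top.2 ⟨by simp, lt_of_le_of_lt (ENNReal.tsum_le_tsum fun n =>
    pow_le_pow_right_of_le_one' (by simp) (by omega)) h⟩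

end LamAux

open LamAux in
theorem xLam : LamS := by
  intro Ω V _ _ _ A κ w _ hκ h1 h2
  refine ⟨⟨?_⟩, ?_, fun i j E hE h => ?_, ?_, fun E hE => nul A w hE⟩
  · rw [apply A w MeasurableSet.univ]
    exact lt_of_le_of_lt (ENNReal.tsum_le_tsum fun i => mul_le_of_le_one_right' prob_le_one) geo
  · ext E hE
    rw [Measure.map_apply (A.measurable_sA 1 1) hE, apply A w hE,
      apply A w (A.measurable_sA 1 1 hE)]
    refine tsum_congr fun i => ?_
    rw [pre, diag A w h1 hE 1 (add_comm 1 i) (add_comm 1 0)]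
  · refine (nul A w (A.measurable_sA i j hE)).2 fun k => ?_
    rw [pre, diag A w h1 hE j (sub_add_cancel (i + k) j).symm (add_comm j 0)]
    exact (nul A w hE).1 h _
  · refine Measure.AbsolutelyContinuous.mk fun E hE h => ?_
    rw [Measure.map_apply measurable_fst hE]
    refine (nul A w (measurable_fst hE)).2 fun i => measure_mono_null inter_subset_right ?_
    have h3 := h2 (((hκ.shift i 0).measure_preimage hE.nullMeasurableSet).trans h)
    rwa [Measure.map_apply measurable_fst ((hκ.shift i 0).measurable hE)] at h3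

end Pool.Agent.MP_154433_an.T3A
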