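import Pool.Agent.MP_154433_an.t3a.Spec

set_option autoImplicit false

open MeasureTheory ProbabilityTheory Filter Topology Set
open scoped ENNReal symmDiff

namespace Pool.Agent.MP_154433_an.T3A

namespace LeAux

variable {X X' : Type} [MeasurableSpace X] [MeasurableSpace X']

lemma semi : IsSetSemiring
    (image2 (· ×ˢ ·) {s : Set X | MeasurableSet s} {t : Set X' | MeasurableSet t}) where
  empty_mem := ⟨∅, MeasurableSet.empty, ∅, MeasurableSet.empty, by simp⟩
  inter_mem := by
    rintro _ ⟨A, hA, B, hB, rfl⟩ _ ⟨A', hA', B', hB', rfl⟩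
    exact ⟨_, MeasurableSet.inter hA hA', _, MeasurableSet.inter hB hB', prod_inter_prod.symm⟩
  sdiff_eq_sUnion' := by
    classical
    rintro _ ⟨A, hA, B, hB, rfl⟩ _ ⟨A', hA', B', hB', rfl⟩
    refine ⟨{(A \ A') ×ˢ B, (A ∩ A') ×ˢ (B \ B')}, ?_, ?_, ?_⟩
    · rw [Finset.coe_pair]
      rintro _ (rfl | rfl)
      exacts [⟨_, MeasurableSet.diff hA hA', _, hB, rfl⟩,
        ⟨_, MeasurableSet.inter hA hA', _, MeasurableSet.diff hB hB', rfl⟩]
    · rw [Finset.coe_pair]
      refine (pairwiseDisjoint_singleton _ _).insert ?_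
      rintro _ rfl _
      exact Set.disjoint_left.2 fun z h h' => h.1.2 h'.1.2
    · ext z
      simp only [Finset.coe_pair, sUnion_pair, mem_union, Set.mem_prod, Set.mem_sdiff, mem_inter_iff]
      tauto

end LeAux

theorem xLe : LeS := by
  intro X X' _ _ a b _ _ h
  refine Measure.le_iff.2 fun s hs => ENNReal.le_of_forall_pos_le_add fun ε hε _ => ?_
  obtain ⟨t, ht, h1⟩ := exists_measure_symmDiff_lt_of_generateFrom_isSetSemiring (μ := a + b)
    LeAux.semi ⟨{univ}, countable_singleton _, singleton_subset_iff.2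
      ⟨univ, MeasurableSet.univ, univ, MeasurableSet.univ, by simp⟩, by simp⟩
    generateFrom_prod.symm hs (ε := ε) (by exact_mod_cast hε)
  obtain ⟨P, hP⟩ := LeAux.semi.mem_supClosure_iff.1 ht
  have mP : ∀ u ∈ P.parts, MeasurableSet u := fun u hu => by
    obtain ⟨A, hA, B, hB, rfl⟩ := hP hu
    exact MeasurableSet.prod hA hB
  have e : t = ⋃ u ∈ P.parts, id u := P.sup_parts.symm.trans (Finset.sup_set_eq_biUnion _ _)
  have h2 : a t ≤ b t := by
    rw [e, measure_biUnion_finset P.disjoint mP, measure_biUnion_finset P.disjoint mP]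
    refine Finset.sum_le_sum fun u hu => ?_
    obtain ⟨A, hA, B, hB, rfl⟩ := hP hu
    exact h A B hA hB
  have h3 : a s ≤ a t + a (t ∆ s) :=
    (measure_mono fun z hz => by by_cases c : z ∈ t <;> simp [mem_symmDiff, c, hz]).trans
      (measure_union_le _ _)
  have h4 : b t ≤ b s + b (t ∆ s) :=
    (measure_mono fun z hz => by by_cases c : z ∈ s <;> simp [mem_symmDiff, c, hz]).trans
      (measure_union_le _ _)
  rw [Measure.add_apply] at h1
  calc a s ≤ b s + b (t ∆ s) + a (t ∆ s) := h3.trans (by gcongr; exact h2.trans h4)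
    _ = b s + (a (t ∆ s) + b (t ∆ s)) := by ring
    _ ≤ b s + ε := by gcongr

end Pool.Agent.MP_154433_an.T3A
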