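import Pool.Agent.MP_154433_an.t3a.Spec

set_option autoImplicit false

open MeasureTheory ProbabilityTheory Filter Topology Set
open scoped ENNReal

namespace Pool.Agent.MP_154433_an.T3A

namespace PrjAux

variable {Y Ω V : Type} [MeasurableSpace Y] [MeasurableSpace Ω] [AddCommGroup V]

omit [AddCommGroup V] in
theorem cyl {p : Y → Ω} (hp : Measurable p) {E : Set ((Ω × Ω) × Arr V)} (h : Cyl E) :
    Cyl (proj p ⁻¹' E : Set ((Y × Y) × Arr V)) := by
  induction h with
  | fst A hA => exact Cyl.fst _ (hp hA)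
  | snd A hA => exact Cyl.snd _ (hp hA)
  | mem q => exact Cyl.mem q
  | compl E _ ih => exact Cyl.compl _ ih
  | inter E E' _ _ ih ih' => exact Cyl.inter _ _ ih ih'

theorem lab {B' : Bun Y V} {B : Bun Ω V} {p : Y → Ω} (h : Ext B' B p) (M : ℕ)
    {E : Set ((Ω × Ω) × Arr V)} (hE : MeasurableSet E) :
    B'.P M (B'.pt M ⁻¹' (proj p ⁻¹' E)) = B.P M (B.pt M ⁻¹' E) := by
  have h1 : MeasurePreserving (Prod.map id p) (B'.P M) (B.P M) := by
    unfold Bun.P PM
    rw [h.hν]
    exact (MeasurePreserving.id _).prod h.mp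
  rw [← h1.measure_preimage (B.measurable_pt M hE).nullMeasurableSet]
  refine congrArg _ ?_
  ext z
  simp only [mem_preimage, Bun.pt, proj, Prod.map_fst, Prod.map_snd, id, h.hS, h.hr,
    comm_tz h.comm]

theorem sA {B' : Bun Y V} {B : Bun Ω V} {p : Y → Ω} (h : Ext B' B p) (i j : ℤ)
    (z : (Y × Y) × Arr V) : proj p (B'.sA i j z) = B.sA i j (proj p z) := by
  simp only [Base.sA_apply, proj, h.hσ, comm_tz h.comm]

end PrjAux

theorem xPrj : PrjS := by
  intro hext Y Ω V _ _ _ _ B' B p κ' κ w' w h hw' hw hL' hL E hE h0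
  have hp := h.mp.measurable
  have hpr : Measurable (proj p : (Y × Y) × Arr V → (Ω × Ω) × Arr V) := measurable_proj hp
  have := hw.1
  have hmap : w = w'.map (proj p) := by
    refine hext Ω (V × V) w _ fun F hF => ?_
    rw [Measure.map_apply hpr hF.meas]
    have h1 := hw'.2 _ (PrjAux.cyl hp hF)
    simp only [PrjAux.lab h _ hF.meas, h.hU] at h1
    exact tendsto_nhds_unique (hw.2 F hF) h1
  refine (hL'.nul _ (hpr hE)).2 fun i => ?_
  have h2 := (hL.nul E hE).1 h0 i
  rw [hmap, Measure.map_apply hpr ((measurableSet_memA measurable_snd _).inter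
    (B.measurable_sA i 0 hE))] at h2
  rw [← h2]
  refine congrArg _ ?_
  ext z
  simp only [mem_inter_iff, mem_preimage, PrjAux.sA h]
  rfl

end Pool.Agent.MP_154433_an.T3A
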