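import Pool.Agent.MP_154433_an.t3a.Spec

set_option autoImplicit false

open MeasureTheory ProbabilityTheory Filter Topology Set
open scoped ENNReal

namespace Pool.Agent.MP_154433_an.T3A

theorem xPsi : PsiS := by
  intro mk Ω V Γ _ _ _ _ _ A θ h
  choose Ψ m e using fun n : ℤ => mk Ω Γ
    (fun y => {p | ∃ c, θ (tz A.T n y) c = p.1 ∧ θ y (sz A.σ n c) = p.2})
    (measurable_set_iff.2 fun p => Measurable.exists fun c =>
      (measurableSet_setOfPred.1 (measurable_tz A.T n (h.mθ c p.1))).and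
        (measurableSet_setOfPred.1 (h.mθ (sz A.σ n c) p.2)))
  have sur := fun n : ℤ => (mp_tz A.mp n).quasiMeasurePreserving.ae h.sur
  have df : ∀ᵐ y ∂A.μ, ∀ n c, Ψ n y (θ (tz A.T n y) c) = θ y (sz A.σ n c) := by
    filter_upwards [h.sur, ae_all_iff.2 sur] with y h0 h1 n c
    refine (e n y ⟨?_, ?_, fun ξ => ?_, fun ξ => ?_, ?_⟩ _ _).2 ⟨c, rfl, rfl⟩
    · intro a ha b hb
      exact ⟨0, by rw [map_zero, AddSubgroup.mem_bot.1 ha], by
        rw [sz_map_zero, map_zero, AddSubgroup.mem_bot.1 hb]⟩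
    · rintro _ _ _ _ ⟨a, a1, a2⟩ ⟨b, b1, b2⟩
      exact ⟨a - b, by rw [map_sub, a1, b1], by rw [sz_map_sub, map_sub, a2, b2]⟩
    · obtain ⟨a, rfl⟩ := (h1 n).1 ξ
      exact ⟨_, a, rfl, rfl⟩
    · obtain ⟨a, rfl⟩ := h0.1 ξ
      exact ⟨_, sz A.σ (-n) a, rfl, by rw [sz_sz_neg]⟩
    · rintro _ _ ⟨a, a1, a2⟩
      dsimp only at a1 a2
      rw [AddSubgroup.mem_bot, AddSubgroup.mem_bot, ← a1, ← a2, (h1 n).2, h0.2, A.eqz]
  refine ⟨Ψ, m, df, fun n k => ?_⟩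
  filter_upwards [df, (mp_tz A.mp n).quasiMeasurePreserving.ae df, sur (n + k)] with y h0 h1 h2
  refine LinearEquiv.ext fun ξ => ?_
  obtain ⟨c, rfl⟩ := h2.1 ξ
  rw [h0, LinearEquiv.mul_apply, add_comm n k, tz_add, h1, h0, add_comm k n, sz_add]

end Pool.Agent.MP_154433_an.T3A
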