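import Pool.Agent.MP_154433_an.t3a.Spec

set_option autoImplicit false

open MeasureTheory ProbabilityTheory Filter Topology Set
open scoped ENNReal

namespace Pool.Agent.MP_154433_an.T3A

namespace PullAux

variable {Y Ω V : Type} [MeasurableSpace Y] [MeasurableSpace Ω] [AddCommGroup V]
  {B' : Bun Y V} {B : Bun Ω V} {p : Y → Ω}

lemma P_eq (h : Ext B' B p) (M : ℕ) {E' : Set ((ℤ × ℤ) × Y)} {E : Set ((ℤ × ℤ) × Ω)}
    (hE : MeasurableSet E) (he : ∀ z, z ∈ E' ↔ (z.1, p z.2) ∈ E) : B'.P M E' = B.P M E := by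
  have e : E' = Prod.map id p ⁻¹' E := Set.ext he
  rw [e, Bun.P, Bun.P, h.hν]
  exact ((MeasurePreserving.id _).prod h.mp).measure_preimage hE.nullMeasurableSet

lemma pt_eq (h : Ext B' B p) (M : ℕ) (z : (ℤ × ℤ) × Y) :
    B.pt M (z.1, p z.2) = proj p (B'.pt M z) := by
  simp only [Bun.pt, proj, comm_tz h.comm, h.hr, h.hS]

lemma Ppt (h : Ext B' B p) (M : ℕ) {Q' : (Y × Y) × Arr V → Prop} {Q : (Ω × Ω) × Arr V → Prop}
    (hE : Measurable Q) (he : ∀ a, Q' a ↔ Q (proj p a)) :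
    B'.P M (B'.pt M ⁻¹' {a | Q' a}) = B.P M (B.pt M ⁻¹' {a | Q a}) :=
  P_eq h M (B.measurable_pt M (measurableSet_setOfPred.2 hE)) fun z => by
    rw [mem_preimage, mem_preimage, pt_eq h]
    exact he _

lemma nul_iff (h : Ext B' B p) {E' : ℕ → Set ((ℤ × ℤ) × Y)} {E : ℕ → Set ((ℤ × ℤ) × Ω)}
    (he : ∀ M, B'.P M (E' M) = B.P M (E M)) : B'.Nul E' ↔ B.Nul E := by
  simp only [Bun.Nul, he, h.hU]

lemma m1 (B : Bun Ω V) (c : V) : Measurable fun a : (Ω × Ω) × Arr V => c ∈ B.N a.1.1 :=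
  (measurableSet_setOfPred.1 (B.mN c)).comp measurable_fst.fst

lemma m2 (B : Bun Ω V) (c : V) : Measurable fun a : (Ω × Ω) × Arr V => c ∈ B.N a.1.2 :=
  (measurableSet_setOfPred.1 (B.mN c)).comp measurable_fst.snd

lemma m3 (q : V × V) : Measurable fun a : (Ω × Ω) × Arr V => q ∈ a.2 :=
  (measurable_set_mem q).comp measurable_snd

lemma h0_iff [Countable V] (h : Ext B' B p) : H0 B' ↔ H0 B := by
  have e0 : Mix B'.ν B'.U ↔ Mix B.ν B.U := by rw [h.hν, h.hU]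
  have e1 := fun c c' : V => nul_iff h fun M => Ppt h M
    (Q' := fun a => c ∈ B'.N a.1.1 ∧ c' ∈ B'.N a.1.2 ∧ ((0 : V), (0 : V)) ∈ a.2 ∧ (c, c') ∉ a.2)
    ((m1 B c).and ((m2 B c').and ((m3 ((0 : V), (0 : V))).and (m3 (c, c')).not)))
    fun a => by simp only [proj, h.hN]
  have e2 := fun c c' e e' : V => nul_iff h fun M => Ppt h M
    (Q' := fun a => (c, c') ∈ a.2 ∧ (e, e') ∈ a.2 ∧ (c - e, c' - e') ∉ a.2)
    ((m3 (c, c')).and ((m3 (e, e')).and (m3 (c - e, c' - e')).not)) fun a => Iff.rfl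
  have e3 := fun c c' : V => nul_iff h fun M => Ppt h M
    (Q' := fun a => (c, c') ∈ a.2 ∧ ¬ (c ∈ B'.N a.1.1 ↔ c' ∈ B'.N a.1.2))
    ((m3 (c, c')).and ((m1 B c).iff (m2 B c')).not) fun a => by simp only [proj, h.hN]
  have e4 := fun (c : V) (F : Finset V) M => Ppt h M
    (Q' := fun a => ((0 : V), (0 : V)) ∈ a.2 ∧ ∀ c' ∈ F, (c, c') ∉ a.2)
    ((m3 ((0 : V), (0 : V))).and (Measurable.forall fun c' =>
      (measurable_const (a := c' ∈ F)).imp (m3 (c, c')).not)) fun a => Iff.rfl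
  have e5 := fun (c' : V) (F : Finset V) M => Ppt h M
    (Q' := fun a => ((0 : V), (0 : V)) ∈ a.2 ∧ ∀ c ∈ F, (c, c') ∉ a.2)
    ((m3 ((0 : V), (0 : V))).and (Measurable.forall fun c =>
      (measurable_const (a := c ∈ F)).imp (m3 (c, c')).not)) fun a => Iff.rfl
  have e6 := fun c c' : V => nul_iff h fun M => P_eq h M
    (E' := {z | ¬ ((B'.σ c, B'.σ c') ∈ B'.Sg M z.1 z.2 ↔ (c, c') ∈ B'.Sg M z.1 (B'.T z.2))})
    (E := {z | ¬ ((B.σ c, B.σ c') ∈ B.Sg M z.1 z.2 ↔ (c, c') ∈ B.Sg M z.1 (B.T z.2))})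
    (measurableSet_lab fun d => measurableSet_setOfPred.2
      (((measurable_set_mem _).comp (B.mS M d)).iff
        ((measurable_set_mem _).comp ((B.mS M d).comp B.T.measurable))).not)
    fun z => by simp only [mem_setOf_eq, h.hσ, h.hS, h.comm]
  constructor
  · intro H
    refine ⟨e0.1 H.mix, fun c c' => (e1 c c').1 (H.zero c c'),
      fun c c' e e' => (e2 c c' e e').1 (H.sub c c' e e'), fun c c' => (e3 c c').1 (H.iff c c'),
      fun c ε hε => ?_, fun c ε hε => ?_, fun c c' => (e6 c c').1 (H.eqv c c')⟩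
    · simpa only [e4, h.hU] using H.totL c ε hε
    · simpa only [e5, h.hU] using H.totR c ε hε
  · intro H
    refine ⟨e0.2 H.mix, fun c c' => (e1 c c').2 (H.zero c c'),
      fun c c' e e' => (e2 c c' e e').2 (H.sub c c' e e'), fun c c' => (e3 c c').2 (H.iff c c'),
      fun c ε hε => ?_, fun c ε hε => ?_, fun c c' => (e6 c c').2 (H.eqv c c')⟩
    · simpa only [e4, h.hU] using H.totL c ε hε
    · simpa only [e5, h.hU] using H.totR c ε hε

end PullAux

open PullAux in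
theorem xPull : PullS := by
  intro Y Ω V _ _ _ _ B' B p h
  refine ⟨h0_iff h, ?_, fun D δ => ?_, ?_⟩
  · have e : ∀ M M' d c11 c12 c21 c22, B'.P M (B'.pt M ⁻¹' B'.flatS M' d c11 c12 c21 c22) =
        B.P M (B.pt M ⁻¹' B.flatS M' d c11 c12 c21 c22) := fun M M' d c11 c12 c21 c22 =>
      Ppt h M (measurableSet_setOfPred.1 (B.cyl_flatS M' d c11 c12 c21 c22).meas) fun a => by
        simp only [proj, h.hσ, h.hr, h.hS]
    simp only [Flat, e, h.hU, h.hν]
  · have e : ∀ M, B'.P M (B'.relS D ∩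
        {z | ((0 : V), (0 : V)) ∈ B'.Sg M z.1 (tz B'.T (D.r D.k0 * z.1.1) z.2)}) =
        B.P M (B.relS D ∩
        {z | ((0 : V), (0 : V)) ∈ B.Sg M z.1 (tz B.T (D.r D.k0 * z.1.1) z.2)}) := fun M =>
      P_eq h M ((B.measurableSet_relS D).inter (measurableSet_lab fun d =>
        measurableSet_memA ((B.mS M d).comp (measurable_tz B.T (D.r D.k0 * d.1))) _)) fun z => by
          simp only [Base.relS, mem_inter_iff, mem_setOf_eq, h.hσ, h.hN, h.hS, comm_tz h.comm]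
    simp only [Rel, e, h.hU]
  · refine forall₂_congr fun c c' => nul_iff h fun M =>
      P_eq h M (B.measurableSet_decS c c') fun z => ?_
    simp only [Base.decS, mem_setOf_eq, h.hσ, h.hN]

end Pool.Agent.MP_154433_an.T3A
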