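import Pool.Agent.MP_154433_an.t3a.Spec

set_option autoImplicit false

open MeasureTheory ProbabilityTheory Filter Topology Set
open scoped ENNReal

namespace Pool.Agent.MP_154433_an.T3A

namespace RliAux

variable {Ω V : Type} [MeasurableSpace Ω] [AddCommGroup V]

theorem lp_off (A : Base Ω V) (κ : Kernel Ω Ω) [IsMarkovKernel κ] {Ip : Set Ω}
    (hI : MeasurableSet Ip) (Φ : Kernel (Ω × Ω) (Arr V)) [IsMarkovKernel Φ] :
    Lp A κ Ip Φ {a | a.1.1 ∉ Ip} = 0 := by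
  have e : {a : (Ω × Ω) × Arr V | a.1.1 ∉ Ip} = (Ipᶜ ×ˢ univ) ×ˢ univ := by
    ext a
    simp
  have h : MeasurableSet (Ipᶜ ×ˢ (univ : Set Ω)) := hI.compl.prod MeasurableSet.univ
  rw [e, Lp, Measure.compProd_apply_prod h MeasurableSet.univ]
  refine setLIntegral_measure_zero _ _ ?_
  rw [Measure.restrict_apply h, prod_inter_prod, compl_inter_self, empty_prod, measure_empty]

theorem shift (B : Bun Ω V) (M : ℕ) {Ip : Set Ω} (hI : MeasurableSet Ip) (hT : B.T ⁻¹' Ip = Ip)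
    (r : ℤ) :
    B.P M {z | ((0 : V), (0 : V)) ∈ B.Sg M z.1 (tz B.T (r * z.1.1) z.2) ∧ z.2 ∉ Ip} =
      B.P M {z | ((0 : V), (0 : V)) ∈ B.Sg M z.1 z.2 ∧ z.2 ∉ Ip} := by
  have h1 : ∀ d, MeasurableSet {y | ((0 : V), (0 : V)) ∈ B.Sg M d y ∧ y ∉ Ip} := fun d =>
    (measurableSet_memA (B.mS M d) _).inter hI.compl
  have e : ∀ d : ℤ × ℤ, Prod.mk d ⁻¹' {z : (ℤ × ℤ) × Ω |
      ((0 : V), (0 : V)) ∈ B.Sg M z.1 (tz B.T (r * z.1.1) z.2) ∧ z.2 ∉ Ip} =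
      tz B.T (r * d.1) ⁻¹' {y | ((0 : V), (0 : V)) ∈ B.Sg M d y ∧ y ∉ Ip} := by
    intro d
    ext y
    exact and_congr_right fun _ => (not_congr (mem_tz hT _ y)).symm
  have h2 : MeasurableSet {z : (ℤ × ℤ) × Ω | ((0 : V), (0 : V)) ∈ B.Sg M z.1 z.2 ∧ z.2 ∉ Ip} :=
    measurableSet_lab fun d => h1 d
  rw [Bun.P, PM_apply _ _ (measurableSet_lab fun d => e d ▸ measurable_tz _ _ (h1 d)),
    PM_apply _ _ h2]
  refine lintegral_congr fun d => ?_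
  rw [e, (mp_tz B.mp _).measure_preimage (h1 d).nullMeasurableSet]
  rfl

end RliAux

theorem xRli : RliS := by
  intro Ω V _ _ _ B κ _ w Ip Φ D δ hw hL hΦ hδ hR
  have := hΦ.markov
  have h1 := (hL.nul _ (measurable_fst.fst hΦ.mI.compl)).1
    (hΦ.ac2 (RliAux.lp_off B.toBase κ hΦ.mI Φ)) 0
  have e : ({z | ((0 : V), (0 : V)) ∈ z.2} ∩ B.toBase.sA 0 0 ⁻¹'
      ((fun z : (Ω × Ω) × Arr V => z.1.1) ⁻¹' Ipᶜ)) =
      {z | ((0 : V), (0 : V)) ∈ z.2 ∧ z.1.1 ∉ Ip} := by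
    ext z
    simp
  have h2 := hw.2 _ ((Cyl.mem ((0 : V), (0 : V))).and (Cyl.fst _ hΦ.mI).not)
  rw [← e, h1, e] at h2
  filter_upwards [hR, h2.eventually (Iic_mem_nhds (ENNReal.half_pos hδ.ne'))] with M h3 h4
  have h5 : δ / 2 ≠ ∞ := ENNReal.div_ne_top (ne_top_of_le_ne_top (measure_ne_top _ _) h3) (by simp)
  refine ENNReal.le_of_add_le_add_right h5 ?_
  rw [ENNReal.add_halves]
  refine h3.trans ((measure_mono ?_).trans ((measure_union_le _ _).trans (add_le_add le_rfl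
    ((RliAux.shift B M hΦ.mI hΦ.inv (D.r D.k0)).trans_le h4))))
  intro z hz
  by_cases h : z.2 ∈ Ip
  · exact Or.inl ⟨hz.1, h⟩
  · exact Or.inr ⟨hz.2, h⟩

end Pool.Agent.MP_154433_an.T3A
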