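import Pool.Agent.MP_154433_an.t3a.Spec

/-!
A measurable choice of arrows from one base point.
-/

set_option autoImplicit false

open MeasureTheory ProbabilityTheory Filter Topology Set
open scoped ENNReal

namespace Pool.Agent.MP_154433_an.T3A

theorem xT2 : T2S := by
  intro Ω V _ _ _ A κ Ip Φ _ hP hI hq Q hQ
  have := hP.markov
  obtain ⟨f, hf, hΦ⟩ := Φ.exists_measurable_map_eq_unitInterval
  obtain ⟨E, hsub, hE, h0⟩ := exists_measurable_superset_of_null (ae_iff.1 hQ)
  have key : ∀ n : ℤ, ∀ᵐ x ∂(A.μ ⊗ₘ κ), x.1 ∈ Ip → ∀ᵐ u : unitInterval,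
      ((x.1, tz A.T n x.2), f (x.1, tz A.T n x.2) u) ∉ A.sA 0 (-n) ⁻¹' E := fun n => by
    have h1 : ∀ᵐ z ∂(Lp A κ Ip Φ), z ∉ A.sA 0 (-n) ⁻¹' E :=
      measure_eq_zero_iff_ae_notMem.1 (hq (-n) E hE h0)
    have h2 := (ae_restrict_iff' (hI.prod MeasurableSet.univ)).1 (Measure.ae_ae_of_ae_compProd h1)
    filter_upwards [(hP.shift 0 n).quasiMeasurePreserving.ae h2] with x hx hxI
    have h3 := hx ⟨by simpa using hxI, trivial⟩
    rw [← hΦ] at h3
    simpa only [Prod.map, tz_zero] using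
      ae_of_ae_map hf.of_uncurry_left.aemeasurable h3
  filter_upwards [Measure.ae_ae_of_ae_compProd (ae_all_iff.2 key)] with a ha haI
  have h4 : ∀ᵐ y ∂(κ a), ∀ᵐ u : unitInterval, ∀ n : ℤ,
      ((a, tz A.T n y), f (a, tz A.T n y) u) ∉ A.sA 0 (-n) ⁻¹' E :=
    ha.mono fun y hy => ae_all_iff.2 fun n => hy n haI
  have hm : MeasurableSet {p : Ω × unitInterval | ∀ n : ℤ,
      ((a, tz A.T n p.1), f (a, tz A.T n p.1) p.2) ∉ A.sA 0 (-n) ⁻¹' E} := by
    rw [Set.ofPred_forall]
    refine MeasurableSet.iInter fun n => ?_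
    have h5 : Measurable fun p : Ω × unitInterval => (a, tz A.T n p.1) :=
      measurable_const.prodMk ((measurable_tz A.T n).comp measurable_fst)
    exact (h5.prodMk (hf.comp (h5.prodMk measurable_snd))) (A.measurable_sA 0 (-n) hE).compl
  obtain ⟨u, hu⟩ := ((Measure.ae_ae_comm hm).1 h4).exists
  refine ⟨fun y => f (a, y) u, hf.comp ((measurable_const.prodMk measurable_id).prodMk
    measurable_const), hu.mono fun y hy n => by_contra fun h => hy n ?_⟩
  simpa using hsub h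

end Pool.Agent.MP_154433_an.T3A
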