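import Pool.Agent.MP_154433_an.t3a.Spec

set_option autoImplicit false

open MeasureTheory ProbabilityTheory Filter Topology Set
open scoped ENNReal

namespace Pool.Agent.MP_154433_an.T3A

noncomputable section

namespace TauAux

variable {Ω : Type} [MeasurableSpace Ω]

lemma meas2 (κ : Kernel Ω Ω) {E : Set ((ℤ × ℤ) × Ω)} (hE : MeasurableSet E) :
    Measurable fun z : (ℤ × ℤ) × Ω => κ z.2 (Prod.mk z.1 ⁻¹' E) :=
  measurable_from_prod_countable_right fun d => κ.measurable_coe (measurable_prodMk_left hE)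

lemma measPM (ν : Measure ℤ) [IsProbabilityMeasure ν] (κ : Kernel Ω Ω) [IsMarkovKernel κ]
    {E : Set ((ℤ × ℤ) × Ω)} (hE : MeasurableSet E) : Measurable fun a => PM ν (κ a) E := by
  simp only [PM_apply ν _ hE]
  exact (meas2 κ hE).lintegral_prod_left'

lemma avg (ν : Measure ℤ) [IsProbabilityMeasure ν] {μ : Measure Ω} [IsProbabilityMeasure μ]
    {T : Ω ≃ᵐ Ω} {κ : Kernel Ω Ω} (h : ErgK μ T κ) {E : Set ((ℤ × ℤ) × Ω)} (hE : MeasurableSet E)
    {I : Set Ω} (hI : MeasurableSet I) (hT : T ⁻¹' I = I) :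
    ∫⁻ a, I.indicator (fun a => PM ν (κ a) E) a ∂μ = PM ν μ (E ∩ {z | z.2 ∈ I}) := by
  haveI := h.markov
  have hm : Measurable (I.indicator (1 : Ω → ℝ≥0∞)) := measurable_one.indicator hI
  have e1 : ∀ a, I.indicator (fun a => PM ν (κ a) E) a =
      ∫⁻ d, I.indicator (1 : Ω → ℝ≥0∞) a * κ a (Prod.mk d ⁻¹' E) ∂(ν.prod ν) := by
    intro a
    by_cases ha : a ∈ I
    · simp [ha, PM_apply ν _ hE]
    · simp [ha]
  simp only [e1]
  have hEI : MeasurableSet (E ∩ {z | z.2 ∈ I}) := hE.inter (measurable_snd hI)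
  rw [lintegral_lintegral_swap, PM_apply ν μ hEI]
  · refine lintegral_congr fun d => ?_
    have hA : MeasurableSet (Prod.mk d ⁻¹' E) := measurable_prodMk_left hE
    rw [h.int _ hm (fun y => by
      have : T y ∈ I ↔ y ∈ I := by rw [← Set.mem_preimage, hT]
      by_cases hy : y ∈ I
      · simp [hy, this.2 hy]
      · simp [hy, mt this.1 hy]) _ hA, lintegral_indicator_one hI, Measure.restrict_apply hI,
      inter_comm]
    rfl
  · exact ((hm.comp measurable_fst).mul ((meas2 κ hE).comp measurable_swap)).aemeasurable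

end TauAux

open TauAux in
theorem xTau : TauS := by
  intro h1 h2 hS Ω V _ _ _ B κ L Ip Φ g Pos D δ hE hP hH hδ hrel hdec
  haveI := hE.markov
  haveI := hP.markov
  obtain ⟨t1, t1'⟩ := h1 Ω V B.toBase κ L Ip Φ hE hP
  have q1 := t1 _ (hH.iso.and hH.itw)
  have q2 := h2 Ω V B.toBase κ Ip Φ hE hP.mI hH.quasi _ (hH.iso.and (hH.itw.and hH.pos))
  have q3 : ∀ᵐ a ∂B.μ, ∀ᵐ y ∂(κ a), y ∈ Ip → ∀ i, Iso (B.N y) (B.N y) (g i y) := by
    have := hH.gi
    rw [← hE.bind] at this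
    exact Measure.ae_ae_of_ae_comp this
  have q4 := Measure.ae_ae_of_ae_compProd hH.hit
  have q5 := hE.conc Ip hP.mI hP.inv
  obtain ⟨a, s, ⟨⟨⟨⟨⟨⟨⟨a1, a2⟩, a3⟩, a4⟩, a5⟩, a6⟩, a7⟩, a8⟩, hR, hF⟩ := hS Ω (V × V) B.μ B.U
    (fun M => Ip.indicator (fun a => PM (B.ν M) (κ a) (B.relS D)))
    (fun M k a => PM (B.ν M) (κ a) (B.decS k.1 k.2)) δ _
    (fun M => (measPM _ κ (B.measurableSet_relS D)).indicator hP.mI)
    (fun M x => le_trans (indicator_le_self _ _ x) prob_le_one)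
    (fun M k => measPM _ κ (B.measurableSet_decS _ _)) hδ
    (by
      filter_upwards [hrel] with M hM
      rw [avg _ hE.toErgK (B.measurableSet_relS D) hP.mI hP.inv]
      exact hM)
    (fun k => by
      have : ∀ M, ∫⁻ x, PM (B.ν M) (κ x) (B.decS k.1 k.2) ∂B.μ = B.P M (B.decS k.1 k.2) := by
        intro M
        have := avg (B.ν M) hE.toErgK (B.measurableSet_decS k.1 k.2) MeasurableSet.univ
          preimage_univ
        simpa [Bun.P] using this
      simp only [this]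
      exact hdec k.1 k.2)
    (((((((hE.mp.and q5).and q1).and t1').and q2).and hH.gi).and q3).and q4)
  have ha : a ∈ Ip := by
    by_contra hc
    have := hR 0
    rw [indicator_of_notMem hc] at this
    exact absurd this (not_le.2 (ENNReal.half_pos hδ.ne'))
  obtain ⟨τ, mτ, hτ⟩ := a5 ha
  have hin : ∀ᵐ y ∂(κ a), y ∈ Ip := a2 ha
  refine ⟨{ B.toBase with μ := κ a, prob := inferInstance, mp := a1 }, B.N a, τ,
    fun i => g i a, ((κ a).prod (κ a)) ⊗ₘ Φ, fun i => B.ν (s i),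
    ⟨mτ, hH.geq, a6 ha, ?_, ?_, ?_, Measure.fst_compProd _ _, a4, a3 ha⟩,
    ⟨fun i => inferInstance, fun i => ?_, fun c c' => hF (c, c')⟩⟩
  · filter_upwards [hin, a7] with y hy h using h hy
  · filter_upwards [hτ] with y h
    have := h 0
    rw [neg_zero, sh_zero, tz_zero] at this
    exact ⟨this.1, this.2.1⟩
  · filter_upwards [hτ, a8] with y h hh n p q ⟨e, p1, p2⟩ ⟨e', q1, q2⟩
    have h0 := h 0
    rw [neg_zero, sh_zero, tz_zero] at h0
    exact hh (p.1, e) (q.1, e') (p.2, e) (q.2, e') ((h n).2.2 _ p1 _ q1) (h0.2.2 _ p2 _ q2) rfl rfl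
  · have := hR i
    rwa [indicator_of_mem ha] at this

end

end Pool.Agent.MP_154433_an.T3A
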