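import Pool.Agent.MP_154433_an.t3a.Spec

set_option autoImplicit false

open MeasureTheory ProbabilityTheory Filter Topology Set
open scoped ENNReal

namespace Pool.Agent.MP_154433_an.T3A

noncomputable section

namespace W1Aux

variable {Ω V : Type} [MeasurableSpace Ω] [AddCommGroup V] (B : Bun Ω V)

lemma nul_mono {E E' : ℕ → Set ((ℤ × ℤ) × Ω)} (h : B.Nul E') (hE : ∀ M, E M ⊆ E' M) : B.Nul E :=
  tendsto_of_tendsto_of_tendsto_of_le_of_le tendsto_const_nhds h (fun _ => zero_le)
    fun M => measure_mono (hE M)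

lemma nul_empty : B.Nul fun _ => ∅ := by
  simpa [Bun.Nul] using tendsto_const_nhds

lemma nul_union {E E' : ℕ → Set ((ℤ × ℤ) × Ω)} (h : B.Nul E) (h' : B.Nul E') :
    B.Nul fun M => E M ∪ E' M := by
  have := h.add h'
  rw [add_zero] at this
  exact tendsto_of_tendsto_of_tendsto_of_le_of_le tendsto_const_nhds this (fun _ => zero_le)
    fun M => measure_union_le _ _

lemma cyl_sA {E : Set ((Ω × Ω) × Arr V)} (h : Cyl E) : Cyl (B.sA 1 1 ⁻¹' E) := by
  induction h with
  | fst A hA => exact Cyl.fst _ (measurable_tz B.T 1 hA)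
  | snd A hA => exact Cyl.snd _ (measurable_tz B.T 1 hA)
  | mem p => exact Cyl.mem (sz B.σ 1 p.1, sz B.σ 1 p.2)
  | compl E _ ih => exact ih.compl
  | inter E E' _ _ ih ih' => exact ih.inter _ _ ih'

lemma bad (H : H0 B) {E : Set ((Ω × Ω) × Arr V)} (h : Cyl E) :
    B.Nul fun M => {z | ¬ (B.pt M (z.1, B.T z.2) ∈ E ↔ B.sA 1 1 (B.pt M z) ∈ E)} := by
  induction h with
  | fst A hA => exact nul_mono B (nul_empty B) fun M z hz => hz (by simp [Bun.pt])
  | snd A hA =>
    exact nul_mono B (nul_empty B) fun M z hz => hz (by simp [Bun.pt, tz_T, T_tz])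
  | mem p =>
    exact nul_mono B (H.eqv p.1 p.2) fun M z hz h => hz (by simpa [Bun.pt] using h.symm)
  | compl E _ ih => exact nul_mono B ih fun M z hz h => hz (not_congr h)
  | inter E E' _ _ ih ih' =>
    refine nul_mono B (nul_union B ih ih') fun M z hz => ?_
    by_contra hc
    simp only [mem_union, mem_setOf_eq, not_or, not_not] at hc
    exact hz (and_congr hc.1 hc.2)

lemma P_inv (M : ℕ) : MeasurePreserving (fun z : (ℤ × ℤ) × Ω => (z.1, B.T z.2)) (B.P M) (B.P M) :=
  (MeasurePreserving.id _).prod B.mp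

lemma le_of {a b e : ℕ → ℝ≥0∞} {x y : ℝ≥0∞} (ha : Tendsto a B.U (𝓝 x)) (hb : Tendsto b B.U (𝓝 y))
    (he : Tendsto e B.U (𝓝 0)) (h : ∀ M, a M ≤ b M + e M) : x ≤ y := by
  have := hb.add he
  rw [add_zero] at this
  exact le_of_tendsto_of_tendsto' ha this h

end W1Aux

open W1Aux

theorem xW1 : W1S := by
  intro hE Ω V _ _ _ B w hw H
  have := hw.1
  constructor
  · have : IsProbabilityMeasure (w.map (B.sA 1 1)) :=
      Measure.isProbabilityMeasure_map (B.measurable_sA 1 1).aemeasurable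
    refine hE Ω (V × V) _ _ fun E h => ?_
    rw [Measure.map_apply (B.measurable_sA 1 1) h.meas]
    have h1 := hw.2 _ (cyl_sA B h)
    have h2 := hw.2 _ h
    have h3 := bad B H h
    have e : ∀ M, B.P M (B.pt M ⁻¹' E) = B.P M {z | B.pt M (z.1, B.T z.2) ∈ E} := fun M =>
      ((P_inv B M).measure_preimage (B.measurable_pt M h.meas).nullMeasurableSet).symm
    simp only [e] at h2
    refine le_antisymm (le_of B h1 h2 h3 fun M => ?_) (le_of B h2 h1 h3 fun M => ?_) <;>
      refine (measure_mono fun z hz => ?_).trans (measure_union_le _ _) <;> by_contra hc <;>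
      simp only [mem_union, mem_setOf_eq, mem_preimage, not_or, not_not] at hc hz
    · exact hc.1 (hc.2.2 hz)
    · exact hc.1 (hc.2.1 hz)
  · ext A hA
    rw [Measure.map_apply measurable_fst.fst hA]
    have h1 := hw.2 _ (Cyl.fst A hA)
    have e : ∀ M, B.P M (B.pt M ⁻¹' {z | z.1.1 ∈ A}) = B.μ A := fun M => by
      have : B.pt M ⁻¹' {z | z.1.1 ∈ A} = univ ×ˢ A := by ext z; simp [Bun.pt]
      rw [this, Bun.P, PM, Measure.prod_prod, measure_univ, one_mul]
    simp only [e] at h1
    exact tendsto_nhds_unique h1 tendsto_const_nhds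

end

end Pool.Agent.MP_154433_an.T3A
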