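import Pool.Agent.MP_154433_an.t3a.Own
import Pool.Agent.MP_154433_an.t3a.ConvB
import Pool.Agent.MP_154433_an.t3a.Exa
import Pool.Agent.MP_154433_an.t3a.Kex
import Pool.Agent.MP_154433_an.t3a.Ka
import Pool.Agent.MP_154433_an.t3a.Kb
import Pool.Agent.MP_154433_an.t3a.Kc
import Pool.Agent.MP_154433_an.t3a.Kd
import Pool.Agent.MP_154433_an.t3a.Le
import Pool.Agent.MP_154433_an.t3a.Lim
import Pool.Agent.MP_154433_an.t3a.W1
import Pool.Agent.MP_154433_an.t3a.W2
import Pool.Agent.MP_154433_an.t3a.W3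
import Pool.Agent.MP_154433_an.t3a.Eqz
import Pool.Agent.MP_154433_an.t3a.Lam
import Pool.Agent.MP_154433_an.t3a.Lae
import Pool.Agent.MP_154433_an.t3a.Pha
import Pool.Agent.MP_154433_an.t3a.Phb
import Pool.Agent.MP_154433_an.t3a.Phc
import Pool.Agent.MP_154433_an.t3a.F2
import Pool.Agent.MP_154433_an.t3a.F3
import Pool.Agent.MP_154433_an.t3a.F4
import Pool.Agent.MP_154433_an.t3a.Iid
import Pool.Agent.MP_154433_an.t3a.Xi
import Pool.Agent.MP_154433_an.t3a.Pull
import Pool.Agent.MP_154433_an.t3a.Push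
import Pool.Agent.MP_154433_an.t3a.Int
import Pool.Agent.MP_154433_an.t3a.Prj
import Pool.Agent.MP_154433_an.t3a.G3
import Pool.Agent.MP_154433_an.t3a.G4
import Pool.Agent.MP_154433_an.t3a.Rli
import Pool.Agent.MP_154433_an.t3a.T1
import Pool.Agent.MP_154433_an.t3a.T2
import Pool.Agent.MP_154433_an.t3a.Sel
import Pool.Agent.MP_154433_an.t3a.Tau
import Pool.Agent.MP_154433_an.t3a.Mk
import Pool.Agent.MP_154433_an.t3a.Th
import Pool.Agent.MP_154433_an.t3a.Psi
import Pool.Agent.MP_154433_an.t3a.Psr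
import Pool.Agent.MP_154433_an.t3a.Sd
import Pool.Agent.MP_154433_an.t3a.Ct
import Pool.Agent.MP_154433_an.t3a.Fin

set_option autoImplicit false

namespace Pool.Agent.MP_154433_an.T3A

theorem rows : Rows :=
  ⟨xKex, xKa, xKb, xKc, xKd, xLe, xLim, xW1, xW2, xW3, xEqz, xLam, xLae, xPha, xPhb, xPhc, xF2, xF3, xF4, xIid, xXi, xPull, xPush, xInt, xPrj, xG3, xG4, xRli, xT1, xT2, xSel, xTau, xMk, xTh, xPsi, xPsr, xSd, xCt, xFin⟩

theorem algS : AlgS := algS_of_rows rows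

theorem xAlg (ba : T3x.BasA) (hm : T3x.MixS) : T3x.AlgS := bridge algS xExa ba hm

end Pool.Agent.MP_154433_an.T3A
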