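import Pool.Agent.MP_154433_an.t3a.Defs2

set_option autoImplicit false
set_option linter.unusedSectionVars false

open MeasureTheory ProbabilityTheory Filter Topology Set
open scoped ENNReal

namespace Pool.Agent.MP_154433_an.T3A

noncomputable section

section tz

variable {Ω : Type} [MeasurableSpace Ω] (T : Ω ≃ᵐ Ω)

@[simp] lemma tz_zero (y : Ω) : tz T 0 y = y := by simp [tz]

@[simp] lemma tz_one (y : Ω) : tz T 1 y = T y := by simp [tz]

lemma tz_add (m n : ℤ) (y : Ω) : tz T (m + n) y = tz T m (tz T n y) := by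
  simp [tz, zpow_add]

lemma tz_neg_one (y : Ω) : tz T (-1) y = T.symm y := by
  simp [tz]

@[simp] lemma tz_neg_tz (n : ℤ) (y : Ω) : tz T (-n) (tz T n y) = y := by
  rw [← tz_add]; simp

@[simp] lemma tz_tz_neg (n : ℤ) (y : Ω) : tz T n (tz T (-n) y) = y := by
  rw [← tz_add]; simp

lemma tz_T (n : ℤ) (y : Ω) : tz T n (T y) = tz T (n + 1) y := by rw [tz_add]; simp

lemma T_tz (n : ℤ) (y : Ω) : T (tz T n y) = tz T (n + 1) y := by
  rw [add_comm, tz_add]; simp

lemma tz_comm (m n : ℤ) (y : Ω) : tz T m (tz T n y) = tz T n (tz T m y) := by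
  rw [← tz_add, ← tz_add, add_comm]

lemma measurable_tz (n : ℤ) : Measurable (tz T n) := by
  induction n using Int.induction_on with
  | zero =>
    have : tz T 0 = id := funext fun y => tz_zero T y
    rw [this]; exact measurable_id
  | succ n ih =>
    have : tz T ((n : ℤ) + 1) = tz T n ∘ T := funext fun y => (tz_T T n y).symm
    rw [this]; exact ih.comp T.measurable
  | pred n ih =>
    have : tz T (-(n : ℤ) - 1) = tz T (-n) ∘ T.symm := funext fun y => by
      rw [sub_eq_add_neg, tz_add, tz_neg_one]; rfl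
    rw [this]; exact ih.comp T.symm.measurable

variable {T}

lemma mp_tz {μ : Measure Ω} (h : MeasurePreserving T μ μ) (n : ℤ) :
    MeasurePreserving (tz T n) μ μ := by
  induction n using Int.induction_on with
  | zero =>
    have : tz T 0 = id := funext fun y => tz_zero T y
    rw [this]; exact MeasurePreserving.id μ
  | succ n ih =>
    have : tz T ((n : ℤ) + 1) = tz T n ∘ T := funext fun y => (tz_T T n y).symm
    rw [this]; exact ih.comp h
  | pred n ih =>
    have : tz T (-(n : ℤ) - 1) = tz T (-n) ∘ T.symm := funext fun y => by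
      rw [sub_eq_add_neg, tz_add, tz_neg_one]; rfl
    rw [this]; exact ih.comp (h.symm T)

/-- a property of a step and of its inverse passes to all powers -/
lemma inv_tz {α : Type*} {f : Ω → α} (h : ∀ y, f (T y) = f y) (n : ℤ) (y : Ω) :
    f (tz T n y) = f y := by
  induction n using Int.induction_on generalizing y with
  | zero => simp
  | succ n ih => rw [← T_tz, h, ih]
  | pred n ih =>
    rw [← h, T_tz, sub_add_cancel, ih]

lemma mem_tz {I : Set Ω} (h : T ⁻¹' I = I) (n : ℤ) (y : Ω) : tz T n y ∈ I ↔ y ∈ I := by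
  have := inv_tz (T := T) (f := fun y => y ∈ I)
    (fun y => propext (by rw [← Set.mem_preimage, h])) n y
  exact Iff.of_eq this

lemma comm_tz {Y : Type} [MeasurableSpace Y] {T' : Y ≃ᵐ Y} {p : Y → Ω}
    (h : ∀ y, p (T' y) = T (p y)) (n : ℤ) (y : Y) : p (tz T' n y) = tz T n (p y) := by
  induction n using Int.induction_on generalizing y with
  | zero => simp
  | succ n ih => rw [← T_tz, h, ih, T_tz]
  | pred n ih =>
    apply T.injective
    rw [← h, T_tz, T_tz, sub_add_cancel, ih]

/-- measurability in the exponent and the point -/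
lemma measurable_tz2 {α : Type} [MeasurableSpace α] (T : Ω ≃ᵐ Ω) {n : α → ℤ} {y : α → Ω}
    (hn : Measurable n) (hy : Measurable y) : Measurable fun a => tz T (n a) (y a) := by
  have : Measurable fun p : Ω × ℤ => tz T p.2 p.1 :=
    measurable_from_prod_countable_left fun k => measurable_tz T k
  exact this.comp (hy.prodMk hn)

end tz

section sz

variable {V : Type} [AddCommGroup V] (σ : Au V)

@[simp] lemma sz_zero (c : V) : sz σ 0 c = c := by simp [sz]

@[simp] lemma sz_one (c : V) : sz σ 1 c = σ c := by simp [sz]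

lemma sz_add (m n : ℤ) (c : V) : sz σ (m + n) c = sz σ m (sz σ n c) := by
  simp [sz, zpow_add]

@[simp] lemma sz_neg_sz (n : ℤ) (c : V) : sz σ (-n) (sz σ n c) = c := by
  rw [← sz_add]; simp

@[simp] lemma sz_sz_neg (n : ℤ) (c : V) : sz σ n (sz σ (-n) c) = c := by
  rw [← sz_add]; simp

lemma sz_comm (m n : ℤ) (c : V) : sz σ m (sz σ n c) = sz σ n (sz σ m c) := by
  rw [← sz_add, ← sz_add, add_comm]

@[simp] lemma sz_map_zero (n : ℤ) : sz σ n (0 : V) = 0 := by simp [sz]

lemma sz_map_sub (n : ℤ) (a b : V) : sz σ n (a - b) = sz σ n a - sz σ n b := by simp [sz]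

lemma sz_map_add (n : ℤ) (a b : V) : sz σ n (a + b) = sz σ n a + sz σ n b := by simp [sz]

@[simp] lemma mem_sh (i j : ℤ) (S : Arr V) (p : V × V) :
    p ∈ sh σ i j S ↔ (sz σ i p.1, sz σ j p.2) ∈ S := Iff.rfl

@[simp] lemma sh_zero (S : Arr V) : sh σ 0 0 S = S := by ext p; simp

lemma sh_sh (i j k l : ℤ) (S : Arr V) : sh σ i j (sh σ k l S) = sh σ (i + k) (j + l) S := by
  ext p; simp only [mem_sh]; rw [add_comm i k, add_comm j l, sz_add, sz_add]

@[simp] lemma sh_empty (i j : ℤ) : sh σ i j (∅ : Arr V) = ∅ := rfl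

lemma measurable_sh (i j : ℤ) : Measurable (sh σ i j) :=
  measurable_set_iff.2 fun _ => measurable_set_mem _

/-- the shift of relations as a measurable bijection -/
def shE (i j : ℤ) : Arr V ≃ᵐ Arr V where
  toFun := sh σ i j
  invFun := sh σ (-i) (-j)
  left_inv S := by rw [sh_sh]; simp
  right_inv S := by rw [sh_sh]; simp
  measurable_toFun := measurable_sh σ i j
  measurable_invFun := measurable_sh σ (-i) (-j)

@[simp] lemma shE_apply (i j : ℤ) (S : Arr V) : shE σ i j S = sh σ i j S := rfl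

lemma loop_sh (i : ℤ) (S S' : Arr V) : loop (sh σ i i S) (sh σ i i S') = sh σ i i (loop S S') := by
  ext p
  constructor
  · rintro ⟨e, h1, h2⟩
    exact ⟨sz σ i e, h1, h2⟩
  · rintro ⟨e, h1, h2⟩
    exact ⟨sz σ (-i) e, by simpa using h1, by simpa using h2⟩

end sz

section base

variable {Ω V : Type} [MeasurableSpace Ω] [AddCommGroup V]

lemma Base.eqz (A : Base Ω V) (n : ℤ) (c : V) (y : Ω) :
    sz A.σ n c ∈ A.N y ↔ c ∈ A.N (tz A.T n y) := by
  induction n using Int.induction_on generalizing c with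
  | zero => simp
  | succ n ih => rw [sz_add, ih, sz_one, A.eqv, T_tz]
  | pred n ih =>
    have h1 : sz A.σ (-(n : ℤ) - 1) c = sz A.σ (-n) (sz A.σ (-1) c) := by
      rw [← sz_add]; rfl
    have h2 : tz A.T (-(n : ℤ)) y = A.T (tz A.T (-n - 1) y) := by rw [T_tz]; simp
    rw [h1, ih, h2, ← A.eqv, ← sz_one, sz_sz_neg]

@[simp] lemma Base.sA_apply (A : Base Ω V) (i j : ℤ) (z : (Ω × Ω) × Arr V) :
    A.sA i j z = ((tz A.T i z.1.1, tz A.T j z.1.2), sh A.σ i j z.2) := rfl

lemma Base.sA_sA (A : Base Ω V) (i j k l : ℤ) (z : (Ω × Ω) × Arr V) :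
    A.sA i j (A.sA k l z) = A.sA (i + k) (j + l) z := by
  simp only [Base.sA_apply, tz_add, sh_sh]

lemma Base.sA_zero (A : Base Ω V) (z : (Ω × Ω) × Arr V) : A.sA 0 0 z = z := by simp

lemma Base.measurable_sA (A : Base Ω V) (i j : ℤ) : Measurable (A.sA i j) :=
  (((measurable_tz A.T i).comp measurable_fst.fst).prodMk
    ((measurable_tz A.T j).comp measurable_fst.snd)).prodMk
    ((measurable_sh A.σ i j).comp measurable_snd)

/-- the shift of arrows as a measurable bijection -/
def Base.sE (A : Base Ω V) (i j : ℤ) : ((Ω × Ω) × Arr V) ≃ᵐ ((Ω × Ω) × Arr V) where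
  toFun := A.sA i j
  invFun := A.sA (-i) (-j)
  left_inv z := by rw [A.sA_sA]; simp
  right_inv z := by rw [A.sA_sA]; simp
  measurable_toFun := A.measurable_sA i j
  measurable_invFun := A.measurable_sA (-i) (-j)

lemma Base.mp_sA (A : Base Ω V) {m : Measure ((Ω × Ω) × Arr V)}
    (h : MeasurePreserving (A.sA 1 1) m m) (n : ℤ) : MeasurePreserving (A.sA n n) m m := by
  have h1 : MeasurePreserving (A.sE 1 1) m m := h
  have h2 : ∀ k : ℤ, tz (A.sE 1 1) k = A.sA k k := by
    intro k
    funext z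
    induction k using Int.induction_on generalizing z with
    | zero => simp
    | succ n ih => rw [← T_tz, ih]; exact (A.sA_sA 1 1 n n z).trans (by rw [add_comm])
    | pred n ih =>
      rw [sub_eq_add_neg, tz_add, ih, tz_neg_one]
      exact A.sA_sA (-n) (-n) (-1) (-1) z
  rw [← h2]
  exact mp_tz h1 n

lemma Iso.shift (A : Base Ω V) {y y' : Ω} {S : Arr V} (h : Iso (A.N y) (A.N y') S) (i j : ℤ) :
    Iso (A.N (tz A.T i y)) (A.N (tz A.T j y')) (sh A.σ i j S) where
  zero c hc c' hc' := h.zero _ ((A.eqz i c y).2 hc) _ ((A.eqz j c' y').2 hc')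
  sub a a' b b' h1 h2 := by
    have := h.sub _ _ _ _ h1 h2
    simpa only [mem_sh, sz_map_sub] using this
  totL c := by
    obtain ⟨c', hc⟩ := h.totL (sz A.σ i c)
    exact ⟨sz A.σ (-j) c', by simpa using hc⟩
  totR c' := by
    obtain ⟨c, hc⟩ := h.totR (sz A.σ j c')
    exact ⟨sz A.σ (-i) c, by simpa using hc⟩
  iff c c' hc := by rw [← A.eqz, ← A.eqz]; exact h.iff _ _ hc

/-- equivariant families of loops are equivariant for all powers -/
lemma Base.geqz (A : Base Ω V) {g : Ω → Arr V} (h : ∀ y, g (A.T y) = sh A.σ 1 1 (g y)) (n : ℤ)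
    (y : Ω) : g (tz A.T n y) = sh A.σ n n (g y) := by
  induction n using Int.induction_on generalizing y with
  | zero => simp
  | succ n ih => rw [← T_tz, h, ih, sh_sh, add_comm]
  | pred n ih =>
    have h2 : tz A.T (-(n : ℤ)) y = A.T (tz A.T (-n - 1) y) := by rw [T_tz]; simp
    have h3 := ih y
    rw [h2, h] at h3
    have h4 := congrArg (sh A.σ (-1) (-1)) h3
    rw [sh_sh, sh_sh] at h4
    simp only [neg_add_cancel, sh_zero] at h4
    rw [h4]; congr 1 <;> ring

lemma measurableSet_memA {α ι : Type} [MeasurableSpace α] {S : α → Set ι} (hS : Measurable S)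
    (p : ι) : MeasurableSet {a | p ∈ S a} :=
  measurableSet_setOfPred.2 ((measurable_set_mem p).comp hS)

lemma Cyl.meas {ι : Type} {E : Set ((Ω × Ω) × Set ι)} (h : Cyl E) : MeasurableSet E := by
  induction h with
  | fst A hA => exact measurable_fst.fst hA
  | snd A hA => exact measurable_fst.snd hA
  | mem p => exact measurableSet_memA measurable_snd p
  | compl E _ ih => exact ih.compl
  | inter E E' _ _ ih ih' => exact ih.inter ih'

lemma Cyl.union {ι : Type} {E E' : Set ((Ω × Ω) × Set ι)} (h : Cyl E) (h' : Cyl E') :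
    Cyl (E ∪ E') := by
  have := Cyl.compl _ (Cyl.inter _ _ (Cyl.compl _ h) (Cyl.compl _ h'))
  rwa [← compl_union, compl_compl] at this

lemma Cyl.univ {ι : Type} : Cyl (Set.univ : Set ((Ω × Ω) × Set ι)) := by
  simpa using Cyl.fst (Ω := Ω) (ι := ι) Set.univ MeasurableSet.univ

lemma Cyl.and {ι : Type} {P Q : (Ω × Ω) × Set ι → Prop} (h : Cyl {z | P z}) (h' : Cyl {z | Q z}) :
    Cyl {z | P z ∧ Q z} := Cyl.inter _ _ h h'

lemma Cyl.not {ι : Type} {P : (Ω × Ω) × Set ι → Prop} (h : Cyl {z | P z}) :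
    Cyl {z | ¬ P z} := Cyl.compl _ h

lemma Cyl.iff {ι : Type} {P Q : (Ω × Ω) × Set ι → Prop} (h : Cyl {z | P z}) (h' : Cyl {z | Q z}) :
    Cyl {z | P z ↔ Q z} := by
  have := (h.and h').union (h.not.and h'.not)
  convert this using 1
  ext z; simp only [mem_ofPred_eq, mem_union]; tauto

instance (ν : Measure ℤ) [IsProbabilityMeasure ν] (μ : Measure Ω) [IsProbabilityMeasure μ] :
    IsProbabilityMeasure (PM ν μ) := by unfold PM; infer_instance

instance (B : Bun Ω V) (M : ℕ) : IsProbabilityMeasure (B.P M) := by unfold Bun.P; infer_instance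

lemma PM_apply (ν : Measure ℤ) [IsProbabilityMeasure ν] (μ : Measure Ω) [IsProbabilityMeasure μ]
    {E : Set ((ℤ × ℤ) × Ω)} (hE : MeasurableSet E) :
    PM ν μ E = ∫⁻ d, μ (Prod.mk d ⁻¹' E) ∂(ν.prod ν) := Measure.prod_apply hE

/-- a set of labelled points is measurable when its sections are -/
lemma measurableSet_lab {E : Set ((ℤ × ℤ) × Ω)} (h : ∀ d, MeasurableSet (Prod.mk d ⁻¹' E)) :
    MeasurableSet E := by
  have : Measurable fun z : (ℤ × ℤ) × Ω => z ∈ E :=
    measurable_from_prod_countable_right fun d => measurableSet_setOfPred.1 (h d)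
  exact measurableSet_setOfPred.2 this

lemma Bun.measurable_Sg (B : Bun Ω V) (M : ℕ) :
    Measurable fun z : (ℤ × ℤ) × Ω => B.Sg M z.1 z.2 :=
  measurable_from_prod_countable_right fun d => B.mS M d

lemma Bun.measurable_pt (B : Bun Ω V) (M : ℕ) : Measurable (B.pt M) :=
  (measurable_snd.prodMk (measurable_tz2 B.T (measurable_fst.fst.const_mul _) measurable_snd)).prodMk
    (B.measurable_Sg M)

lemma Bun.cyl_flatS (B : Bun Ω V) (M : ℕ) (d : ℤ × ℤ) (c11 c12 c21 c22 : V) :
    Cyl (B.flatS M d c11 c12 c21 c22) :=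
  (Cyl.mem _).and ((Cyl.mem _).and ((Cyl.fst _ (measurableSet_memA (B.mS M d) (c11, c21))).iff
    (Cyl.snd _ (measurableSet_memA (B.mS M d) (c12, c22)))).not)

lemma Base.measurableSet_relS (A : Base Ω V) (D : RD V) : MeasurableSet (A.relS D) :=
  measurableSet_lab fun d => (A.mN ((∑ k, sz A.σ (D.r k * d.1) (D.c k)) - D.b d.2)).inter
    (A.mN (sz A.σ (D.r D.k0 * d.1) (D.c D.k0))).compl

lemma Base.measurableSet_decS (A : Base Ω V) (c c' : V) : MeasurableSet (A.decS c c') :=
  measurableSet_lab fun d => (A.mN (sz A.σ (d.1 - d.2) c - c')).inter (A.mN c').compl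

lemma measurable_loop [Countable V] {α : Type} [MeasurableSpace α] {S S' : α → Arr V}
    (h : Measurable S) (h' : Measurable S') : Measurable fun a => loop (S a) (S' a) :=
  measurable_set_iff.2 fun p => Measurable.exists fun e =>
    ((measurable_set_mem (p.1, e)).comp h).and ((measurable_set_mem (p.2, e)).comp h')

lemma measurable_proj {Y : Type} [MeasurableSpace Y] {p : Y → Ω} (hp : Measurable p) :
    Measurable (proj p : (Y × Y) × Arr V → (Ω × Ω) × Arr V) :=
  ((hp.comp measurable_fst.fst).prodMk (hp.comp measurable_fst.snd)).prodMk measurable_snd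

end base

end

end Pool.Agent.MP_154433_an.T3A
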