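import Mathlib

set_option autoImplicit false

open MeasureTheory ProbabilityTheory Filter Topology Set
open scoped ENNReal

namespace Pool.Agent.MP_154433_an.T3A

noncomputable section

instance sbProp : StandardBorelSpace Prop :=
  ⟨⟨⊥, @BorelSpace.mk _ ⊥ _ (by
      let : TopologicalSpace Prop := ⊥
      have : DiscreteTopology Prop := ⟨rfl⟩
      exact borel_eq_top_of_discrete.symm), by
      let : TopologicalSpace Prop := ⊥
      have : DiscreteTopology Prop := ⟨rfl⟩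
      infer_instance⟩⟩

instance sbSet (α : Type) [Countable α] : StandardBorelSpace (Set α) :=
  inferInstanceAs (StandardBorelSpace (α → Prop))

/-- integer power of a measurable bijection -/
def tz {Ω : Type} [MeasurableSpace Ω] (T : Ω ≃ᵐ Ω) (n : ℤ) (y : Ω) : Ω :=
  ((T.toEquiv : Equiv.Perm Ω) ^ n) y

/-- automorphisms of an abelian group -/
abbrev Au (V : Type) [AddCommGroup V] := V ≃ₗ[ℤ] V

/-- integer power of a group automorphism -/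
def sz {V : Type} [AddCommGroup V] (σ : Au V) (n : ℤ) (c : V) : V := (σ ^ n) c

/-- arrows are relations -/
abbrev Arr (V : Type) := Set (V × V)

/-- source shift `i`, target shift `j` of a relation -/
def sh {V : Type} [AddCommGroup V] (σ : Au V) (i j : ℤ) (S : Arr V) : Arr V :=
  {p | (sz σ i p.1, sz σ j p.2) ∈ S}

/-- the same on (source, target, relation) -/
def shA {Ω V : Type} [MeasurableSpace Ω] [AddCommGroup V] (T : Ω ≃ᵐ Ω) (σ : Au V) (i j : ℤ)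
    (z : (Ω × Ω) × Arr V) : (Ω × Ω) × Arr V :=
  ((tz T i z.1.1, tz T j z.1.2), sh σ i j z.2)

/-- `S` is the graph of an isomorphism `V / N → V / N'` -/
structure Iso {V : Type} [AddCommGroup V] (N N' : AddSubgroup V) (S : Arr V) : Prop where
  zero : ∀ c ∈ N, ∀ c' ∈ N', (c, c') ∈ S
  sub : ∀ a a' b b', (a, a') ∈ S → (b, b') ∈ S → (a - b, a' - b') ∈ S
  totL : ∀ c, ∃ c', (c, c') ∈ S
  totR : ∀ c', ∃ c, (c, c') ∈ S
  iff : ∀ c c', (c, c') ∈ S → (c ∈ N ↔ c' ∈ N')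

/-- `S` carries the loop `g` to the loop `g'` -/
def Itw {V : Type} (g g' S : Arr V) : Prop :=
  ∀ c a a' b', (c, a) ∈ g → (a', b') ∈ g' → (c, a') ∈ S → (a, b') ∈ S

/-- forward along `S`, backward along `S'` -/
def loop {V : Type} (S S' : Arr V) : Arr V := {p | ∃ e, (p.1, e) ∈ S ∧ (p.2, e) ∈ S'}

/-- labels and points -/
def PM {Ω : Type} [MeasurableSpace Ω] (ν : Measure ℤ) (μ : Measure Ω) : Measure ((ℤ × ℤ) × Ω) :=
  (ν.prod ν).prod μ

/-- weak form of the mean ergodic property of the weights -/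
def ErgW (ν : ℕ → Measure ℤ) (U : Filter ℕ) : Prop :=
  ∀ (H : Type) [NormedAddCommGroup H] [InnerProductSpace ℂ H] [CompleteSpace H]
    (A : H ≃ₗᵢ[ℂ] H) (v w : H), (∀ u, A u = u → inner ℂ u v = 0) →
    Tendsto (fun M => ∫ d, inner ℂ w ((A ^ d) v) ∂ν M) U (𝓝 0)

/-- two point mixing bound; `g` is the conditional probability of `A'` given the invariant sets -/
def Mix (ν : ℕ → Measure ℤ) (U : Filter ℕ) : Prop :=
  ∀ (Y : Type) [MeasurableSpace Y] (μ : Measure Y) [IsProbabilityMeasure μ] (T : Y ≃ᵐ Y),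
    MeasurePreserving T μ μ → ∀ (r : ℤ), r ≠ 0 → ∀ A A' : Set Y, MeasurableSet A →
    MeasurableSet A' → ∀ g : Y → ℝ≥0∞, Measurable g → (∀ y, g (T y) = g y) →
    (∀ B, MeasurableSet B → T ⁻¹' B = B → ∫⁻ y in B, g y ∂μ = μ (A' ∩ B)) →
    limsup (fun M => ∫⁻ d, μ (A ∩ tz T (r * d) ⁻¹' A') ∂ν M) U
      ≤ (r.natAbs : ℝ≥0∞) * ∫⁻ y in A, g y ∂μ

/-- the last step: a tight commutative cocycle has no exact relation -/
def FinS : Prop :=
  ∀ (Γ : Type) [AddCommGroup Γ] [Countable Γ] (Y : Type) [MeasurableSpace Y] (m : Measure Y)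
    [IsProbabilityMeasure m] (T : Y ≃ᵐ Y), MeasurePreserving T m m →
  ∀ (Ψ : ℤ → Y → Au Γ), (∀ n ξ ξ', MeasurableSet {y | Ψ n y ξ = ξ'}) →
  ∀ (C : Set (Au Γ)), (∀ a ∈ C, ∀ b ∈ C, a * b = b * a) → (∀ n, ∀ᵐ y ∂m, Ψ n y ∈ C) →
    (∀ n k, ∀ᵐ y ∂m, Ψ (n + k) y = Ψ n y * Ψ k (tz T n y)) →
    (∀ ξ : Γ, ∀ ε : ℝ≥0∞, 0 < ε → ∃ F : Finset Γ, ∀ n,
      (m.prod m) {p | (Ψ n p.2)⁻¹ (Ψ n p.1 ξ) ∉ F} ≤ ε) →
  ∀ (ν : ℕ → Measure ℤ) [∀ i, IsProbabilityMeasure (ν i)] (J : Type) [Fintype J] (r : J → ℤ),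
    Function.Injective r → (∀ k, r k ≠ 0) → ∀ (k0 : J) (x : J → Y → Γ) (η : ℤ → Y → Γ),
    (∀ k ξ, MeasurableSet {y | x k y = ξ}) → (∀ d ξ, MeasurableSet {y | η d y = ξ}) →
  ∀ δ : ℝ≥0∞, 0 < δ →
    (∀ i, δ ≤ PM (ν i) m {z | ∑ k, Ψ (r k * z.1.1) z.2 (x k (tz T (r k * z.1.1) z.2)) = η z.1.2 z.2 ∧
      x k0 (tz T (r k0 * z.1.1) z.2) ≠ 0}) →
    (∀ ξ ξ' : Γ, ξ' ≠ 0 →
      Tendsto (fun i => PM (ν i) m {z | Ψ (z.1.1 - z.1.2) z.2 ξ = ξ'}) atTop (𝓝 0)) →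
    False

end

end Pool.Agent.MP_154433_an.T3A
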