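import Pool.Agent.MP_154433_an.t3a.Defs

set_option autoImplicit false

open MeasureTheory ProbabilityTheory Filter Topology Set
open scoped ENNReal

namespace Pool.Agent.MP_154433_an.T3A

noncomputable section

/-- a system with a bundle of quotients `V / N y` -/
structure Base (Ω V : Type) [MeasurableSpace Ω] [AddCommGroup V] where
  μ : Measure Ω
  prob : IsProbabilityMeasure μ
  T : Ω ≃ᵐ Ω
  mp : MeasurePreserving T μ μ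
  σ : Au V
  N : Ω → AddSubgroup V
  mN : ∀ c, MeasurableSet {y | c ∈ N y}
  eqv : ∀ c y, σ c ∈ N y ↔ c ∈ N (T y)

/-- the same with weights, an ultrafilter, a step and internal arrows from `y` to `T ^ (r * d) y` -/
structure Bun (Ω V : Type) [MeasurableSpace Ω] [AddCommGroup V] extends Base Ω V where
  ν : ℕ → Measure ℤ
  pν : ∀ M, IsProbabilityMeasure (ν M)
  U : Ultrafilter ℕ
  r : ℤ
  ne : r ≠ 0
  Sg : ℕ → ℤ × ℤ → Ω → Arr V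
  mS : ∀ M d, Measurable (Sg M d)

attribute [instance] Base.prob Bun.pν

/-- data of an exact relation -/
structure RD (V : Type) where
  J : Type
  fin : Fintype J
  r : J → ℤ
  inj : Function.Injective r
  ne : ∀ k, r k ≠ 0
  k0 : J
  c : J → V
  b : ℤ → V

attribute [instance] RD.fin

/-- the algebra of cylinder events -/
inductive Cyl {Ω ι : Type} [MeasurableSpace Ω] : Set ((Ω × Ω) × Set ι) → Prop
  | fst (A : Set Ω) (hA : MeasurableSet A) : Cyl {z | z.1.1 ∈ A}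
  | snd (A : Set Ω) (hA : MeasurableSet A) : Cyl {z | z.1.2 ∈ A}
  | mem (p : ι) : Cyl {z | p ∈ z.2}
  | compl (E : Set ((Ω × Ω) × Set ι)) (h : Cyl E) : Cyl Eᶜ
  | inter (E E' : Set ((Ω × Ω) × Set ι)) (h : Cyl E) (h' : Cyl E') : Cyl (E ∩ E')

section

variable {Ω V : Type} [MeasurableSpace Ω] [AddCommGroup V]

/-- shift of arrows over a base -/
def Base.sA (A : Base Ω V) (i j : ℤ) : (Ω × Ω) × Arr V → (Ω × Ω) × Arr V := shA A.T A.σ i j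

/-- the relation event -/
def Base.relS (A : Base Ω V) (D : RD V) : Set ((ℤ × ℤ) × Ω) :=
  {z | (∑ k, sz A.σ (D.r k * z.1.1) (D.c k)) - D.b z.1.2 ∈ A.N z.2 ∧
    sz A.σ (D.r D.k0 * z.1.1) (D.c D.k0) ∉ A.N z.2}

/-- the decay event -/
def Base.decS (A : Base Ω V) (c c' : V) : Set ((ℤ × ℤ) × Ω) :=
  {z | sz A.σ (z.1.1 - z.1.2) c - c' ∈ A.N z.2 ∧ c' ∉ A.N z.2}

def Bun.P (B : Bun Ω V) (M : ℕ) : Measure ((ℤ × ℤ) × Ω) := PM (B.ν M) B.μ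

/-- source, target and arrow of a labelled point -/
def Bun.pt (B : Bun Ω V) (M : ℕ) (z : (ℤ × ℤ) × Ω) : (Ω × Ω) × Arr V :=
  ((z.2, tz B.T (B.r * z.1.1) z.2), B.Sg M z.1 z.2)

/-- null in the limit -/
def Bun.Nul (B : Bun Ω V) (E : ℕ → Set ((ℤ × ℤ) × Ω)) : Prop :=
  Tendsto (fun M => B.P M (E M)) B.U (𝓝 0)

/-- the internal arrows are isomorphisms or empty, and equivariant, in the limit -/
structure H0 (B : Bun Ω V) : Prop where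
  mix : Mix B.ν B.U
  zero : ∀ c c' : V, B.Nul fun M => B.pt M ⁻¹'
    {a | c ∈ B.N a.1.1 ∧ c' ∈ B.N a.1.2 ∧ ((0 : V), (0 : V)) ∈ a.2 ∧ (c, c') ∉ a.2}
  sub : ∀ c c' e e' : V, B.Nul fun M => B.pt M ⁻¹'
    {a | (c, c') ∈ a.2 ∧ (e, e') ∈ a.2 ∧ (c - e, c' - e') ∉ a.2}
  iff : ∀ c c' : V, B.Nul fun M => B.pt M ⁻¹'
    {a | (c, c') ∈ a.2 ∧ ¬ (c ∈ B.N a.1.1 ↔ c' ∈ B.N a.1.2)}
  totL : ∀ (c : V) (ε : ℝ≥0∞), 0 < ε → ∃ F : Finset V, ∀ᶠ M in (B.U : Filter ℕ),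
    B.P M (B.pt M ⁻¹' {a | ((0 : V), (0 : V)) ∈ a.2 ∧ ∀ c' ∈ F, (c, c') ∉ a.2}) ≤ ε
  totR : ∀ (c' : V) (ε : ℝ≥0∞), 0 < ε → ∃ F : Finset V, ∀ᶠ M in (B.U : Filter ℕ),
    B.P M (B.pt M ⁻¹' {a | ((0 : V), (0 : V)) ∈ a.2 ∧ ∀ c ∈ F, (c, c') ∉ a.2}) ≤ ε
  eqv : ∀ c c' : V, B.Nul fun M =>
    {z | ¬ ((B.σ c, B.σ c') ∈ B.Sg M z.1 z.2 ↔ (c, c') ∈ B.Sg M z.1 (B.T z.2))}

/-- a square over the arrow `a` that does not commute -/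
def Bun.flatS (B : Bun Ω V) (M : ℕ) (d : ℤ × ℤ) (c11 c12 c21 c22 : V) :
    Set ((Ω × Ω) × Arr V) :=
  {a | (c11, c12) ∈ a.2 ∧ (sz B.σ (B.r * d.1) c21, sz B.σ (B.r * d.1) c22) ∈ a.2 ∧
    ¬ ((c11, c21) ∈ B.Sg M d a.1.1 ↔ (c12, c22) ∈ B.Sg M d a.1.2)}

/-- squares commute: rows at the inner limit, columns at the outer limit -/
def Flat (B : Bun Ω V) : Prop :=
  ∀ c11 c12 c21 c22 : V, Tendsto (fun M' => ∫⁻ d' : ℤ × ℤ, limsup (fun M => B.P M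
    (B.pt M ⁻¹' B.flatS M' d' c11 c12 c21 c22)) B.U ∂((B.ν M').prod (B.ν M'))) B.U (𝓝 0)

/-- the exact relation has positive limit probability where the arrows live -/
def Rel (B : Bun Ω V) (D : RD V) (δ : ℝ≥0∞) : Prop :=
  ∀ᶠ M in (B.U : Filter ℕ),
    δ ≤ B.P M (B.relS D ∩
      {z | ((0 : V), (0 : V)) ∈ B.Sg M z.1 (tz B.T (D.r D.k0 * z.1.1) z.2)})

def Dec (B : Bun Ω V) : Prop := ∀ c c' : V, B.Nul fun _ => B.decS c c'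

/-- equivariance for all powers -/
def EqZ (B : Bun Ω V) : Prop :=
  ∀ (n : ℤ) (c c' : V), B.Nul fun M =>
    {z | ¬ ((sz B.σ n c, sz B.σ n c') ∈ B.Sg M z.1 z.2 ↔ (c, c') ∈ B.Sg M z.1 (tz B.T n z.2))}

/-- `B'` is the pull-back of `B` along `p` -/
structure Ext {Y : Type} [MeasurableSpace Y] (B' : Bun Y V) (B : Bun Ω V) (p : Y → Ω) : Prop where
  mp : MeasurePreserving p B'.μ B.μ
  comm : ∀ y, p (B'.T y) = B.T (p y)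
  hσ : B'.σ = B.σ
  hN : ∀ y, B'.N y = B.N (p y)
  hν : B'.ν = B.ν
  hU : B'.U = B.U
  hr : B'.r = B.r
  hS : ∀ M d y, B'.Sg M d y = B.Sg M d (p y)

/-- conditional probabilities given the invariant sets -/
structure ErgK (μ : Measure Ω) (T : Ω ≃ᵐ Ω) (κ : Kernel Ω Ω) : Prop where
  markov : IsMarkovKernel κ
  inv : ∀ y, κ (T y) = κ y
  int : ∀ h : Ω → ℝ≥0∞, Measurable h → (∀ y, h (T y) = h y) → ∀ A, MeasurableSet A →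
    ∫⁻ y, h y * κ y A ∂μ = ∫⁻ y in A, h y ∂μ

/-- their properties -/
structure ErgP (μ : Measure Ω) (T : Ω ≃ᵐ Ω) (κ : Kernel Ω Ω) : Prop extends ErgK μ T κ where
  bind : κ ∘ₘ μ = μ
  mp : ∀ᵐ a ∂μ, MeasurePreserving T (κ a) (κ a)
  conc : ∀ B, MeasurableSet B → T ⁻¹' B = B → ∀ᵐ a ∂μ, a ∈ B → κ a Bᶜ = 0
  two : (κ ×ₖ κ) ∘ₘ μ = μ ⊗ₘ κ
  shift : ∀ i j, MeasurePreserving (Prod.map (tz T i) (tz T j)) (μ ⊗ₘ κ) (μ ⊗ₘ κ)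
  erg : ∀ D : Set (Ω × Ω), MeasurableSet D → Prod.map id T ⁻¹' D = D →
    ∀ᵐ y ∂μ, κ y (Prod.mk y ⁻¹' D) = 0 ∨ κ y (Prod.mk y ⁻¹' D)ᶜ = 0

/-- `w` is the limit law of the labelled points -/
def IsLim (B : Bun Ω V) (w : Measure ((Ω × Ω) × Arr V)) : Prop :=
  IsProbabilityMeasure w ∧
    ∀ E, Cyl E → Tendsto (fun M => B.P M (B.pt M ⁻¹' E)) B.U (𝓝 (w E))

/-- mixture of the source shifts of the nonempty part of `w` -/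
def Lam (A : Base Ω V) (w : Measure ((Ω × Ω) × Arr V)) : Measure ((Ω × Ω) × Arr V) :=
  Measure.sum fun i : ℤ => ((2 : ℝ≥0∞)⁻¹ ^ i.natAbs) •
    (w.restrict {z | ((0 : V), (0 : V)) ∈ z.2}).map (A.sA i 0)

structure LamP (A : Base Ω V) (κ : Kernel Ω Ω) (w : Measure ((Ω × Ω) × Arr V)) : Prop where
  fin : IsFiniteMeasure (Lam A w)
  inv : (Lam A w).map (A.sA 1 1) = Lam A w
  quasi : ∀ i j E, MeasurableSet E → Lam A w E = 0 → Lam A w (A.sA i j ⁻¹' E) = 0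
  ac : (Lam A w).map Prod.fst ≪ A.μ ⊗ₘ κ
  nul : ∀ E, MeasurableSet E → (Lam A w E = 0 ↔
    ∀ i, w ({z | ((0 : V), (0 : V)) ∈ z.2} ∩ A.sA i 0 ⁻¹' E) = 0)

/-- arrows between all pairs of one component, on the part `Ip` -/
def Lp (A : Base Ω V) (κ : Kernel Ω Ω) (Ip : Set Ω) (Φ : Kernel (Ω × Ω) (Arr V)) :
    Measure ((Ω × Ω) × Arr V) :=
  ((A.μ ⊗ₘ κ).restrict (Ip ×ˢ univ)) ⊗ₘ Φ

/-- the same on the whole space -/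
def Lf (A : Base Ω V) (κ : Kernel Ω Ω) (Φ : Kernel (Ω × Ω) (Arr V)) :
    Measure ((Ω × Ω) × Arr V) :=
  (A.μ ⊗ₘ κ) ⊗ₘ Φ

structure PhiD (A : Base Ω V) (κ : Kernel Ω Ω) (L : Measure ((Ω × Ω) × Arr V)) (Ip : Set Ω)
    (Φ : Kernel (Ω × Ω) (Arr V)) : Prop where
  markov : IsMarkovKernel Φ
  mI : MeasurableSet Ip
  inv : A.T ⁻¹' Ip = Ip
  off : ∀ z : Ω × Ω, z.1 ∉ Ip → Φ z = Measure.dirac (∅ : Arr V)
  eqv : ∀ᵐ z ∂(A.μ ⊗ₘ κ), Φ (A.T z.1, A.T z.2) = (Φ z).map (sh A.σ 1 1)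
  ac1 : Lp A κ Ip Φ ≪ L
  ac2 : L ≪ Lp A κ Ip Φ

def FlatM (B : Bun Ω V) (m : Measure ((Ω × Ω) × Arr V)) : Prop :=
  ∀ c11 c12 c21 c22 : V, Tendsto (fun M => ∫⁻ d : ℤ × ℤ, m (B.flatS M d c11 c12 c21 c22)
    ∂((B.ν M).prod (B.ν M))) B.U (𝓝 0)

/-- the law of a point of the component with two arrows to it -/
def Xi (κ : Kernel Ω Ω) (Φ : Kernel (Ω × Ω) (Arr V)) : Kernel Ω (Ω × (Arr V × Arr V)) :=
  κ ⊗ₖ (Φ ×ₖ Φ)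

/-- an extension that carries samples of pairs of arrows -/
structure Smp {Y : Type} [MeasurableSpace Y] (B' : Bun Y V) (B : Bun Ω V) (p : Y → Ω)
    (κ : Kernel Ω Ω) (Φ : Kernel (Ω × Ω) (Arr V)) (e : ℕ → Y → Ω) (S S' : ℕ → Y → Arr V) :
    Prop where
  ext : Ext B' B p
  me : ∀ i, Measurable (e i)
  mS : ∀ i, Measurable (S i)
  mS' : ∀ i, Measurable (S' i)
  eqv : ∀ i y, S i (B'.T y) = sh B.σ 1 1 (S i y)
  eqv' : ∀ i y, S' i (B'.T y) = sh B.σ 1 1 (S' i y)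
  law : ∀ i, B'.μ.map (fun y => ((p y, e i y), S i y)) = Lf B.toBase κ Φ
  law' : ∀ i, B'.μ.map (fun y => ((p y, e i y), S' i y)) = Lf B.toBase κ Φ
  hit : ∀ P P' : Set (Arr V), MeasurableSet P → MeasurableSet P' → ∃ D : Set Ω,
    (∀ᵐ z ∂(B.μ ⊗ₘ κ), Φ z P ≠ 0 → Φ z P' ≠ 0 → z.1 ∈ D) ∧
    ∀ᵐ y ∂B'.μ, p y ∈ D → ∃ i, S i y ∈ P ∧ S' i y ∈ P'

/-- projection of arrows -/
def proj {Y : Type} (p : Y → Ω) (z : (Y × Y) × Arr V) : (Ω × Ω) × Arr V :=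
  ((p z.1.1, p z.1.2), z.2)

/-- what the extension knows -/
structure HatD (A : Base Ω V) (κ : Kernel Ω Ω) (Ip : Set Ω) (Φ : Kernel (Ω × Ω) (Arr V))
    (g : ℕ → Ω → Arr V) (Pos : Ω × Ω → V × V → V × V → Prop) : Prop where
  geq : ∀ i y, g i (A.T y) = sh A.σ 1 1 (g i y)
  quasi : ∀ n E, MeasurableSet E → Lp A κ Ip Φ E = 0 → Lp A κ Ip Φ (A.sA 0 n ⁻¹' E) = 0
  iso : ∀ᵐ z ∂(Lp A κ Ip Φ), Iso (A.N z.1.1) (A.N z.1.2) z.2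
  itw : ∀ᵐ z ∂(Lp A κ Ip Φ), ∀ i, Itw (g i z.1.1) (g i z.1.2) z.2
  pos : ∀ᵐ z ∂(Lp A κ Ip Φ), ∀ p ∈ z.2, ∀ q ∈ z.2, Pos z.1 p q
  gi : ∀ᵐ y ∂A.μ, y ∈ Ip → ∀ i, Iso (A.N y) (A.N y) (g i y)
  hit : ∀ᵐ z ∂(A.μ ⊗ₘ κ), ∀ p q p' q', Pos z p q → Pos z p' q' → p.2 = p'.2 → q.2 = q'.2 →
    ∃ i, (p.1, p'.1) ∈ g i z.1 ∧ (q.1, q'.1) ∈ g i z.1

/-- one component seen from one base point -/
structure FixD (A : Base Ω V) (N0 : AddSubgroup V) (τ : Ω → Arr V) (G : ℕ → Arr V)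
    (g : ℕ → Ω → Arr V) (m2 : Measure ((Ω × Ω) × Arr V)) : Prop where
  mτ : Measurable τ
  geq : ∀ i y, g i (A.T y) = sh A.σ 1 1 (g i y)
  isoG : ∀ i, Iso N0 N0 (G i)
  isog : ∀ᵐ y ∂A.μ, ∀ i, Iso (A.N y) (A.N y) (g i y)
  isoτ : ∀ᵐ y ∂A.μ, Iso N0 (A.N y) (τ y) ∧ ∀ i, Itw (G i) (g i y) (τ y)
  dense : ∀ᵐ y ∂A.μ, ∀ (n : ℤ) (p q : V × V),
    p ∈ loop (sh A.σ 0 (-n) (τ (tz A.T n y))) (τ y) →
    q ∈ loop (sh A.σ 0 (-n) (τ (tz A.T n y))) (τ y) → ∃ i, p ∈ G i ∧ q ∈ G i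
  fst2 : m2.map Prod.fst = A.μ.prod A.μ
  inv2 : MeasurePreserving (A.sA 1 1) m2 m2
  iso2 : ∀ᵐ z ∂m2, Iso (A.N z.1.1) (A.N z.1.2) z.2 ∧ ∀ i, Itw (g i z.1.1) (g i z.1.2) z.2

/-- relation and decay along a sequence of weights -/
structure RelF (A : Base Ω V) (D : RD V) (δ : ℝ≥0∞) (ν : ℕ → Measure ℤ) : Prop where
  prob : ∀ i, IsProbabilityMeasure (ν i)
  rel : ∀ i, δ ≤ PM (ν i) A.μ (A.relS D)
  dec : ∀ c c', Tendsto (fun i => PM (ν i) A.μ (A.decS c c')) atTop (𝓝 0)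

/-- a measurable trivialisation of the bundle -/
structure Th {Γ : Type} [AddCommGroup Γ] (A : Base Ω V) (θ : Ω → V →+ Γ) : Prop where
  mθ : ∀ c ξ, MeasurableSet {y | θ y c = ξ}
  sur : ∀ᵐ y ∂A.μ, Function.Surjective (θ y) ∧ ∀ c, θ y c = 0 ↔ c ∈ A.N y

/-- the loops in the trivialisation -/
structure Triv {Γ : Type} [AddCommGroup Γ] (A : Base Ω V) (θ : Ω → V →+ Γ) (γ : ℕ → Au Γ)
    (g : ℕ → Ω → Arr V) : Prop extends Th A θ where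
  geq : ∀ i y, g i (A.T y) = sh A.σ 1 1 (g i y)
  tot : ∀ᵐ y ∂A.μ, ∀ i a, ∃ b, (a, b) ∈ g i y
  resp : ∀ᵐ y ∂A.μ, ∀ i a b, (a, b) ∈ g i y → θ y b = γ i (θ y a)
  dense : ∀ᵐ y ∂A.μ, ∀ (n : ℤ) (c c' : V), ∃ i, γ i (θ (tz A.T n y) c) = θ y (sz A.σ n c) ∧
    γ i (θ (tz A.T n y) c') = θ y (sz A.σ n c')

/-- the cocycle in the trivialisation -/
structure Coc {Γ : Type} [AddCommGroup Γ] (A : Base Ω V) (θ : Ω → V →+ Γ)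
    (Ψ : ℤ → Ω → Au Γ) : Prop where
  mΨ : ∀ n ξ ξ', MeasurableSet {y | Ψ n y ξ = ξ'}
  def' : ∀ᵐ y ∂A.μ, ∀ n c, Ψ n y (θ (tz A.T n y) c) = θ y (sz A.σ n c)
  coc : ∀ n k, ∀ᵐ y ∂A.μ, Ψ (n + k) y = Ψ n y * Ψ k (tz A.T n y)

end

/-- the algebraic step -/
def AlgS : Prop :=
  ∀ (X V : Type) [MeasurableSpace X] [AddCommGroup V] [Countable V] (B : Bun X V) (D : RD V)
    (δ : ℝ≥0∞), 0 < δ → H0 B → Flat B → Rel B D δ → Dec B → False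

end

end Pool.Agent.MP_154433_an.T3A
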