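import Pool.Agent.MP_154433_an.t3a.Spec

set_option autoImplicit false

open MeasureTheory ProbabilityTheory Filter Topology Set
open scoped ENNReal

namespace Pool.Agent.MP_154433_an.T3A

noncomputable section

theorem xExt : ExtS := by
  intro Ω ι _ _ a b _ h
  refine ext_of_generate_finite {E | Cyl E} ?_ ?_ (fun s hs => h s hs) (h _ Cyl.univ)
  · apply le_antisymm
    · set G := MeasurableSpace.generateFrom {E : Set ((Ω × Ω) × Set ι) | Cyl E} with hG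
      have h1 : Measurable[G] fun z : (Ω × Ω) × Set ι => z.1.1 := fun A hA =>
        MeasurableSpace.measurableSet_generateFrom (Cyl.fst A hA)
      have h2 : Measurable[G] fun z : (Ω × Ω) × Set ι => z.1.2 := fun A hA =>
        MeasurableSpace.measurableSet_generateFrom (Cyl.snd A hA)
      have h3 : Measurable[G] fun z : (Ω × Ω) × Set ι => z.2 := by
        refine measurable_set_iff.2 fun p => ?_
        exact measurableSet_setOfPred.1 (MeasurableSpace.measurableSet_generateFrom (Cyl.mem p))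
      intro s hs
      exact ((h1.prodMk h2).prodMk h3) hs
    · exact MeasurableSpace.generateFrom_le fun E hE => Cyl.meas hE
  · intro s hs t ht _
    exact Cyl.inter s t hs ht

theorem xW0 : W0S := by
  intro hL Ω V _ _ _ _ B
  have hm : ∀ M, Measurable (B.pt M) := B.measurable_pt
  obtain ⟨w, hw, h⟩ := hL Ω (V × V) B.μ (fun M => (B.P M).map (B.pt M)) B.U
    (fun M => Measure.isProbabilityMeasure_map (hm M).aemeasurable)
    (fun M => by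
      rw [Measure.map_map measurable_fst.fst (hm M)]
      ext A hA
      rw [Measure.map_apply (measurable_fst.fst.comp (hm M)) hA, Bun.P,
        PM_apply _ _ ((measurable_fst.fst.comp (hm M)) hA)]
      have : ∀ d : ℤ × ℤ, B.μ (Prod.mk d ⁻¹' ((fun z : (Ω × Ω) × Arr V => z.1.1) ∘ B.pt M ⁻¹' A))
          = B.μ A := fun d => rfl
      simp only [this, lintegral_const, measure_univ, mul_one])
    (fun M => by
      rw [Measure.map_map measurable_fst.snd (hm M)]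
      ext A hA
      rw [Measure.map_apply (measurable_fst.snd.comp (hm M)) hA, Bun.P,
        PM_apply _ _ ((measurable_fst.snd.comp (hm M)) hA)]
      have : ∀ d : ℤ × ℤ, B.μ (Prod.mk d ⁻¹' ((fun z : (Ω × Ω) × Arr V => z.1.2) ∘ B.pt M ⁻¹' A))
          = B.μ A := fun d => (mp_tz B.mp (B.r * d.1)).measure_preimage hA.nullMeasurableSet
      simp only [this, lintegral_const, measure_univ, mul_one])
  refine ⟨w, hw, fun E hE => ?_⟩
  have := h E hE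
  simpa only [Measure.map_apply (hm _) hE.meas] using this

theorem xHat : HatS := by
  intro hI hX Ω V _ _ _ _ B κ L Ip Φ hκ hΦ
  have := hκ.markov
  have := hΦ.markov
  have : Nonempty Ω := nonempty_of_isProbabilityMeasure B.μ
  have : IsMarkovKernel (Xi κ Φ) := by unfold Xi; infer_instance
  obtain ⟨x1, x2, x3, x4⟩ := hX Ω V B.toBase κ Φ hκ hΦ.eqv
  let R : (Ω × (Arr V × Arr V)) ≃ᵐ (Ω × (Arr V × Arr V)) :=
    B.T.prodCongr ((shE B.σ 1 1).prodCongr (shE B.σ 1 1))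
  obtain ⟨μ', T', hp, hT, hmp, hlaw, hhit⟩ := hI Ω (Ω × (Arr V × Arr V)) B.μ B.T R (Xi κ Φ) B.mp x1
  have hi : ∀ i : ℕ, Measurable fun x : Ω × (ℕ → Ω × (Arr V × Arr V)) => x.2 i := fun i =>
    (measurable_pi_apply i).comp measurable_snd
  have hfst : MeasurePreserving Prod.fst μ' B.μ := by
    refine ⟨measurable_fst, ?_⟩
    have h0 := congrArg (Measure.map Prod.fst) (hlaw 0)
    rw [Measure.map_map measurable_fst (measurable_fst.prodMk (hi 0))] at h0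
    exact h0.trans (Measure.fst_compProd B.μ (Xi κ Φ))
  let B' : Bun (Ω × (ℕ → Ω × (Arr V × Arr V))) V :=
    { μ := μ', prob := hp, T := T', mp := hmp, σ := B.σ, N := fun x => B.N x.1
      mN := fun c => measurable_fst (B.mN c)
      eqv := fun c x => by rw [hT]; exact B.eqv c x.1
      ν := B.ν, pν := B.pν, U := B.U, r := B.r, ne := B.ne
      Sg := fun M d x => B.Sg M d x.1
      mS := fun M d => (B.mS M d).comp measurable_fst }
  refine ⟨_, inferInstance, inferInstance, B', Prod.fst, fun i x => (x.2 i).1,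
    fun i x => (x.2 i).2.1, fun i x => (x.2 i).2.2,
    ⟨hfst, fun y => by change (T' y).1 = _; rw [hT], rfl, fun _ => rfl, rfl, rfl, rfl,
      fun _ _ _ => rfl⟩,
    fun i => (hi i).fst, fun i => (hi i).snd.fst, fun i => (hi i).snd.snd,
    fun i y => by change ((T' y).2 i).2.1 = _; rw [hT]; rfl,
    fun i y => by change ((T' y).2 i).2.2 = _; rw [hT]; rfl, fun i => ?_, fun i => ?_, ?_⟩
  · rw [← x2, ← hlaw i, Measure.map_map (by fun_prop) (measurable_fst.prodMk (hi i))]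
    rfl
  · rw [← x3, ← hlaw i, Measure.map_map (by fun_prop) (measurable_fst.prodMk (hi i))]
    rfl
  · intro P P' hP hP'
    refine ⟨{y | Xi κ Φ y {x | x.2.1 ∈ P ∧ x.2.2 ∈ P'} ≠ 0}, x4 P P' hP hP', ?_⟩
    exact hhit {x | x.2.1 ∈ P ∧ x.2.2 ∈ P'}
      ((measurable_snd.fst hP).inter (measurable_snd.snd hP'))

/-- all rows -/
structure Rows : Prop where
  kex : KexS
  ka : KaS
  kb : KbS
  kc : KcS
  kd : KdS
  le : LeS
  lim : LimS
  w1 : W1S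
  w2 : W2S
  w3 : W3S
  eqz : EqzS
  lam : LamS
  lae : LaeS
  pha : PhaS
  phb : PhbS
  phc : PhcS
  f2 : F2S
  f3 : F3S
  f4 : F4S
  iid : IidS
  xi : XiS
  pull : PullS
  push : PushS
  int : IntS
  prj : PrjS
  g3 : G3S
  g4 : G4S
  rli : RliS
  t1 : T1S
  t2 : T2S
  sel : SelS
  tau : TauS
  mk' : MkS
  th : ThS
  psi : PsiS
  psr : PsrS
  sd : SdS
  ct : CtS
  fin : FinS

/-- the general construction on a standard Borel base -/
lemma cons (R : Rows) {Ω V : Type} [MeasurableSpace Ω] [StandardBorelSpace Ω] [AddCommGroup V]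
    [Countable V] (B : Bun Ω V) (h : H0 B) : ∃ κ w Ip Φ, ErgP B.μ B.T κ ∧ IsLim B w ∧
      w.map (fun z => z.1.1) = B.μ ∧ LamP B.toBase κ w ∧ PhiD B.toBase κ (Lam B.toBase w) Ip Φ ∧
      ∀ᵐ z ∂(Lam B.toBase w), Iso (B.N z.1.1) (B.N z.1.2) z.2 := by
  obtain ⟨κ, hκ⟩ := R.kex Ω B.μ B.T B.mp
  obtain ⟨a1, a2, a3⟩ := R.ka Ω B.μ B.T κ B.mp hκ
  obtain ⟨b1, b2⟩ := R.kb Ω B.μ B.T κ B.mp hκ a2
  have hP : ErgP B.μ B.T κ := ⟨hκ, a1, a2, a3, b1, b2, R.kc Ω B.μ B.T κ B.mp hκ⟩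
  obtain ⟨w, hw⟩ := xW0 R.lim Ω V B
  have := hw.1
  obtain ⟨w1, w2⟩ := R.w1 xExt Ω V B w hw h
  have hL : LamP B.toBase κ w :=
    R.lam Ω V B.toBase κ w hP w1 (R.w3 R.le Ω V B w κ hw h.mix hκ)
  obtain ⟨Ip, Φ, hΦ⟩ := R.phc R.pha R.phb Ω V B.toBase κ w hP hL
  exact ⟨κ, w, Ip, Φ, hP, hw, w2, hL, hΦ, (R.lae Ω V B.toBase κ w hL).1 (R.w2 Ω V B w hw h)⟩

lemma flatM_of_flat {Ω V : Type} [MeasurableSpace Ω] [AddCommGroup V] {B : Bun Ω V}
    {w : Measure ((Ω × Ω) × Arr V)} (hw : IsLim B w) (h : Flat B) : FlatM B w := by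
  intro c11 c12 c21 c22
  have := h c11 c12 c21 c22
  simpa only [fun M d => (hw.2 _ (B.cyl_flatS M d c11 c12 c21 c22)).limsup_eq] using this

theorem algS_of_rows (R : Rows) : AlgS := by
  intro X V _ _ _ B0 D δ hδ h0 hF hR hD
  obtain ⟨Ω, _, _, B, p0, e0⟩ := R.push X V B0
  obtain ⟨q1, q2, q3, q4⟩ := R.pull X Ω V B0 B p0 e0
  have h := q1.1 h0
  obtain ⟨κ, w, Ip, Φ, hκ, hw, hm, hL, hΦ, hI⟩ := cons R B h
  have := hw.1
  have := hκ.markov
  have := hL.fin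
  have fl : FlatM B (Lf B.toBase κ Φ) :=
    R.f4 Ω V B κ _ Ip Φ hΦ (R.f3 Ω V B w
      (R.f2 Ω V B w (flatM_of_flat hw (q2.1 hF)) (R.eqz Ω V B h) hm))
  obtain ⟨Y, _, _, B', p, e, S, S', hS⟩ := xHat R.iid R.xi Ω V B κ _ Ip Φ hκ hΦ
  obtain ⟨r1, -, r3, r4⟩ := R.pull Y Ω V B' B p hS.ext
  obtain ⟨κ', w', Ip', Φ', hκ', hw', -, hL', hΦ', hI'⟩ := cons R B' (r1.2 h)
  have := hκ'.markov
  have hpr := R.prj xExt Y Ω V B' B p κ' κ w' w hS.ext hw' hw hL' hL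
  have hkd := R.kd Y Ω B'.μ B.μ B'.T B.T κ' κ p B'.mp B.mp hκ'.toErgK hκ.toErgK hS.ext.mp
    hS.ext.comm
  have geq : ∀ i y, loop (S i (B'.T y)) (S' i (B'.T y)) = sh B'.σ 1 1 (loop (S i y) (S' i y)) := by
    intro i y
    rw [hS.eqv, hS.eqv', loop_sh, hS.ext.hσ]
  obtain ⟨g1, g2⟩ := R.g4 Y Ω V B' B p κ' κ _ _ Ip' Ip Φ' Φ e S S' hS hΦ' hΦ hpr hkd
  have k1 : ∀ᵐ z ∂(Lp B'.toBase κ' Ip' Φ'), Iso (B'.N z.1.1) (B'.N z.1.2) z.2 :=
    Filter.Eventually.filter_mono hΦ'.ac1.ae_le hI'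
  have k2 : ∀ᵐ z ∂(Lp B'.toBase κ' Ip' Φ'), ∀ i, Itw (loop (S i z.1.1) (S' i z.1.1))
      (loop (S i z.1.2) (S' i z.1.2)) z.2 :=
    Filter.Eventually.filter_mono hΦ'.ac1.ae_le
      ((R.lae Y V B'.toBase κ' w' hL').2 (fun i y => loop (S i y) (S' i y))
        (fun i => measurable_loop (hS.mS i) (hS.mS' i)) geq
        (R.int Y Ω V B' B p κ Φ e S S' w' hS fl hw'))
  have k3 := R.g3 Y Ω V B' B p κ' κ _ _ Ip' Ip Φ' Φ e S S' hS hΦ' hΦ hpr hI
  have hH : HatD B'.toBase κ' Ip' Φ' (fun i y => loop (S i y) (S' i y))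
      (fun z a b => Φ (p z.1, p z.2) {R | a ∈ R ∧ b ∈ R} ≠ 0) :=
    ⟨geq, fun n E hE h1 => hΦ'.ac1 (hL'.quasi 0 n E hE (hΦ'.ac2 h1)), k1, k2, g1, k3, g2⟩
  have hδ2 : 0 < δ / 2 := ENNReal.half_pos hδ.ne'
  obtain ⟨A, N0, τ, G, m2, ν, hX, hrel⟩ := R.tau R.t1 R.t2 R.sel Y V B' κ' _ Ip' Φ' _ _ D (δ / 2)
    hκ' hΦ' hH hδ2
    (R.rli Y V B' κ' w' Ip' Φ' D δ hw' hL' hΦ' hδ ((r3 D δ).2 ((q3 D δ).1 hR)))
    (r4.2 (q4.1 hD))
  have : Countable (V ⧸ N0) := QuotientAddGroup.mk_surjective.countable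
  obtain ⟨θ, γ, hT⟩ := R.th R.mk' Y V A N0 τ G _ m2 hX
  obtain ⟨Ψ, hΨ⟩ := R.psi R.mk' Y V _ A θ hT.toTh
  obtain ⟨s1, s2⟩ := R.psr Y V _ A θ Ψ D _ ν hT.toTh hΨ hrel
  obtain ⟨s, ms, hs⟩ := R.sd R.mk' Y V _ A θ γ _ m2 hT hX.fst2 hX.iso2
  obtain ⟨C, c1, c2, c3⟩ := R.ct Y V _ A θ γ _ Ψ m2 s hT hΨ hX.fst2 hX.inv2 ms hs
  have := hrel.prob
  exact R.fin _ Y A.μ A.T A.mp Ψ hΨ.mΨ C c1 c2 hΨ.coc c3 ν D.J D.r D.inj D.ne D.k0
    (fun k y => θ y (D.c k)) (fun d y => θ y (D.b d)) (fun k ξ => hT.mθ _ ξ)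
    (fun d ξ => hT.mθ _ ξ) _ (ENNReal.half_pos hδ2.ne') s1 s2

end

end Pool.Agent.MP_154433_an.T3A
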