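import Pool.Agent.MP_154433_an.t3a.Spec

set_option autoImplicit false
set_option linter.unusedSectionVars false

open MeasureTheory ProbabilityTheory Filter Topology Set
open scoped ENNReal

namespace Pool.Agent.MP_154433_an.T3A

namespace PsrAux

variable {Ω : Type} [MeasurableSpace Ω]

lemma ae_PM (ν : Measure ℤ) [IsProbabilityMeasure ν] (μ : Measure Ω) [IsProbabilityMeasure μ]
    {P : Ω → Prop} (h : ∀ᵐ y ∂μ, P y) : ∀ᵐ z ∂(PM ν μ), P z.2 :=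
  (measurePreserving_snd (μ := ν.prod ν) (ν := μ)).quasiMeasurePreserving.ae h

lemma PM_tz (ν : Measure ℤ) [IsProbabilityMeasure ν] (μ : Measure Ω) [IsProbabilityMeasure μ]
    {T : Ω ≃ᵐ Ω} (hT : MeasurePreserving T μ μ) (n : ℤ × ℤ → ℤ) {E : Set Ω}
    (hE : MeasurableSet E) : PM ν μ {z | tz T (n z.1) z.2 ∈ E} = μ E := by
  have hm : MeasurableSet {z : (ℤ × ℤ) × Ω | tz T (n z.1) z.2 ∈ E} :=
    measurableSet_lab fun d => measurable_tz T (n d) hE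
  rw [PM_apply ν μ hm]
  have : ∀ d : ℤ × ℤ, μ (Prod.mk d ⁻¹' {z : (ℤ × ℤ) × Ω | tz T (n z.1) z.2 ∈ E}) = μ E :=
    fun d => (mp_tz hT (n d)).measure_preimage hE.nullMeasurableSet
  simp only [this, lintegral_const, measure_univ, mul_one]

variable {V Γ : Type} [AddCommGroup V] [Countable V] [AddCommGroup Γ]

lemma meas_bad {A : Base Ω V} {θ : Ω → V →+ Γ} (h : Th A θ) (ξ : Γ) (F : Finset V) :
    MeasurableSet {y | ∀ c ∈ F, θ y c ≠ ξ} := by
  have : {y | ∀ c ∈ F, θ y c ≠ ξ} = ⋂ c ∈ F, {y | θ y c = ξ}ᶜ := by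
    ext y; simp
  rw [this]
  exact F.measurableSet_biInter fun c _ => (h.mθ c ξ).compl

lemma fin_cover {A : Base Ω V} {θ : Ω → V →+ Γ} (h : Th A θ) (ξ : Γ) {ε : ℝ≥0∞} (hε : 0 < ε) :
    ∃ F : Finset V, A.μ {y | ∀ c ∈ F, θ y c ≠ ξ} ≤ ε := by
  classical
  obtain ⟨f, hf⟩ := exists_surjective_nat V
  set B : ℕ → Set Ω := fun n => {y | ∀ c ∈ (Finset.range n).image f, θ y c ≠ ξ} with hB
  have hanti : Antitone B := by
    intro m n hmn y hy c hc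
    exact hy c (Finset.image_subset_image (Finset.range_mono hmn) hc)
  have h1 := tendsto_measure_iInter_atTop (μ := A.μ) (s := B)
    (fun n => (meas_bad h ξ _).nullMeasurableSet) hanti ⟨0, measure_ne_top _ _⟩
  have h2 : A.μ (⋂ n, B n) = 0 := by
    refine measure_mono_null ?_ (ae_iff.1 h.sur)
    intro y hy hs
    obtain ⟨c, hc⟩ := hs.1 ξ
    obtain ⟨n, rfl⟩ := hf c
    exact (mem_iInter.1 hy (n + 1)) (f n)
      (Finset.mem_image_of_mem f (Finset.self_mem_range_succ n)) hc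
  rw [h2] at h1
  obtain ⟨n, hn⟩ := (ENNReal.tendsto_nhds_zero.1 h1 ε hε).exists
  exact ⟨_, hn⟩

end PsrAux

open PsrAux

theorem xPsr : PsrS := by
  intro Ω V Γ _ _ _ _ _ A θ Ψ D δ ν hθ hΨ hR
  have hp := hR.prob
  refine ⟨fun i => ?_, fun ξ ξ' hξ => ?_⟩
  · refine (hR.rel i).trans (measure_mono_ae ?_)
    filter_upwards [ae_PM (ν i) A.μ hθ.sur, ae_PM (ν i) A.μ hΨ.def'] with z h1 h2 hz
    obtain ⟨hz1, hz2⟩ := hz
    refine ⟨?_, fun h0 => hz2 ?_⟩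
    · have h3 := (h1.2 _).2 hz1
      rw [map_sub, map_sum, sub_eq_zero] at h3
      rw [← h3]
      exact Finset.sum_congr rfl fun k _ => h2 _ _
    · have h3 := h2 (D.r D.k0 * z.1.1) (D.c D.k0)
      rw [h0, map_zero] at h3
      exact (h1.2 _).1 h3.symm
  · rw [ENNReal.tendsto_nhds_zero]
    intro ε hε
    have h3 : 0 < ε / 3 := ENNReal.div_pos hε.ne' (by norm_num)
    obtain ⟨F, hF⟩ := fin_cover hθ ξ h3
    obtain ⟨F', hF'⟩ := fin_cover hθ ξ' h3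
    have hs : Tendsto (fun i => ∑ p ∈ F ×ˢ F', PM (ν i) A.μ (A.decS p.1 p.2)) atTop (𝓝 0) := by
      have := tendsto_finsetSum (F ×ˢ F') fun (p : V × V) _ => hR.dec p.1 p.2
      simpa using this
    filter_upwards [ENNReal.tendsto_nhds_zero.1 hs _ h3] with i hi
    have e1 := PM_tz (ν i) A.μ A.mp (fun d => d.1 - d.2) (meas_bad hθ ξ F)
    have e2 := PM_tz (ν i) A.μ A.mp (fun _ => 0) (meas_bad hθ ξ' F')
    have hsub : ({z | Ψ (z.1.1 - z.1.2) z.2 ξ = ξ'} : Set ((ℤ × ℤ) × Ω)) ≤ᵐ[PM (ν i) A.μ]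
        (({z | tz A.T (z.1.1 - z.1.2) z.2 ∈ {y | ∀ c ∈ F, θ y c ≠ ξ}} ∪
          {z | tz A.T 0 z.2 ∈ {y | ∀ c ∈ F', θ y c ≠ ξ'}} ∪
          ⋃ p ∈ F ×ˢ F', A.decS p.1 p.2 : Set ((ℤ × ℤ) × Ω))) := by
      filter_upwards [ae_PM (ν i) A.μ hθ.sur, ae_PM (ν i) A.μ hΨ.def'] with z h1 h2 hz
      by_cases ha : ∀ c ∈ F, θ (tz A.T (z.1.1 - z.1.2) z.2) c ≠ ξ
      · exact Or.inl (Or.inl ha)
      by_cases hb : ∀ c ∈ F', θ (tz A.T 0 z.2) c ≠ ξ'
      · exact Or.inl (Or.inr hb)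
      push Not at ha hb
      obtain ⟨c, hc, hca⟩ := ha
      obtain ⟨c', hc', hcb⟩ := hb
      rw [tz_zero] at hcb
      have hz' : Ψ (z.1.1 - z.1.2) z.2 ξ = ξ' := hz
      have h4 := h2 (z.1.1 - z.1.2) c
      rw [hca, hz'] at h4
      refine Or.inr (mem_iUnion₂.2 ⟨(c, c'), Finset.mem_product.2 ⟨hc, hc'⟩, ?_, ?_⟩)
      · refine (h1.2 _).1 ?_
        rw [map_sub, ← h4, hcb, sub_self]
      · intro hn
        exact hξ (hcb.symm.trans ((h1.2 _).2 hn))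
    calc PM (ν i) A.μ {z | Ψ (z.1.1 - z.1.2) z.2 ξ = ξ'}
        ≤ _ := measure_mono_ae hsub
      _ ≤ _ := measure_union_le _ _
      _ ≤ (ε / 3 + ε / 3) + ε / 3 := by
        refine add_le_add ((measure_union_le _ _).trans (add_le_add ?_ ?_)) ?_
        · exact e1.le.trans hF
        · exact e2.le.trans hF'
        · exact (measure_biUnion_finset_le _ _).trans hi
      _ = ε := ENNReal.add_thirds ε

end Pool.Agent.MP_154433_an.T3A
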