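import Pool.Agent.MP_154433_an.t3a.Spec

set_option autoImplicit false

open MeasureTheory ProbabilityTheory Filter Topology Set
open scoped ENNReal

namespace Pool.Agent.MP_154433_an.T3A

noncomputable section

namespace PushAux

/-- the shift of the time coordinate -/
def shf (I : Type) : Set (ℤ × I) ≃ᵐ Set (ℤ × I) where
  toFun ω := {a | (a.1 + 1, a.2) ∈ ω}
  invFun ω := {a | (a.1 - 1, a.2) ∈ ω}
  left_inv ω := by ext a; simp
  right_inv ω := by ext a; simp
  measurable_toFun := measurable_set_iff.2 fun _ => measurable_set_mem _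
  measurable_invFun := measurable_set_iff.2 fun _ => measurable_set_mem _

variable {X V J : Type} [MeasurableSpace X] [AddCommGroup V]

/-- the names of the points -/
def nm {I : Type} (T : X ≃ᵐ X) (A : I → Set X) (x : X) : Set (ℤ × I) := {a | tz T a.1 x ∈ A a.2}

lemma measurable_nm {I : Type} (T : X ≃ᵐ X) {A : I → Set X} (hA : ∀ i, MeasurableSet (A i)) :
    Measurable (nm T A) :=
  measurable_set_iff.2 fun a => measurableSet_setOfPred.1 (measurable_tz T a.1 (hA a.2))

lemma nm_T {I : Type} (T : X ≃ᵐ X) (A : I → Set X) (x : X) : nm T A (T x) = shf I (nm T A x) := by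
  ext a
  show tz T a.1 (T x) ∈ A a.2 ↔ tz T (a.1 + 1) x ∈ A a.2
  rw [tz_T]

/-- names that describe an equivariant family of subgroups -/
def Good (σ : Au V) (ω : Set (ℤ × (V ⊕ J))) : Prop := ∀ n : ℤ, (n, Sum.inl 0) ∈ ω ∧
  (∀ c c', (n, Sum.inl c) ∈ ω → (n, Sum.inl c') ∈ ω → (n, Sum.inl (c + c')) ∈ ω) ∧
  (∀ c, (n, Sum.inl c) ∈ ω → (n, Sum.inl (-c)) ∈ ω) ∧
  ∀ c, (n, Sum.inl (σ c)) ∈ ω ↔ (n + 1, Sum.inl c) ∈ ω

lemma good_shf (σ : Au V) (ω : Set (ℤ × (V ⊕ J))) : Good σ (shf _ ω) ↔ Good σ ω :=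
  ⟨fun h n => by
    obtain ⟨m, rfl⟩ : ∃ m, n = m + 1 := ⟨n - 1, by ring⟩
    exact h m, fun h n => h (n + 1)⟩

lemma measurable_good [Countable V] (σ : Au V) : Measurable (Good (J := J) σ) :=
  Measurable.forall fun _ => (measurable_set_mem _).and
    ((Measurable.forall fun _ => Measurable.forall fun _ => (measurable_set_mem _).imp
      ((measurable_set_mem _).imp (measurable_set_mem _))).and
    ((Measurable.forall fun _ => (measurable_set_mem _).imp (measurable_set_mem _)).and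
      (Measurable.forall fun _ => (measurable_set_mem _).iff (measurable_set_mem _))))

/-- the subgroup read off from a name -/
def sub (σ : Au V) (ω : Set (ℤ × (V ⊕ J))) : AddSubgroup V where
  carrier := {c | Good σ ω → (0, Sum.inl c) ∈ ω}
  add_mem' ha hb g := (g 0).2.1 _ _ (ha g) (hb g)
  zero_mem' g := (g 0).1
  neg_mem' ha g := (g 0).2.2.1 _ (ha g)

end PushAux

open PushAux in
theorem xPush : PushS := by
  intro X V _ _ _ B'
  let A : V ⊕ (ℕ × (ℤ × ℤ) × (V × V)) → Set X :=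
    Sum.elim (fun c => {x | c ∈ B'.N x}) fun e => {x | e.2.2 ∈ B'.Sg e.1 e.2.1 x}
  have hA : ∀ i, MeasurableSet (A i) := by
    rintro (c | e)
    exacts [B'.mN c, measurableSet_memA (B'.mS _ _) _]
  have hp := measurable_nm B'.T hA
  have gd : ∀ x, Good B'.σ (nm B'.T A x) := fun x n =>
    ⟨(B'.N _).zero_mem, fun _ _ => (B'.N _).add_mem, fun _ => (B'.N _).neg_mem, fun c => by
      show B'.σ c ∈ B'.N (tz B'.T n x) ↔ c ∈ B'.N (tz B'.T (n + 1) x)
      rw [B'.eqv, T_tz]⟩
  refine ⟨Set (ℤ × (V ⊕ (ℕ × (ℤ × ℤ) × (V × V)))), inferInstance, inferInstance,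
    { μ := B'.μ.map (nm B'.T A)
      prob := Measure.isProbabilityMeasure_map hp.aemeasurable
      T := shf _
      mp := ⟨(shf _).measurable, ?_⟩
      σ := B'.σ
      N := sub B'.σ
      mN := fun c => measurableSet_setOfPred.2 ((measurable_good B'.σ).imp (measurable_set_mem _))
      eqv := fun c ω => ⟨fun h g => (((good_shf _ _).1 g 0).2.2.2 c).1 (h ((good_shf _ _).1 g)),
        fun h g => ((g 0).2.2.2 c).2 (h ((good_shf _ _).2 g))⟩
      ν := B'.ν
      pν := B'.pν
      U := B'.U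
      r := B'.r
      ne := B'.ne
      Sg := fun M d ω => {q | (0, Sum.inr (M, d, q)) ∈ ω}
      mS := fun M d => measurable_set_iff.2 fun _ => measurable_set_mem _ }, nm B'.T A,
    ⟨hp, rfl⟩, nm_T _ _, rfl, fun y => ?_, rfl, rfl, rfl, fun M d y => ?_⟩
  · rw [Measure.map_map (shf _).measurable hp,
      show shf _ ∘ nm B'.T A = nm B'.T A ∘ B'.T from funext fun x => (nm_T _ _ x).symm,
      ← Measure.map_map hp B'.T.measurable, B'.mp.map_eq]
  · ext c
    show _ ↔ (Good B'.σ (nm B'.T A y) → c ∈ B'.N (tz B'.T 0 y))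
    rw [tz_zero]
    exact ⟨fun h _ => h, fun h => h (gd y)⟩
  · ext q
    show _ ↔ q ∈ B'.Sg M d (tz B'.T 0 y)
    rw [tz_zero]

end

end Pool.Agent.MP_154433_an.T3A
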