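import Pool.Agent.MP_154433_an.t3a.Basic

set_option autoImplicit false

open MeasureTheory ProbabilityTheory Filter Topology Set
open scoped ENNReal

namespace Pool.Agent.MP_154433_an.T3A

noncomputable section

/-! ### the kernel of the invariant sets -/

def KexS : Prop :=
  ∀ (Ω : Type) [MeasurableSpace Ω] [StandardBorelSpace Ω] (μ : Measure Ω) [IsProbabilityMeasure μ]
    (T : Ω ≃ᵐ Ω), MeasurePreserving T μ μ → ∃ κ : Kernel Ω Ω, ErgK μ T κ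

def KaS : Prop :=
  ∀ (Ω : Type) [MeasurableSpace Ω] [StandardBorelSpace Ω] (μ : Measure Ω) [IsProbabilityMeasure μ]
    (T : Ω ≃ᵐ Ω) (κ : Kernel Ω Ω), MeasurePreserving T μ μ → ErgK μ T κ →
    κ ∘ₘ μ = μ ∧ (∀ᵐ a ∂μ, MeasurePreserving T (κ a) (κ a)) ∧
    ∀ B, MeasurableSet B → T ⁻¹' B = B → ∀ᵐ a ∂μ, a ∈ B → κ a Bᶜ = 0

def KbS : Prop :=
  ∀ (Ω : Type) [MeasurableSpace Ω] (μ : Measure Ω) [IsProbabilityMeasure μ]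
    (T : Ω ≃ᵐ Ω) (κ : Kernel Ω Ω), MeasurePreserving T μ μ → ErgK μ T κ →
    (∀ᵐ a ∂μ, MeasurePreserving T (κ a) (κ a)) → (κ ×ₖ κ) ∘ₘ μ = μ ⊗ₘ κ ∧
    ∀ i j, MeasurePreserving (Prod.map (tz T i) (tz T j)) (μ ⊗ₘ κ) (μ ⊗ₘ κ)

def KcS : Prop :=
  ∀ (Ω : Type) [MeasurableSpace Ω] (μ : Measure Ω) [IsProbabilityMeasure μ]
    (T : Ω ≃ᵐ Ω) (κ : Kernel Ω Ω), MeasurePreserving T μ μ → ErgK μ T κ →
    ∀ D : Set (Ω × Ω), MeasurableSet D → Prod.map id T ⁻¹' D = D →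
    ∀ᵐ y ∂μ, κ y (Prod.mk y ⁻¹' D) = 0 ∨ κ y (Prod.mk y ⁻¹' D)ᶜ = 0

def KdS : Prop :=
  ∀ (Y Ω : Type) [MeasurableSpace Y] [MeasurableSpace Ω] (μ' : Measure Y) [IsProbabilityMeasure μ']
    (μ : Measure Ω) [IsProbabilityMeasure μ] (T' : Y ≃ᵐ Y) (T : Ω ≃ᵐ Ω) (κ' : Kernel Y Y)
    (κ : Kernel Ω Ω) (p : Y → Ω), MeasurePreserving T' μ' μ' → MeasurePreserving T μ μ →
    ErgK μ' T' κ' → ErgK μ T κ → MeasurePreserving p μ' μ → (∀ y, p (T' y) = T (p y)) →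
    (μ' ⊗ₘ κ').map (Prod.map p p) = μ ⊗ₘ κ

/-! ### limit laws -/

def LeS : Prop :=
  ∀ (X X' : Type) [MeasurableSpace X] [MeasurableSpace X'] (a b : Measure (X × X'))
    [IsFiniteMeasure a] [IsFiniteMeasure b],
    (∀ A B, MeasurableSet A → MeasurableSet B → a (A ×ˢ B) ≤ b (A ×ˢ B)) → a ≤ b

def LimS : Prop :=
  ∀ (Ω ι : Type) [MeasurableSpace Ω] [StandardBorelSpace Ω] [Countable ι] (μ : Measure Ω)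
    (m : ℕ → Measure ((Ω × Ω) × Set ι)) (U : Ultrafilter ℕ), (∀ M, IsProbabilityMeasure (m M)) →
    (∀ M, (m M).map (fun z => z.1.1) = μ) → (∀ M, (m M).map (fun z => z.1.2) = μ) →
    ∃ w : Measure ((Ω × Ω) × Set ι), IsProbabilityMeasure w ∧
      ∀ E, Cyl E → Tendsto (fun M => m M E) U (𝓝 (w E))

def ExtS : Prop :=
  ∀ (Ω ι : Type) [MeasurableSpace Ω] [Countable ι] (a b : Measure ((Ω × Ω) × Set ι))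
    [IsFiniteMeasure a], (∀ E, Cyl E → a E = b E) → a = b

def W0S : Prop := LimS →
  ∀ (Ω V : Type) [MeasurableSpace Ω] [StandardBorelSpace Ω] [AddCommGroup V] [Countable V]
    (B : Bun Ω V), ∃ w, IsLim B w

def W1S : Prop := ExtS →
  ∀ (Ω V : Type) [MeasurableSpace Ω] [AddCommGroup V] [Countable V] (B : Bun Ω V)
    (w : Measure ((Ω × Ω) × Arr V)), IsLim B w → H0 B →
    w.map (B.sA 1 1) = w ∧ w.map (fun z => z.1.1) = B.μ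

def W2S : Prop :=
  ∀ (Ω V : Type) [MeasurableSpace Ω] [AddCommGroup V] [Countable V] (B : Bun Ω V)
    (w : Measure ((Ω × Ω) × Arr V)), IsLim B w → H0 B →
    ∀ᵐ z ∂w, ((0 : V), (0 : V)) ∈ z.2 → Iso (B.N z.1.1) (B.N z.1.2) z.2

def W3S : Prop := LeS →
  ∀ (Ω V : Type) [MeasurableSpace Ω] [AddCommGroup V] [Countable V] (B : Bun Ω V)
    (w : Measure ((Ω × Ω) × Arr V)) (κ : Kernel Ω Ω), IsLim B w → Mix B.ν B.U → ErgK B.μ B.T κ →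
    w.map Prod.fst ≪ B.μ ⊗ₘ κ

def EqzS : Prop :=
  ∀ (Ω V : Type) [MeasurableSpace Ω] [AddCommGroup V] [Countable V] (B : Bun Ω V), H0 B → EqZ B

def LamS : Prop :=
  ∀ (Ω V : Type) [MeasurableSpace Ω] [AddCommGroup V] [Countable V] (A : Base Ω V)
    (κ : Kernel Ω Ω) (w : Measure ((Ω × Ω) × Arr V)) [IsProbabilityMeasure w], ErgP A.μ A.T κ →
    w.map (A.sA 1 1) = w → w.map Prod.fst ≪ A.μ ⊗ₘ κ → LamP A κ w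

/-- properties that are kept by source shifts pass from `w` to the mixture -/
def LaeS : Prop :=
  ∀ (Ω V : Type) [MeasurableSpace Ω] [AddCommGroup V] [Countable V] (A : Base Ω V)
    (κ : Kernel Ω Ω) (w : Measure ((Ω × Ω) × Arr V)), LamP A κ w →
    ((∀ᵐ z ∂w, ((0 : V), (0 : V)) ∈ z.2 → Iso (A.N z.1.1) (A.N z.1.2) z.2) →
      ∀ᵐ z ∂(Lam A w), Iso (A.N z.1.1) (A.N z.1.2) z.2) ∧
    ∀ g : ℕ → Ω → Arr V, (∀ i, Measurable (g i)) → (∀ i y, g i (A.T y) = sh A.σ 1 1 (g i y)) →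
      (∀ᵐ z ∂w, ∀ i, Itw (g i z.1.1) (g i z.1.2) z.2) →
      ∀ᵐ z ∂(Lam A w), ∀ i, Itw (g i z.1.1) (g i z.1.2) z.2

/-! ### arrows between all pairs -/

def PhaS : Prop :=
  ∀ (Ω : Type) [MeasurableSpace Ω] (μ : Measure Ω) [IsProbabilityMeasure μ] (T : Ω ≃ᵐ Ω)
    (κ : Kernel Ω Ω) (L0 : Measure (Ω × Ω)) [IsFiniteMeasure L0], ErgP μ T κ → L0 ≪ μ ⊗ₘ κ →
    (∀ i j E, MeasurableSet E → L0 E = 0 → L0 (Prod.map (tz T i) (tz T j) ⁻¹' E) = 0) →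
    ∃ Ip : Set Ω, MeasurableSet Ip ∧ T ⁻¹' Ip = Ip ∧
      (μ ⊗ₘ κ).restrict (Ip ×ˢ univ) ≪ L0 ∧ L0 ≪ (μ ⊗ₘ κ).restrict (Ip ×ˢ univ)

def PhbS : Prop :=
  ∀ (X Z : Type) [MeasurableSpace X] [MeasurableSpace Z] [StandardBorelSpace Z] [Nonempty Z]
    (L : Measure (X × Z)) [IsFiniteMeasure L] (R : X ≃ᵐ X) (Q : Z ≃ᵐ Z),
    L.map (Prod.map R Q) = L → ∃ Φ : Kernel X Z, IsMarkovKernel Φ ∧ L = L.map Prod.fst ⊗ₘ Φ ∧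
      ∀ᵐ x ∂(L.map Prod.fst), Φ (R x) = (Φ x).map Q

def PhcS : Prop := PhaS → PhbS →
  ∀ (Ω V : Type) [MeasurableSpace Ω] [AddCommGroup V] [Countable V] (A : Base Ω V)
    (κ : Kernel Ω Ω) (w : Measure ((Ω × Ω) × Arr V)), ErgP A.μ A.T κ → LamP A κ w →
    ∃ Ip Φ, PhiD A κ (Lam A w) Ip Φ

/-! ### flat squares -/

def F2S : Prop :=
  ∀ (Ω V : Type) [MeasurableSpace Ω] [AddCommGroup V] [Countable V] (B : Bun Ω V)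
    (w : Measure ((Ω × Ω) × Arr V)), FlatM B w → EqZ B → w.map (fun z => z.1.1) = B.μ →
    ∀ i, FlatM B (w.map (B.sA i 0))

def F3S : Prop :=
  ∀ (Ω V : Type) [MeasurableSpace Ω] [AddCommGroup V] [Countable V] (B : Bun Ω V)
    (w : Measure ((Ω × Ω) × Arr V)) [IsProbabilityMeasure w],
    (∀ i, FlatM B (w.map (B.sA i 0))) → FlatM B (Lam B.toBase w)

def F4S : Prop :=
  ∀ (Ω V : Type) [MeasurableSpace Ω] [AddCommGroup V] [Countable V] (B : Bun Ω V)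
    (κ : Kernel Ω Ω) [IsMarkovKernel κ] (L : Measure ((Ω × Ω) × Arr V)) [IsFiniteMeasure L]
    (Ip : Set Ω) (Φ : Kernel (Ω × Ω) (Arr V)), PhiD B.toBase κ L Ip Φ → FlatM B L →
    FlatM B (Lf B.toBase κ Φ)

/-! ### the extension by samples -/

def IidS : Prop :=
  ∀ (Ω Z : Type) [MeasurableSpace Ω] [MeasurableSpace Z] [StandardBorelSpace Z] [Nonempty Z]
    (μ : Measure Ω) [IsProbabilityMeasure μ] (T : Ω ≃ᵐ Ω) (R : Z ≃ᵐ Z) (Ξ : Kernel Ω Z)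
    [IsMarkovKernel Ξ], MeasurePreserving T μ μ → (∀ᵐ y ∂μ, Ξ (T y) = (Ξ y).map R) →
    ∃ (μ' : Measure (Ω × (ℕ → Z))) (T' : (Ω × (ℕ → Z)) ≃ᵐ (Ω × (ℕ → Z))),
      IsProbabilityMeasure μ' ∧ (∀ x, T' x = (T x.1, fun i => R (x.2 i))) ∧
      MeasurePreserving T' μ' μ' ∧ (∀ i, μ'.map (fun x => (x.1, x.2 i)) = μ ⊗ₘ Ξ) ∧
      ∀ E, MeasurableSet E → ∀ᵐ x ∂μ', Ξ x.1 E ≠ 0 → ∃ i, x.2 i ∈ E

def XiS : Prop :=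
  ∀ (Ω V : Type) [MeasurableSpace Ω] [AddCommGroup V] [Countable V] (A : Base Ω V)
    (κ : Kernel Ω Ω) (Φ : Kernel (Ω × Ω) (Arr V)) [IsMarkovKernel Φ], ErgP A.μ A.T κ →
    (∀ᵐ z ∂(A.μ ⊗ₘ κ), Φ (A.T z.1, A.T z.2) = (Φ z).map (sh A.σ 1 1)) →
    (∀ᵐ y ∂A.μ, Xi κ Φ (A.T y) =
      (Xi κ Φ y).map (Prod.map A.T (Prod.map (sh A.σ 1 1) (sh A.σ 1 1)))) ∧
    (A.μ ⊗ₘ Xi κ Φ).map (fun x => ((x.1, x.2.1), x.2.2.1)) = Lf A κ Φ ∧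
    (A.μ ⊗ₘ Xi κ Φ).map (fun x => ((x.1, x.2.1), x.2.2.2)) = Lf A κ Φ ∧
    ∀ P P' : Set (Arr V), MeasurableSet P → MeasurableSet P' → ∀ᵐ z ∂(A.μ ⊗ₘ κ),
      Φ z P ≠ 0 → Φ z P' ≠ 0 → Xi κ Φ z.1 {x | x.2.1 ∈ P ∧ x.2.2 ∈ P'} ≠ 0

def HatS : Prop := IidS → XiS →
  ∀ (Ω V : Type) [MeasurableSpace Ω] [StandardBorelSpace Ω] [AddCommGroup V] [Countable V]
    (B : Bun Ω V) (κ : Kernel Ω Ω) (L : Measure ((Ω × Ω) × Arr V)) (Ip : Set Ω)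
    (Φ : Kernel (Ω × Ω) (Arr V)), ErgP B.μ B.T κ → PhiD B.toBase κ L Ip Φ →
    ∃ (Y : Type) (_ : MeasurableSpace Y) (_ : StandardBorelSpace Y) (B' : Bun Y V) (p : Y → Ω)
      (e : ℕ → Y → Ω) (S S' : ℕ → Y → Arr V), Smp B' B p κ Φ e S S'

def PullS : Prop :=
  ∀ (Y Ω V : Type) [MeasurableSpace Y] [MeasurableSpace Ω] [AddCommGroup V] [Countable V]
    (B' : Bun Y V) (B : Bun Ω V) (p : Y → Ω), Ext B' B p →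
    (H0 B' ↔ H0 B) ∧ (Flat B' ↔ Flat B) ∧ (∀ D δ, Rel B' D δ ↔ Rel B D δ) ∧ (Dec B' ↔ Dec B)

def PushS : Prop :=
  ∀ (X V : Type) [MeasurableSpace X] [AddCommGroup V] [Countable V] (B' : Bun X V),
    ∃ (Ω : Type) (_ : MeasurableSpace Ω) (_ : StandardBorelSpace Ω) (B : Bun Ω V) (p : X → Ω),
      Ext B' B p

def IntS : Prop :=
  ∀ (Y Ω V : Type) [MeasurableSpace Y] [MeasurableSpace Ω] [AddCommGroup V] [Countable V]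
    (B' : Bun Y V) (B : Bun Ω V) (p : Y → Ω) (κ : Kernel Ω Ω) (Φ : Kernel (Ω × Ω) (Arr V))
    (e : ℕ → Y → Ω) (S S' : ℕ → Y → Arr V) (w' : Measure ((Y × Y) × Arr V)),
    Smp B' B p κ Φ e S S' → FlatM B (Lf B.toBase κ Φ) → IsLim B' w' →
    ∀ᵐ z ∂w', ∀ i, Itw (loop (S i z.1.1) (S' i z.1.1)) (loop (S i z.1.2) (S' i z.1.2)) z.2

def PrjS : Prop := ExtS →
  ∀ (Y Ω V : Type) [MeasurableSpace Y] [MeasurableSpace Ω] [AddCommGroup V] [Countable V]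
    (B' : Bun Y V) (B : Bun Ω V) (p : Y → Ω) (κ' : Kernel Y Y) (κ : Kernel Ω Ω)
    (w' : Measure ((Y × Y) × Arr V)) (w : Measure ((Ω × Ω) × Arr V)), Ext B' B p →
    IsLim B' w' → IsLim B w → LamP B'.toBase κ' w' → LamP B.toBase κ w →
    ∀ E, MeasurableSet E → Lam B.toBase w E = 0 → Lam B'.toBase w' (proj p ⁻¹' E) = 0

def G3S : Prop :=
  ∀ (Y Ω V : Type) [MeasurableSpace Y] [MeasurableSpace Ω] [AddCommGroup V] [Countable V]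
    (B' : Bun Y V) (B : Bun Ω V) (p : Y → Ω) (κ' : Kernel Y Y) [IsMarkovKernel κ']
    (κ : Kernel Ω Ω) [IsMarkovKernel κ] (L' : Measure ((Y × Y) × Arr V))
    (L : Measure ((Ω × Ω) × Arr V)) (Ip' : Set Y) (Ip : Set Ω) (Φ' : Kernel (Y × Y) (Arr V))
    (Φ : Kernel (Ω × Ω) (Arr V)) (e : ℕ → Y → Ω) (S S' : ℕ → Y → Arr V),
    Smp B' B p κ Φ e S S' → PhiD B'.toBase κ' L' Ip' Φ' → PhiD B.toBase κ L Ip Φ →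
    (∀ E, MeasurableSet E → L E = 0 → L' (proj p ⁻¹' E) = 0) →
    (∀ᵐ z ∂L, Iso (B.N z.1.1) (B.N z.1.2) z.2) →
    ∀ᵐ y ∂B'.μ, y ∈ Ip' → ∀ i, Iso (B'.N y) (B'.N y) (loop (S i y) (S' i y))

def G4S : Prop :=
  ∀ (Y Ω V : Type) [MeasurableSpace Y] [MeasurableSpace Ω] [AddCommGroup V] [Countable V]
    (B' : Bun Y V) (B : Bun Ω V) (p : Y → Ω) (κ' : Kernel Y Y) [IsMarkovKernel κ']
    (κ : Kernel Ω Ω) [IsMarkovKernel κ] (L' : Measure ((Y × Y) × Arr V))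
    (L : Measure ((Ω × Ω) × Arr V)) (Ip' : Set Y) (Ip : Set Ω) (Φ' : Kernel (Y × Y) (Arr V))
    (Φ : Kernel (Ω × Ω) (Arr V)) (e : ℕ → Y → Ω) (S S' : ℕ → Y → Arr V),
    Smp B' B p κ Φ e S S' → PhiD B'.toBase κ' L' Ip' Φ' → PhiD B.toBase κ L Ip Φ →
    (∀ E, MeasurableSet E → L E = 0 → L' (proj p ⁻¹' E) = 0) →
    (B'.μ ⊗ₘ κ').map (Prod.map p p) = B.μ ⊗ₘ κ →
    (∀ᵐ z ∂(Lp B'.toBase κ' Ip' Φ'), ∀ a ∈ z.2, ∀ b ∈ z.2,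
      Φ (p z.1.1, p z.1.2) {R | a ∈ R ∧ b ∈ R} ≠ 0) ∧
    ∀ᵐ z ∂(B'.μ ⊗ₘ κ'), ∀ a b a' b' : V × V, Φ (p z.1, p z.2) {R | a ∈ R ∧ b ∈ R} ≠ 0 →
      Φ (p z.1, p z.2) {R | a' ∈ R ∧ b' ∈ R} ≠ 0 → a.2 = a'.2 → b.2 = b'.2 →
      ∃ i, (a.1, a'.1) ∈ loop (S i z.1) (S' i z.1) ∧ (b.1, b'.1) ∈ loop (S i z.1) (S' i z.1)

def RliS : Prop :=
  ∀ (Ω V : Type) [MeasurableSpace Ω] [AddCommGroup V] [Countable V] (B : Bun Ω V)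
    (κ : Kernel Ω Ω) [IsMarkovKernel κ] (w : Measure ((Ω × Ω) × Arr V)) (Ip : Set Ω)
    (Φ : Kernel (Ω × Ω) (Arr V)) (D : RD V) (δ : ℝ≥0∞), IsLim B w → LamP B.toBase κ w →
    PhiD B.toBase κ (Lam B.toBase w) Ip Φ → 0 < δ → Rel B D δ →
    ∀ᶠ M in (B.U : Filter ℕ), δ / 2 ≤ B.P M (B.relS D ∩ {z | z.2 ∈ Ip})

/-! ### one base point -/

def T1S : Prop :=
  ∀ (Ω V : Type) [MeasurableSpace Ω] [AddCommGroup V] [Countable V] (A : Base Ω V)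
    (κ : Kernel Ω Ω) (L : Measure ((Ω × Ω) × Arr V)) (Ip : Set Ω) (Φ : Kernel (Ω × Ω) (Arr V)),
    ErgP A.μ A.T κ → PhiD A κ L Ip Φ →
    (∀ Q : (Ω × Ω) × Arr V → Prop, (∀ᵐ z ∂(Lp A κ Ip Φ), Q z) →
      ∀ᵐ a ∂A.μ, a ∈ Ip → ∀ᵐ z ∂(((κ a).prod (κ a)) ⊗ₘ Φ), Q z) ∧
    ∀ᵐ a ∂A.μ, MeasurePreserving (A.sA 1 1) (((κ a).prod (κ a)) ⊗ₘ Φ) (((κ a).prod (κ a)) ⊗ₘ Φ)

def T2S : Prop :=
  ∀ (Ω V : Type) [MeasurableSpace Ω] [AddCommGroup V] [Countable V] (A : Base Ω V)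
    (κ : Kernel Ω Ω) (Ip : Set Ω) (Φ : Kernel (Ω × Ω) (Arr V)) [IsMarkovKernel Φ],
    ErgP A.μ A.T κ → MeasurableSet Ip →
    (∀ n E, MeasurableSet E → Lp A κ Ip Φ E = 0 → Lp A κ Ip Φ (A.sA 0 n ⁻¹' E) = 0) →
    ∀ Q : (Ω × Ω) × Arr V → Prop, (∀ᵐ z ∂(Lp A κ Ip Φ), Q z) →
    ∀ᵐ a ∂A.μ, a ∈ Ip → ∃ τ : Ω → Arr V, Measurable τ ∧
      ∀ᵐ y ∂(κ a), ∀ n : ℤ, Q ((a, y), sh A.σ 0 (-n) (τ (tz A.T n y)))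

def SelS : Prop :=
  ∀ (X K : Type) [MeasurableSpace X] [Countable K] (μ : Measure X) [IsProbabilityMeasure μ]
    (U : Ultrafilter ℕ) (R : ℕ → X → ℝ≥0∞) (F : ℕ → K → X → ℝ≥0∞) (δ : ℝ≥0∞) (Q : X → Prop),
    (∀ M, Measurable (R M)) → (∀ M x, R M x ≤ 1) → (∀ M k, Measurable (F M k)) → 0 < δ →
    (∀ᶠ M in (U : Filter ℕ), δ ≤ ∫⁻ x, R M x ∂μ) →
    (∀ k, Tendsto (fun M => ∫⁻ x, F M k x ∂μ) U (𝓝 0)) → (∀ᵐ x ∂μ, Q x) →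
    ∃ (x : X) (s : ℕ → ℕ), Q x ∧ (∀ i, δ / 2 ≤ R (s i) x) ∧
      ∀ k, Tendsto (fun i => F (s i) k x) atTop (𝓝 0)

def TauS : Prop := T1S → T2S → SelS →
  ∀ (Ω V : Type) [MeasurableSpace Ω] [AddCommGroup V] [Countable V] (B : Bun Ω V)
    (κ : Kernel Ω Ω) (L : Measure ((Ω × Ω) × Arr V)) (Ip : Set Ω) (Φ : Kernel (Ω × Ω) (Arr V))
    (g : ℕ → Ω → Arr V) (Pos : Ω × Ω → V × V → V × V → Prop) (D : RD V) (δ : ℝ≥0∞),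
    ErgP B.μ B.T κ → PhiD B.toBase κ L Ip Φ → HatD B.toBase κ Ip Φ g Pos → 0 < δ →
    (∀ᶠ M in (B.U : Filter ℕ), δ ≤ B.P M (B.relS D ∩ {z | z.2 ∈ Ip})) → Dec B →
    ∃ (A : Base Ω V) (N0 : AddSubgroup V) (τ : Ω → Arr V) (G : ℕ → Arr V)
      (m2 : Measure ((Ω × Ω) × Arr V)) (ν : ℕ → Measure ℤ),
      FixD A N0 τ G g m2 ∧ RelF A D (δ / 2) ν

/-! ### the trivialisation -/

def MkS : Prop :=
  ∀ (Z Γ : Type) [MeasurableSpace Z] [AddCommGroup Γ] [Countable Γ] (R : Z → Arr Γ),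
    Measurable R → ∃ φ : Z → Au Γ, (∀ ξ ξ', MeasurableSet {z | φ z ξ = ξ'}) ∧
      ∀ z, Iso ⊥ ⊥ (R z) → ∀ ξ ξ', φ z ξ = ξ' ↔ (ξ, ξ') ∈ R z

def ThS : Prop := MkS →
  ∀ (Ω V : Type) [MeasurableSpace Ω] [AddCommGroup V] [Countable V] (A : Base Ω V)
    (N0 : AddSubgroup V) (τ : Ω → Arr V) (G : ℕ → Arr V) (g : ℕ → Ω → Arr V)
    (m2 : Measure ((Ω × Ω) × Arr V)), FixD A N0 τ G g m2 →
    ∃ (θ : Ω → V →+ (V ⧸ N0)) (γ : ℕ → Au (V ⧸ N0)), Triv A θ γ g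

def PsiS : Prop := MkS →
  ∀ (Ω V Γ : Type) [MeasurableSpace Ω] [AddCommGroup V] [Countable V] [AddCommGroup Γ]
    [Countable Γ] (A : Base Ω V) (θ : Ω → V →+ Γ), Th A θ → ∃ Ψ, Coc A θ Ψ

def PsrS : Prop :=
  ∀ (Ω V Γ : Type) [MeasurableSpace Ω] [AddCommGroup V] [Countable V] [AddCommGroup Γ]
    [Countable Γ] (A : Base Ω V) (θ : Ω → V →+ Γ) (Ψ : ℤ → Ω → Au Γ) (D : RD V) (δ : ℝ≥0∞)
    (ν : ℕ → Measure ℤ), Th A θ → Coc A θ Ψ → RelF A D δ ν →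
    (∀ i, δ ≤ PM (ν i) A.μ {z | ∑ k, Ψ (D.r k * z.1.1) z.2
        (θ (tz A.T (D.r k * z.1.1) z.2) (D.c k)) = θ z.2 (D.b z.1.2) ∧
      θ (tz A.T (D.r D.k0 * z.1.1) z.2) (D.c D.k0) ≠ 0}) ∧
    ∀ ξ ξ' : Γ, ξ' ≠ 0 →
      Tendsto (fun i => PM (ν i) A.μ {z | Ψ (z.1.1 - z.1.2) z.2 ξ = ξ'}) atTop (𝓝 0)

def SdS : Prop := MkS →
  ∀ (Ω V Γ : Type) [MeasurableSpace Ω] [AddCommGroup V] [Countable V] [AddCommGroup Γ]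
    [Countable Γ] (A : Base Ω V) (θ : Ω → V →+ Γ) (γ : ℕ → Au Γ) (g : ℕ → Ω → Arr V)
    (m2 : Measure ((Ω × Ω) × Arr V)), Triv A θ γ g → m2.map Prod.fst = A.μ.prod A.μ →
    (∀ᵐ z ∂m2, Iso (A.N z.1.1) (A.N z.1.2) z.2 ∧ ∀ i, Itw (g i z.1.1) (g i z.1.2) z.2) →
    ∃ s : (Ω × Ω) × Arr V → Au Γ, (∀ ξ ξ', MeasurableSet {z | s z ξ = ξ'}) ∧
      ∀ᵐ z ∂m2, (∀ c, ∃ c', (c, c') ∈ z.2) ∧
        (∀ c c', (c, c') ∈ z.2 → s z (θ z.1.1 c) = θ z.1.2 c') ∧ ∀ i, s z * γ i = γ i * s z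

def CtS : Prop :=
  ∀ (Ω V Γ : Type) [MeasurableSpace Ω] [AddCommGroup V] [Countable V] [AddCommGroup Γ]
    [Countable Γ] (A : Base Ω V) (θ : Ω → V →+ Γ) (γ : ℕ → Au Γ) (g : ℕ → Ω → Arr V)
    (Ψ : ℤ → Ω → Au Γ) (m2 : Measure ((Ω × Ω) × Arr V)) (s : (Ω × Ω) × Arr V → Au Γ),
    Triv A θ γ g → Coc A θ Ψ → m2.map Prod.fst = A.μ.prod A.μ →
    MeasurePreserving (A.sA 1 1) m2 m2 → (∀ ξ ξ', MeasurableSet {z | s z ξ = ξ'}) →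
    (∀ᵐ z ∂m2, (∀ c, ∃ c', (c, c') ∈ z.2) ∧
      (∀ c c', (c, c') ∈ z.2 → s z (θ z.1.1 c) = θ z.1.2 c') ∧ ∀ i, s z * γ i = γ i * s z) →
    ∃ C : Set (Au Γ), (∀ a ∈ C, ∀ b ∈ C, a * b = b * a) ∧ (∀ n, ∀ᵐ y ∂A.μ, Ψ n y ∈ C) ∧
      ∀ ξ : Γ, ∀ ε : ℝ≥0∞, 0 < ε → ∃ F : Finset Γ, ∀ n,
        (A.μ.prod A.μ) {p | (Ψ n p.2)⁻¹ (Ψ n p.1 ξ) ∉ F} ≤ ε

/-! ### exact subgroups -/

def ExaS : Prop :=
  ∀ (X V : Type) [MeasurableSpace X] [AddCommGroup V] [Countable V] (μ : Measure X) (T : X ≃ᵐ X)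
    (σ : Au V) (N : V → Set X), MeasurePreserving T μ μ → (∀ v, MeasurableSet (N v)) →
    (∀ᵐ x ∂μ, x ∈ N 0) → (∀ v v', ∀ᵐ x ∂μ, x ∈ N v → x ∈ N v' → x ∈ N (v - v')) →
    (∀ v, ∀ᵐ x ∂μ, x ∈ N (σ v) ↔ T x ∈ N v) →
    ∃ N' : X → AddSubgroup V, (∀ c, MeasurableSet {y | c ∈ N' y}) ∧
      (∀ c y, σ c ∈ N' y ↔ c ∈ N' (T y)) ∧ ∀ᵐ x ∂μ, ∀ c, c ∈ N' x ↔ x ∈ N c

end

end Pool.Agent.MP_154433_an.T3A
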