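import Pool.Agent.MP_154433_an.t3a.Spec

set_option autoImplicit false

open MeasureTheory ProbabilityTheory Filter Topology Set
open scoped ENNReal

namespace Pool.Agent.MP_154433_an.T3A

noncomputable section

theorem xW3 : W3S := by
  intro hLe Ω V _ _ _ B w κ hw hmix hK
  haveI := hK.markov
  haveI := hw.1
  haveI : IsFiniteMeasure ((B.r.natAbs : ℝ≥0∞) • (B.μ ⊗ₘ κ)) :=
    ⟨by
      rw [Measure.smul_apply, smul_eq_mul]
      exact ENNReal.mul_lt_top (ENNReal.natCast_lt_top _) (measure_lt_top _ _)⟩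
  have hle : w.map Prod.fst ≤ (B.r.natAbs : ℝ≥0∞) • (B.μ ⊗ₘ κ) := by
    refine hLe Ω Ω _ _ fun A A' hA hA' => ?_
    have hc : Cyl ({z | z.1.1 ∈ A} ∩ {z | z.1.2 ∈ A'} : Set ((Ω × Ω) × Arr V)) :=
      Cyl.inter _ _ (Cyl.fst A hA) (Cyl.snd A' hA')
    have ht := hw.2 _ hc
    have e1 : ∀ M, B.P M (B.pt M ⁻¹' ({z | z.1.1 ∈ A} ∩ {z | z.1.2 ∈ A'})) =
        ∫⁻ d, B.μ (A ∩ tz B.T (B.r * d) ⁻¹' A') ∂B.ν M := by
      intro M
      rw [Bun.P, PM_apply _ _ (B.measurable_pt M hc.meas)]
      have := (measurePreserving_fst (μ := B.ν M) (ν := B.ν M)).lintegral_comp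
        (f := fun d => B.μ (A ∩ tz B.T (B.r * d) ⁻¹' A')) (measurable_of_countable _)
      rw [← this]
      rfl
    simp only [e1] at ht
    have hm := hmix Ω B.μ B.T B.mp B.r B.ne A A' hA hA' (fun y => κ y A')
      (κ.measurable_coe hA') (fun y => by rw [hK.inv]) (fun I hI hT => by
        have := hK.int (I.indicator 1) (measurable_one.indicator hI) (fun y => by
          have : B.T y ∈ I ↔ y ∈ I := by rw [← Set.mem_preimage, hT]
          by_cases hy : y ∈ I
          · simp [hy, this.2 hy]
          · simp [hy, mt this.1 hy]) A' hA'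
        rw [lintegral_indicator_one hI, Measure.restrict_apply hI, inter_comm] at this
        rw [← this, ← lintegral_indicator hI]
        refine lintegral_congr fun y => ?_
        by_cases hy : y ∈ I <;> simp [hy])
    rw [ht.limsup_eq] at hm
    rw [Measure.map_apply measurable_fst (hA.prod hA'), Measure.smul_apply, smul_eq_mul,
      Measure.compProd_apply_prod hA hA']
    exact hm
  exact (Measure.absolutelyContinuous_of_le hle).trans Measure.smul_absolutelyContinuous

end

end Pool.Agent.MP_154433_an.T3A
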